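import Mathlib

/-!
# Gaussian sums over cosets of `ℤ` are almost independent of the coset
-/

set_option autoImplicit false
set_option linter.unusedSectionVars false

namespace Pool.Agent.K4H16.Smyth

open Filter Topology HurwitzZeta Real

/-- The error term `η(x) = ∑_{k ≠ 0} exp (-π k ^ 2 / x)`. -/
noncomputable def eta (x : ℝ) : ℝ := cosKernel 0 (1 / x) - 1

theorem hasSum_eta {x : ℝ} (hx : 0 < x) :
    HasSum (fun n : ℕ => 2 * rexp (-π * (n + 1) ^ 2 * (1 / x))) (eta x) := by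
  have h := hasSum_nat_cosKernel₀ 0 (t := 1 / x) (by positivity)
  simp only [mul_zero, zero_mul, Real.cos_zero, mul_one] at h
  exact h

theorem eta_nonneg {x : ℝ} (hx : 0 < x) : 0 ≤ eta x :=
  (hasSum_eta hx).nonneg fun n => by positivity

theorem abs_cosKernel_sub_le (u : ℝ) {x : ℝ} (hx : 0 < x) :
    |cosKernel (u : UnitAddCircle) (1 / x) - 1| ≤ eta x := by
  have h := hasSum_nat_cosKernel₀ u (t := 1 / x) (by positivity)
  rw [← Real.norm_eq_abs]
  refine h.norm_le_of_bounded (hasSum_eta hx) fun n => ?_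
  rw [norm_mul, norm_mul, Real.norm_eq_abs, Real.norm_eq_abs, Real.norm_eq_abs, abs_of_pos (Real.exp_pos _),
    abs_of_pos (two_pos)]
  have h1 := Real.abs_cos_le_one (2 * π * u * (n + 1))
  have h2 := (Real.exp_pos (-π * (n + 1) ^ 2 * (1 / x))).le
  nlinarith

/-- The Gaussian sum. -/
noncomputable def theta (x u : ℝ) : ℝ := ∑' m : ℤ, rexp (-π * (m + u) ^ 2 * x)

theorem summable_theta {x : ℝ} (hx : 0 < x) (u : ℝ) :
    Summable fun m : ℤ => rexp (-π * (m + u) ^ 2 * x) :=
  (hasSum_int_evenKernel u hx).summable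

theorem theta_eq {x : ℝ} (hx : 0 < x) (u : ℝ) :
    theta x u = 1 / x ^ (1 / 2 : ℝ) * cosKernel (u : UnitAddCircle) (1 / x) := by
  unfold theta
  rw [(hasSum_int_evenKernel u hx).tsum_eq, evenKernel_functional_equation]

theorem theta_le {x : ℝ} (hx : 0 < x) (h1 : eta x < 1) (u u' : ℝ) :
    theta x u ≤ (1 + eta x) / (1 - eta x) * theta x u' := by
  have hpos : 0 < 1 / x ^ (1 / 2 : ℝ) := by positivity
  have hu := (abs_le.1 (abs_cosKernel_sub_le u hx)).2
  have hu' := (abs_le.1 (abs_cosKernel_sub_le u' hx)).1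
  have he := eta_nonneg hx
  rw [theta_eq hx, theta_eq hx]
  have h2 : cosKernel (u : UnitAddCircle) (1 / x) ≤
      (1 + eta x) / (1 - eta x) * cosKernel (u' : UnitAddCircle) (1 / x) := by
    calc cosKernel (u : UnitAddCircle) (1 / x) ≤ 1 + eta x := by linarith
      _ = (1 + eta x) / (1 - eta x) * (1 - eta x) := by
          rw [div_mul_cancel₀]; linarith
      _ ≤ _ := by
          apply mul_le_mul_of_nonneg_left (by linarith)
          exact div_nonneg (by linarith) (by linarith)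
  calc 1 / x ^ (1 / 2 : ℝ) * cosKernel (u : UnitAddCircle) (1 / x) ≤
        1 / x ^ (1 / 2 : ℝ) * ((1 + eta x) / (1 - eta x) * cosKernel (u' : UnitAddCircle) (1 / x)) :=
        mul_le_mul_of_nonneg_left h2 hpos.le
    _ = _ := by ring

/-- `η` decays exponentially. -/
theorem eta_decay : ∃ (p C : ℝ), 0 < p ∧ 0 ≤ C ∧ ∀ᶠ y in atTop, eta (1 / y) ≤ C * rexp (-p * y) := by
  obtain ⟨p, hp, h⟩ := isBigO_atTop_cosKernel_sub 0
  obtain ⟨C, hC0, hC⟩ := h.exists_nonneg
  refine ⟨p, C, hp, hC0, ?_⟩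
  filter_upwards [hC.bound, eventually_gt_atTop 0] with y hy hy0
  unfold eta
  rw [one_div_one_div]
  refine (le_abs_self _).trans ?_
  rw [← Real.norm_eq_abs]
  refine hy.trans ?_
  rw [Real.norm_eq_abs, abs_of_pos (Real.exp_pos _)]

/-- For all `q > 0` and all `k` we have `(N+1) ^ k * η (q / (N+1) ^ 2) → 0`. -/
theorem tendsto_eta (q : ℝ) (hq : 0 < q) (k : ℕ) :
    Tendsto (fun N : ℕ => ((N : ℝ) + 1) ^ k * eta (q / ((N : ℝ) + 1) ^ 2)) atTop (𝓝 0) := by
  obtain ⟨p, C, hp, hC, h⟩ := eta_decay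
  have hN : Tendsto (fun N : ℕ => ((N : ℝ) + 1)) atTop atTop :=
    tendsto_natCast_atTop_atTop.atTop_add tendsto_const_nhds
  have hy : Tendsto (fun N : ℕ => ((N : ℝ) + 1) ^ 2 / q) atTop atTop :=
    ((tendsto_pow_atTop two_ne_zero).comp hN).atTop_div_const hq
  have h1 : ∀ᶠ N : ℕ in atTop, ((N : ℝ) + 1) ^ k * eta (q / ((N : ℝ) + 1) ^ 2) ≤
      C * (((N : ℝ) + 1) ^ k * rexp (-(p / q) * ((N : ℝ) + 1))) := by
    filter_upwards [hy.eventually h] with N hN'
    have h2 : q / ((N : ℝ) + 1) ^ 2 = 1 / (((N : ℝ) + 1) ^ 2 / q) := by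
      rw [one_div_div]
    rw [h2]
    calc ((N : ℝ) + 1) ^ k * eta (1 / (((N : ℝ) + 1) ^ 2 / q)) ≤
          ((N : ℝ) + 1) ^ k * (C * rexp (-p * (((N : ℝ) + 1) ^ 2 / q))) :=
          mul_le_mul_of_nonneg_left hN' (by positivity)
      _ ≤ ((N : ℝ) + 1) ^ k * (C * rexp (-(p / q) * ((N : ℝ) + 1))) := by
          apply mul_le_mul_of_nonneg_left _ (by positivity)
          apply mul_le_mul_of_nonneg_left _ hC
          apply Real.exp_le_exp.2
          have h3 : (1 : ℝ) ≤ (N : ℝ) + 1 := by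
            have : (0 : ℝ) ≤ N := Nat.cast_nonneg N
            linarith
          have h4 : 0 < p / q := by positivity
          have h5 : -p * (((N : ℝ) + 1) ^ 2 / q) = -(p / q * ((N : ℝ) + 1) ^ 2) := by
            field_simp
          rw [h5, neg_mul, neg_le_neg_iff]
          apply mul_le_mul_of_nonneg_left _ h4.le
          nlinarith
      _ = _ := by ring
  have h6 : Tendsto (fun N : ℕ => C * (((N : ℝ) + 1) ^ k * rexp (-(p / q) * ((N : ℝ) + 1))))
      atTop (𝓝 (C * 0)) := by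
    apply Tendsto.const_mul
    have h7 := Real.tendsto_pow_mul_exp_neg_atTop_nhds_zero k
    have h8 : Tendsto (fun N : ℕ => (p / q) * ((N : ℝ) + 1)) atTop atTop :=
      hN.const_mul_atTop (by positivity)
    have h9 := (h7.comp h8).const_mul (((p / q) ^ k)⁻¹)
    rw [mul_zero] at h9
    refine h9.congr fun N => ?_
    simp only [Function.comp_apply]
    rw [mul_pow, ← mul_assoc, ← mul_assoc, inv_mul_cancel₀ (by positivity), one_mul, neg_mul]
  rw [mul_zero] at h6
  refine squeeze_zero' (Eventually.of_forall fun N => ?_) h1 h6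
  exact mul_nonneg (by positivity) (eta_nonneg (by positivity))

end Pool.Agent.K4H16.Smyth
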