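import Mathlib
import Pool.Agent.K4H16.Smyth.Theta

/-!
# Gaussian sums over cosets of lattices are almost independent of the coset
-/

set_option autoImplicit false
set_option linter.unusedSectionVars false

namespace Pool.Agent.K4H16.Smyth

open Filter Topology Real

section

variable {L V : Type*} [AddCommGroup L] [AddCommGroup V] [Module ℝ V]

/-- Decomposition of a sum over the cosets of a cyclic group. -/
theorem tsum_cosets (b : L) (hb : ∀ m : ℤ, m • b = 0 → m = 0) (F : L → ENNReal) :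
    ∑' y, F y = ∑' q : L ⧸ AddSubgroup.zmultiples b, ∑' m : ℤ, F (q.out + m • b) := by
  have hbij : Function.Bijective
      (fun x : (L ⧸ AddSubgroup.zmultiples b) × ℤ => x.1.out + x.2 • b) := by
    constructor
    · rintro ⟨q, m⟩ ⟨q', m'⟩ h
      simp only at h
      have hq : q = q' := by
        have h1 := congrArg (QuotientAddGroup.mk (s := AddSubgroup.zmultiples b)) h
        have h2 : ∀ (q : L ⧸ AddSubgroup.zmultiples b) (m : ℤ),
            (QuotientAddGroup.mk (q.out + m • b) : L ⧸ AddSubgroup.zmultiples b) = q := by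
          intro q m
          rw [QuotientAddGroup.mk_add_of_mem _ (AddSubgroup.zsmul_mem_zmultiples b m)]
          exact QuotientAddGroup.out_eq' q
        rw [h2, h2] at h1
        exact h1
      subst hq
      have h3 : (m - m') • b = 0 := by
        rw [sub_smul, sub_eq_zero]
        exact add_left_cancel h
      have h4 := hb _ h3
      have h5 : m = m' := by omega
      rw [h5]
    · intro y
      have h1 : -(QuotientAddGroup.mk y : L ⧸ AddSubgroup.zmultiples b).out + y ∈
          AddSubgroup.zmultiples b := by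
        rw [← QuotientAddGroup.eq]
        exact QuotientAddGroup.out_eq' _
      obtain ⟨m, hm⟩ := AddSubgroup.mem_zmultiples_iff.1 h1
      refine ⟨(QuotientAddGroup.mk y, m), ?_⟩
      simp only
      rw [hm]
      abel
  rw [← (Equiv.ofBijective _ hbij).tsum_eq]
  exact ENNReal.tsum_prod (f := fun (q : L ⧸ AddSubgroup.zmultiples b) (m : ℤ) => F (q.out + m • b))

variable (B : LinearMap.BilinForm ℝ V)

/-- The Gaussian. -/
noncomputable def gau (x : ℝ) (v : V) : ℝ := rexp (-π * x * B v v)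

theorem gau_pos (x : ℝ) (v : V) : 0 < gau B x v := Real.exp_pos _

/-- The Gaussian sum over a coset of a lattice. -/
noncomputable def Th (j : L →+ V) (x : ℝ) (s : V) : ENNReal :=
  ∑' y, ENNReal.ofReal (gau B x (j y + s))

variable {B}

theorem gau_line (hsymm : ∀ u v, B u v = B v u) (x : ℝ) (v w : V) (hw : 0 < B w w) (m : ℝ) :
    gau B x (v + m • w) = rexp (-π * x * (B v v - (B v w) ^ 2 / B w w)) *
      rexp (-π * (m + B v w / B w w) ^ 2 * (x * B w w)) := by
  unfold gau
  rw [← Real.exp_add]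
  congr 1
  simp only [map_add, map_smul, LinearMap.add_apply, LinearMap.smul_apply, smul_eq_mul]
  rw [hsymm w v]
  field_simp
  ring

theorem sum_line (hsymm : ∀ u v, B u v = B v u) {x : ℝ} (hx : 0 < x) (v w : V) (hw : 0 < B w w) :
    ∑' m : ℤ, ENNReal.ofReal (gau B x (v + (m : ℝ) • w)) =
      ENNReal.ofReal (rexp (-π * x * (B v v - (B v w) ^ 2 / B w w))) *
        ENNReal.ofReal (theta (x * B w w) (B v w / B w w)) := by
  have hxw : 0 < x * B w w := mul_pos hx hw
  unfold theta
  rw [ENNReal.ofReal_tsum_of_nonneg (fun _ => (Real.exp_pos _).le) (summable_theta hxw _),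
    ← ENNReal.tsum_mul_left]
  refine tsum_congr fun m => ?_
  rw [gau_line hsymm x v w hw, ENNReal.ofReal_mul (Real.exp_pos _).le]

/-- The comparison constant. -/
noncomputable def dd (x : ℝ) : ℝ := (1 + eta x) / (1 - eta x)

theorem Th_shift (hsymm : ∀ u v, B u v = B v u) (j : L →+ V) {x : ℝ} (hx : 0 < x) (s : V) (b : L)
    (hb : 0 < B (j b) (j b)) (he : eta (x * B (j b) (j b)) < 1) (τ : ℝ) :
    Th B j x (s + τ • j b) ≤ ENNReal.ofReal (dd (x * B (j b) (j b))) * Th B j x s := by
  have hxw : 0 < x * B (j b) (j b) := mul_pos hx hb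
  have hb0 : ∀ m : ℤ, m • b = 0 → m = 0 := by
    intro m hm
    have h1 : (m : ℝ) • j b = 0 := by
      rw [Int.cast_smul_eq_zsmul, ← map_zsmul, hm, map_zero]
    rcases smul_eq_zero.1 h1 with h2 | h2
    · exact_mod_cast h2
    · rw [h2] at hb; simp at hb
  unfold Th
  rw [tsum_cosets b hb0, tsum_cosets b hb0, ← ENNReal.tsum_mul_left]
  refine ENNReal.tsum_le_tsum fun q => ?_
  have h1 : ∀ (t : V) (m : ℤ), j (q.out + m • b) + t = (j q.out + t) + (m : ℝ) • j b := by
    intro t m
    rw [map_add, map_zsmul, Int.cast_smul_eq_zsmul]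
    abel
  simp only [h1]
  rw [sum_line hsymm hx _ _ hb, sum_line hsymm hx _ _ hb]
  set v := j q.out + s with hv
  have h2 : j q.out + (s + τ • j b) = v + τ • j b := by rw [hv]; abel
  rw [h2]
  have h3 : B (v + τ • j b) (j b) / B (j b) (j b) = B v (j b) / B (j b) (j b) + τ := by
    simp only [map_add, map_smul, LinearMap.add_apply, LinearMap.smul_apply, smul_eq_mul]
    field_simp
  have h4 : B (v + τ • j b) (v + τ • j b) - (B (v + τ • j b) (j b)) ^ 2 / B (j b) (j b) =
      B v v - (B v (j b)) ^ 2 / B (j b) (j b) := by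
    simp only [map_add, map_smul, LinearMap.add_apply, LinearMap.smul_apply, smul_eq_mul]
    rw [hsymm (j b) v]
    field_simp
    ring
  rw [h3, h4, mul_left_comm]
  refine mul_le_mul_right ?_ _
  have h5 : 0 ≤ dd (x * B (j b) (j b)) := by
    unfold dd
    exact div_nonneg (by linarith [eta_nonneg hxw]) (by linarith)
  rw [← ENNReal.ofReal_mul h5]
  exact ENNReal.ofReal_le_ofReal (theta_le hxw he _ _)

theorem Th_shift_sum (hsymm : ∀ u v, B u v = B v u) (j : L →+ V) {x : ℝ} (hx : 0 < x)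
    {K : Type*} [DecidableEq K] (F : Finset K) (b : K → L) (hb : ∀ k ∈ F, 0 < B (j (b k)) (j (b k)))
    (he : ∀ k ∈ F, eta (x * B (j (b k)) (j (b k))) < 1) (τ : K → ℝ) (s : V) :
    Th B j x (s + ∑ k ∈ F, τ k • j (b k)) ≤
      ENNReal.ofReal (∏ k ∈ F, dd (x * B (j (b k)) (j (b k)))) * Th B j x s := by
  induction F using Finset.induction_on with
  | empty => simp
  | @insert a F ha ih =>
    rw [Finset.sum_insert ha, Finset.prod_insert ha]
    have h1 := ih (fun k hk => hb k (Finset.mem_insert_of_mem hk))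
      (fun k hk => he k (Finset.mem_insert_of_mem hk))
    have hba := hb a (Finset.mem_insert_self _ _)
    have hea := he a (Finset.mem_insert_self _ _)
    have h3 := Th_shift hsymm j hx (s + ∑ k ∈ F, τ k • j (b k)) (b a) hba hea (τ a)
    have h4 : s + (τ a • j (b a) + ∑ k ∈ F, τ k • j (b k)) =
        s + ∑ k ∈ F, τ k • j (b k) + τ a • j (b a) := by abel
    have h5 : 0 ≤ dd (x * B (j (b a)) (j (b a))) := by
      unfold dd
      exact div_nonneg (by linarith [eta_nonneg (mul_pos hx hba)]) (by linarith)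
    rw [h4, ENNReal.ofReal_mul h5, mul_assoc]
    exact h3.trans (mul_le_mul_right h1 _)

end

/-- Polynomial bounds for Gaussian sums. -/
theorem poly_bound {L : Type*} (ν : L → ℝ) (R : ℕ)
    (hR : Summable fun y => ((max 1 (ν y)) ^ R)⁻¹) (hν : ∀ y, 0 ≤ ν y) (c : ℝ) (hc : 0 < c) (A : ℕ) :
    ∃ (C : ℝ) (k : ℕ), 0 ≤ C ∧ ∀ N : ℕ,
      (Summable fun y => (max 1 (ν y)) ^ A * rexp (-c * (1 / ((N : ℝ) + 1) ^ 2) * ν y ^ 2)) ∧
      ∑' y, (max 1 (ν y)) ^ A * rexp (-c * (1 / ((N : ℝ) + 1) ^ 2) * ν y ^ 2) ≤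
        C * ((N : ℝ) + 1) ^ k := by
  set k := 2 * (A + R) with hk
  set C₁ : ℝ := rexp c * ((A + R).factorial / c ^ (A + R)) with hC₁
  have hC₁0 : 0 ≤ C₁ := by positivity
  refine ⟨C₁ * ∑' y, ((max 1 (ν y)) ^ R)⁻¹, k,
    mul_nonneg hC₁0 (tsum_nonneg fun y => by positivity), fun N => ?_⟩
  have hM : (1 : ℝ) ≤ (N : ℝ) + 1 := by
    have : (0 : ℝ) ≤ N := Nat.cast_nonneg N
    linarith
  set M := (N : ℝ) + 1 with hMdef
  have hM0 : 0 < M := by linarith
  have key : ∀ y, (max 1 (ν y)) ^ A * rexp (-c * (1 / M ^ 2) * ν y ^ 2) ≤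
      C₁ * M ^ k * ((max 1 (ν y)) ^ R)⁻¹ := by
    intro y
    set u := max 1 (ν y) with hu
    have hu1 : 1 ≤ u := le_max_left _ _
    have hu0 : 0 < u := by linarith
    have huν : u ^ 2 ≤ 1 + ν y ^ 2 := by
      rcases max_cases 1 (ν y) with h | h
      · rw [hu, h.1]; nlinarith [sq_nonneg (ν y)]
      · rw [hu, h.1]; linarith
    have h1 : rexp (-c * (1 / M ^ 2) * ν y ^ 2) ≤ rexp c * rexp (-(c * u ^ 2 / M ^ 2)) := by
      rw [← Real.exp_add]
      apply Real.exp_le_exp.2
      have h2 : 1 / M ^ 2 ≤ 1 := by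
        rw [div_le_one (by positivity)]
        nlinarith
      have h3 : 0 < 1 / M ^ 2 := by positivity
      have h4 : c * u ^ 2 / M ^ 2 = c * (1 / M ^ 2) * u ^ 2 := by ring
      rw [h4]
      nlinarith [mul_le_mul_of_nonneg_left huν (mul_pos hc h3).le, mul_le_mul_of_nonneg_left h2 hc.le]
    have h5 : rexp (-(c * u ^ 2 / M ^ 2)) ≤ (A + R).factorial / (c * u ^ 2 / M ^ 2) ^ (A + R) := by
      have h6 := Real.pow_div_factorial_le_exp (c * u ^ 2 / M ^ 2) (by positivity) (A + R)
      rw [Real.exp_neg, ← one_div, div_le_div_iff₀ (Real.exp_pos _) (by positivity), one_mul]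
      rw [div_le_iff₀ (by positivity)] at h6
      linarith
    calc u ^ A * rexp (-c * (1 / M ^ 2) * ν y ^ 2) ≤
          u ^ A * (rexp c * ((A + R).factorial / (c * u ^ 2 / M ^ 2) ^ (A + R))) :=
          mul_le_mul_of_nonneg_left (h1.trans (mul_le_mul_of_nonneg_left h5 (Real.exp_pos _).le))
            (by positivity)
      _ = C₁ * M ^ k * (u ^ A / u ^ (2 * (A + R))) := by
          rw [hC₁, hk, div_pow, mul_pow, ← pow_mul, ← pow_mul]
          field_simp
      _ ≤ C₁ * M ^ k * (u ^ R)⁻¹ := by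
          apply mul_le_mul_of_nonneg_left _ (by positivity)
          rw [← one_div, div_le_div_iff₀ (by positivity) (by positivity), one_mul, ← pow_add]
          exact pow_le_pow_right₀ hu1 (by omega)
  have hs : Summable fun y => (max 1 (ν y)) ^ A * rexp (-c * (1 / M ^ 2) * ν y ^ 2) :=
    Summable.of_nonneg_of_le (fun y => by positivity) key (hR.mul_left _)
  refine ⟨hs, ?_⟩
  refine (hs.tsum_le_tsum key (hR.mul_left _)).trans ?_
  rw [tsum_mul_left]
  apply le_of_eq
  ring

end Pool.Agent.K4H16.Smyth
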