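import Mathlib
import Pool.Agent.K4H16.Smyth.Lat

/-!
# Negligible sequences, summability over lattices
-/

set_option autoImplicit false
set_option linter.unusedSectionVars false

namespace Pool.Agent.K4H16.Smyth

open Filter Topology Real

/-- Faster decay than all powers. -/
def Neg (f : ℕ → ℝ) : Prop := ∀ k : ℕ, Tendsto (fun N : ℕ => ((N : ℝ) + 1) ^ k * f N) atTop (𝓝 0)

theorem Neg.add {f g : ℕ → ℝ} (hf : Neg f) (hg : Neg g) : Neg (fun N => f N + g N) := by
  intro k
  have := (hf k).add (hg k)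
  rw [add_zero] at this
  refine this.congr fun N => ?_
  ring

theorem Neg.tendsto {f : ℕ → ℝ} (hf : Neg f) : Tendsto f atTop (𝓝 0) := by
  have := hf 0
  simpa using this

theorem Neg.mul {f g : ℕ → ℝ} (hf : Neg f) (hg : Neg g) : Neg (fun N => f N * g N) := by
  intro k
  have := (hf k).mul hg.tendsto
  rw [mul_zero] at this
  refine this.congr fun N => ?_
  ring

theorem Neg.const_mul {f : ℕ → ℝ} (hf : Neg f) (c : ℝ) : Neg (fun N => c * f N) := by
  intro k
  have := (hf k).const_mul c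
  rw [mul_zero] at this
  refine this.congr fun N => ?_
  ring

theorem Neg.mono {f g : ℕ → ℝ} (hg : Neg g) (h0 : ∀ᶠ N in atTop, 0 ≤ f N)
    (h : ∀ᶠ N in atTop, f N ≤ g N) : Neg f := by
  intro k
  refine squeeze_zero' ?_ ?_ (hg k)
  · filter_upwards [h0] with N hN
    positivity
  · filter_upwards [h] with N hN
    exact mul_le_mul_of_nonneg_left hN (by positivity)

theorem negl_zero : Neg (fun _ => 0) := by
  intro k
  simp

/-- The product of factors `1 + negligible` is `1 + negligible`. -/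
theorem neg_prod {K : Type*} [DecidableEq K] (F : Finset K) (f : K → ℕ → ℝ)
    (hf : ∀ k ∈ F, Neg (fun N => f k N - 1)) : Neg (fun N => (∏ k ∈ F, f k N) - 1) := by
  induction F using Finset.induction_on with
  | empty => simpa using negl_zero
  | @insert a F ha ih =>
    have h1 := hf a (Finset.mem_insert_self _ _)
    have h2 := ih fun k hk => hf k (Finset.mem_insert_of_mem hk)
    have h3 := (h1.add h2).add (h1.mul h2)
    have h4 : (fun N => (∏ k ∈ insert a F, f k N) - 1) = fun N =>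
        f a N - 1 + (∏ k ∈ F, f k N - 1) + (f a N - 1) * (∏ k ∈ F, f k N - 1) := by
      funext N
      rw [Finset.prod_insert ha]
      ring
    rw [h4]
    exact h3

/-- the scale -/
noncomputable def xx (N : ℕ) : ℝ := 1 / ((N : ℝ) + 1) ^ 2

theorem xx_pos (N : ℕ) : 0 < xx N := by unfold xx; positivity

theorem neg_eta (q : ℝ) (hq : 0 < q) : Neg (fun N => eta (xx N * q)) := by
  intro k
  refine (tendsto_eta q hq k).congr fun N => ?_
  have h : xx N * q = q / ((N : ℝ) + 1) ^ 2 := by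
    unfold xx
    rw [one_div, inv_mul_eq_div]
  change ((N : ℝ) + 1) ^ k * _ = ((N : ℝ) + 1) ^ k * eta (xx N * q)
  rw [h]

theorem eventually_eta_le (q : ℝ) (hq : 0 < q) : ∀ᶠ N in atTop, eta (xx N * q) ≤ 1 / 2 := by
  have h := (neg_eta q hq).tendsto
  exact (h.eventually (gt_mem_nhds (show (0 : ℝ) < 1 / 2 by norm_num))).mono fun N hN => le_of_lt hN

theorem neg_dd (q : ℝ) (hq : 0 < q) : Neg (fun N => dd (xx N * q) - 1) := by
  have h1 : ∀ᶠ N in atTop, 0 ≤ dd (xx N * q) - 1 ∧ dd (xx N * q) - 1 ≤ 4 * eta (xx N * q) := by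
    filter_upwards [eventually_eta_le q hq] with N hN
    have h2 : 0 ≤ eta (xx N * q) := eta_nonneg (mul_pos (xx_pos N) hq)
    have h3 : dd (xx N * q) - 1 = 2 * eta (xx N * q) / (1 - eta (xx N * q)) := by
      unfold dd
      have : 1 - eta (xx N * q) ≠ 0 := by linarith
      field_simp
      ring
    rw [h3]
    constructor
    · exact div_nonneg (by linarith) (by linarith)
    · rw [div_le_iff₀ (by linarith)]
      nlinarith
  exact ((neg_eta q hq).const_mul 4).mono (h1.mono fun _ h => h.1) (h1.mono fun _ h => h.2)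

theorem one_le_dd {y : ℝ} (hy : 0 < y) (h : eta y ≤ 1 / 2) : 1 ≤ dd y := by
  have := eta_nonneg hy
  unfold dd
  rw [one_le_div (by linarith)]
  linarith

theorem summable_sub {E : Type*} [NormedAddCommGroup E] [NormedSpace ℝ E]
    [FiniteDimensional ℝ E] (L : Submodule ℤ E) [DiscreteTopology L] (R : ℕ)
    (hR : Module.finrank ℤ L < R) : Summable fun z : L => ((max 1 ‖(z : E)‖) ^ R)⁻¹ := by
  have h1 : Summable fun z : L => ‖(z : E)‖⁻¹ ^ R := ZLattice.summable_norm_pow_inv L R hR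
  have h0 : Summable (Set.indicator ({(0 : L)} : Set L) (fun _ => (1 : ℝ))) := by
    refine summable_of_ne_finset_zero (s := ({0} : Finset L)) fun z hz => ?_
    rw [Finset.mem_singleton] at hz
    exact Set.indicator_of_notMem (show z ∉ ({(0 : L)} : Set L) from hz) _
  have h3 : Summable fun z : L =>
      ‖(z : E)‖⁻¹ ^ R + Set.indicator ({(0 : L)} : Set L) (fun _ => (1 : ℝ)) z := h1.add h0
  refine Summable.of_nonneg_of_le (fun z => by positivity) (fun z => ?_) h3
  by_cases hz : z = 0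
  · rw [Set.indicator_of_mem (show z ∈ ({(0 : L)} : Set L) from hz)]
    have : (0 : ℝ) ≤ ‖(z : E)‖⁻¹ ^ R := by positivity
    have h4 : ((max 1 ‖(z : E)‖) ^ R)⁻¹ ≤ 1 := by
      apply inv_le_one_of_one_le₀
      exact one_le_pow₀ (le_max_left _ _)
    linarith
  · rw [Set.indicator_of_notMem (show z ∉ ({(0 : L)} : Set L) from hz), add_zero]
    have hz' : (z : E) ≠ 0 := fun h => hz (Subtype.ext h)
    have hzn : 0 < ‖(z : E)‖ := norm_pos_iff.2 hz'
    rw [inv_pow]
    apply inv_anti₀ (by positivity)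
    exact pow_le_pow_left₀ hzn.le (le_max_right _ _) _

/-- Summability over lattices. -/
theorem summable_lattice {E : Type*} [NormedAddCommGroup E] [NormedSpace ℝ E]
    [FiniteDimensional ℝ E] {I : Type*} [Finite I] (bas : Module.Basis I ℝ E) {X : Type*}
    (f : X → E) (hf : Function.Injective f)
    (hspan : ∀ x, f x ∈ Submodule.span ℤ (Set.range bas)) :
    ∃ R : ℕ, Summable fun x => ((max 1 ‖f x‖) ^ R)⁻¹ := by
  refine ⟨Module.finrank ℤ (Submodule.span ℤ (Set.range bas)) + 1, ?_⟩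
  have h2 := summable_sub (Submodule.span ℤ (Set.range bas))
    (Module.finrank ℤ (Submodule.span ℤ (Set.range bas)) + 1) (Nat.lt_succ_self _)
  have hg : Function.Injective
      (fun x => (⟨f x, hspan x⟩ : Submodule.span ℤ (Set.range bas))) :=
    fun x y h => hf (congrArg Subtype.val h)
  have h3 := h2.comp_injective hg
  refine h3.congr fun x => ?_
  rfl

theorem finite_of_summable {X : Type*} (ν : X → ℝ) (R : ℕ)
    (h : Summable fun x => ((max 1 (ν x)) ^ R)⁻¹) (r : ℝ) : {x | ν x ≤ r}.Finite := by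
  have h1 := h.tendsto_cofinite_zero
  set M := max 1 r with hM
  have hM0 : 0 < M := lt_of_lt_of_le one_pos (le_max_left _ _)
  have h2 : ∀ᶠ x in cofinite, ((max 1 (ν x)) ^ R)⁻¹ < (M ^ R)⁻¹ :=
    h1.eventually (gt_mem_nhds (by positivity))
  rw [Filter.eventually_cofinite] at h2
  refine h2.subset fun x hx => ?_
  rw [Set.mem_ofPred_eq] at hx ⊢
  rw [not_lt]
  apply inv_anti₀ (by positivity)
  apply pow_le_pow_left₀ (le_max_of_le_left zero_le_one)
  exact max_le_max le_rfl hx

/-- Compactness: a positive definite form is bounded below. -/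
theorem exists_lower {V : Type*} [NormedAddCommGroup V] [NormedSpace ℝ V] [FiniteDimensional ℝ V]
    (B : LinearMap.BilinForm ℝ V) (hpos : ∀ x, x ≠ 0 → 0 < B x x) :
    ∃ c : ℝ, 0 < c ∧ ∀ x, c * ‖x‖ ^ 2 ≤ B x x := by
  have hcont : Continuous fun x => B x x := by
    let B' : V →L[ℝ] V →L[ℝ] ℝ :=
      LinearMap.toContinuousLinearMap
        ((LinearMap.toContinuousLinearMap : (V →ₗ[ℝ] ℝ) ≃ₗ[ℝ] (V →L[ℝ] ℝ)).toLinearMap ∘ₗ B)
    have : (fun x => B x x) = fun x => B' x x := rfl
    rw [this]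
    fun_prop
  rcases subsingleton_or_nontrivial V with hs | hn
  · refine ⟨1, one_pos, fun x => ?_⟩
    rw [Subsingleton.elim x 0]; simp
  obtain ⟨x₀, hx₀, hmin⟩ := (isCompact_sphere (0 : V) 1).exists_isMinOn
    (NormedSpace.sphere_nonempty.2 zero_le_one) hcont.continuousOn
  have hx₀n : ‖x₀‖ = 1 := by simpa using hx₀
  refine ⟨B x₀ x₀, hpos x₀ (by rintro rfl; simp at hx₀n), fun x => ?_⟩
  by_cases hx : x = 0
  · subst hx; simp
  have hxn : 0 < ‖x‖ := norm_pos_iff.2 hx
  have h1 : (‖x‖⁻¹ • x) ∈ Metric.sphere (0 : V) 1 := by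
    rw [mem_sphere_zero_iff_norm, norm_smul, norm_inv, norm_norm, inv_mul_cancel₀ hxn.ne']
  have h2 := hmin h1
  change B x₀ x₀ ≤ B (‖x‖⁻¹ • x) (‖x‖⁻¹ • x) at h2
  rw [map_smul, map_smul, LinearMap.smul_apply, smul_eq_mul, smul_eq_mul] at h2
  calc B x₀ x₀ * ‖x‖ ^ 2 ≤ (‖x‖⁻¹ * (‖x‖⁻¹ * B x x)) * ‖x‖ ^ 2 :=
        mul_le_mul_of_nonneg_right h2 (by positivity)
    _ = B x x := by field_simp

end Pool.Agent.K4H16.Smyth
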