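import Mathlib
import Pool.Agent.K4H16.Smyth.Neg

/-!
# The lattice of solutions: families of vectors and small solutions
-/

set_option autoImplicit false
set_option linter.unusedSectionVars false

namespace Pool.Agent.K4H16.Smyth

open Finset

section

variable {O E ι I : Type*} [CommRing O] [NormedCommRing E] [NormedAlgebra ℝ E]
  [Fintype ι] [DecidableEq ι] [Fintype I]

/-- The solutions of `∑ a j * x j = 0`. -/
def HH (a : ι → O) : AddSubgroup (ι → O) where
  carrier := {x | ∑ j, a j * x j = 0}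
  zero_mem' := by simp
  add_mem' := by
    intro x y hx hy
    change ∑ j, a j * (x j + y j) = 0
    simp only [mul_add, Finset.sum_add_distrib]
    rw [show ∑ j, a j * x j = 0 from hx, show ∑ j, a j * y j = 0 from hy, add_zero]
  neg_mem' := by
    intro x hx
    change ∑ j, a j * (-x j) = 0
    simp only [mul_neg, Finset.sum_neg_distrib]
    rw [show ∑ j, a j * x j = 0 from hx, neg_zero]

theorem mem_HH {a : ι → O} {x : ι → O} : x ∈ HH a ↔ ∑ j, a j * x j = 0 := Iff.rfl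

/-- The solutions with `x i = 0`. -/
def HHi (a : ι → O) (i : ι) : AddSubgroup (ι → O) where
  carrier := {x | x i = 0 ∧ x ∈ HH a}
  zero_mem' := ⟨rfl, (HH a).zero_mem⟩
  add_mem' := by
    rintro x y ⟨hx, hx'⟩ ⟨hy, hy'⟩
    refine ⟨?_, (HH a).add_mem hx' hy'⟩
    rw [Pi.add_apply, hx, hy, add_zero]
  neg_mem' := by
    rintro x ⟨hx, hx'⟩
    refine ⟨?_, (HH a).neg_mem hx'⟩
    rw [Pi.neg_apply, hx, neg_zero]

theorem mem_HHi {a : ι → O} {i : ι} {x : ι → O} :
    x ∈ HHi a i ↔ x i = 0 ∧ ∑ j, a j * x j = 0 := Iff.rfl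

/-- The embedding of the solutions. -/
def jj (emb : O →+* E) (S : AddSubgroup (ι → O)) : S →+ (ι → E) where
  toFun := fun x k => emb (x.1 k)
  map_zero' := by funext k; exact map_zero emb
  map_add' := fun x y => by funext k; exact map_add emb _ _

theorem jj_apply (emb : O →+* E) (S : AddSubgroup (ι → O)) (x : S) (k : ι) :
    jj emb S x k = emb (x.1 k) := rfl

/-- the elementary solutions -/
theorem single_mem (a : ι → O) {i j₀ k : ι} (hj : j₀ ≠ i) (hk : k ≠ i) (c : O) :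
    Pi.single k (c * a j₀) - Pi.single j₀ (c * a k) ∈ HHi a i := by
  rw [mem_HHi]
  constructor
  · rw [Pi.sub_apply, Pi.single_eq_of_ne hk.symm, Pi.single_eq_of_ne hj.symm, sub_zero]
  · simp only [Pi.sub_apply, mul_sub, Finset.sum_sub_distrib]
    rw [Finset.sum_eq_single k, Finset.sum_eq_single j₀]
    · rw [Pi.single_eq_same, Pi.single_eq_same]; ring
    · intro m _ hm; rw [Pi.single_eq_of_ne hm, mul_zero]
    · intro h; exact absurd (mem_univ _) h
    · intro m _ hm; rw [Pi.single_eq_of_ne hm, mul_zero]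
    · intro h; exact absurd (mem_univ _) h

theorem sum_split (i j₀ : ι) (hj : j₀ ≠ i) {M : Type*} [AddCommMonoid M] (f : ι → M) :
    ∑ k, f k = f i + (f j₀ + ∑ k ∈ (univ.erase i).erase j₀, f k) := by
  rw [← Finset.add_sum_erase univ f (mem_univ i),
    ← Finset.add_sum_erase (univ.erase i) f (Finset.mem_erase.2 ⟨hj, mem_univ _⟩)]

theorem exists_family (emb : O →+* E) (ω : I → O) (bas : Module.Basis I ℝ E)
    (hbas : ∀ l, bas l = emb (ω l)) (a : ι → O) (i j₀ : ι) (hj : j₀ ≠ i) (u : E)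
    (hu : emb (a j₀) * u = 1) :
    ∃ (b : ι × I → HHi a i) (F : Finset (ι × I)), (∀ k ∈ F, jj emb _ (b k) ≠ 0) ∧
      ∀ s : ι → E, s i = 0 → ∑ j, emb (a j) * s j = 0 →
        ∃ τ : ι × I → ℝ, s = ∑ k ∈ F, τ k • jj emb _ (b k) := by
  classical
  set F₀ := (univ.erase i).erase j₀ with hF₀
  have hF₀mem : ∀ k ∈ F₀, k ≠ i ∧ k ≠ j₀ := by
    intro k hk
    rw [hF₀, Finset.mem_erase, Finset.mem_erase] at hk
    exact ⟨hk.2.1, hk.1⟩
  let b : ι × I → HHi a i := fun k =>
    if h : k.1 ≠ i then ⟨Pi.single k.1 (ω k.2 * a j₀) - Pi.single j₀ (ω k.2 * a k.1),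
      single_mem a hj h (ω k.2)⟩ else 0
  have hb : ∀ k ∈ F₀, ∀ l, ∀ m, jj emb _ (b (k, l)) m =
      bas l * ((if m = k then emb (a j₀) else 0) - (if m = j₀ then emb (a k) else 0)) := by
    intro k hk l m
    rw [jj_apply]
    have h1 : b (k, l) = ⟨Pi.single k (ω l * a j₀) - Pi.single j₀ (ω l * a k),
      single_mem a hj (hF₀mem k hk).1 (ω l)⟩ := dif_pos (hF₀mem k hk).1
    rw [h1]
    change emb ((Pi.single k (ω l * a j₀) - Pi.single j₀ (ω l * a k) : ι → O) m) = _
    rw [Pi.sub_apply, map_sub, Pi.single_apply, Pi.single_apply, hbas]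
    split_ifs <;> simp [mul_sub]
  refine ⟨b, F₀ ×ˢ univ, ?_, ?_⟩
  · rintro ⟨k, l⟩ hkl h0
    rw [Finset.mem_product] at hkl
    have h1 := congrFun h0 k
    rw [hb k hkl.1 l k, if_pos rfl, if_neg (hF₀mem k hkl.1).2, sub_zero, Pi.zero_apply] at h1
    have h2 : bas l = 0 := by
      calc bas l = (bas l * emb (a j₀)) * u := by rw [mul_assoc, hu, mul_one]
        _ = 0 := by rw [h1, zero_mul]
    exact bas.ne_zero l h2
  · intro s hsi hs
    refine ⟨fun k => bas.repr (s k.1 * u) k.2, ?_⟩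
    have hl : ∀ k, ∑ l, (bas.repr (s k * u) l) • bas l = s k * u := fun k => bas.sum_repr _
    rw [Finset.sum_product]
    funext m
    rw [Finset.sum_apply]
    have h1 : ∀ k ∈ F₀, (∑ l, (bas.repr (s k * u) l) • jj emb (HHi a i) (b (k, l))) m =
        s k * u * ((if m = k then emb (a j₀) else 0) - (if m = j₀ then emb (a k) else 0)) := by
      intro k hk
      rw [Finset.sum_apply]
      simp only [Pi.smul_apply, hb k hk]
      conv_rhs => rw [← hl k, Finset.sum_mul]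
      refine Finset.sum_congr rfl fun l _ => ?_
      rw [smul_mul_assoc]
    rw [Finset.sum_congr rfl h1]
    simp only [mul_sub, Finset.sum_sub_distrib]
    by_cases hmi : m = i
    · subst hmi
      rw [hsi]
      simp only [if_neg hj.symm, mul_zero, Finset.sum_const_zero, sub_zero]
      symm
      refine Finset.sum_eq_zero fun k hk => ?_
      rw [if_neg (hF₀mem k hk).1.symm, mul_zero]
    by_cases hmj : m = j₀
    · subst hmj
      simp only [if_true]
      rw [Finset.sum_eq_zero, zero_sub]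
      · rw [sum_split i m hj, hsi, mul_zero, zero_add] at hs
        have h2 : s m = (emb (a m) * s m) * u := by
          calc s m = s m * (emb (a m) * u) := by rw [hu, mul_one]
            _ = _ := by ring
        rw [h2, eq_neg_of_add_eq_zero_left hs, neg_mul, Finset.sum_mul]
        congr 1
        refine Finset.sum_congr rfl fun k _ => ?_
        ring
      · intro k hk; rw [if_neg (hF₀mem k hk).2.symm, mul_zero]
    · simp only [if_neg hmj, mul_zero, Finset.sum_const_zero, sub_zero]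
      rw [Finset.sum_eq_single m, if_pos rfl]
      · rw [mul_assoc, mul_comm u, hu, mul_one]
      · intro k _ hk; rw [if_neg (Ne.symm hk), mul_zero]
      · intro h
        exact absurd (Finset.mem_erase.2 ⟨hmj, Finset.mem_erase.2 ⟨hmi, mem_univ _⟩⟩) h

/-- Rounding. -/
theorem exists_round (emb : O →+* E) (ω : I → O) (bas : Module.Basis I ℝ E)
    (hbas : ∀ l, bas l = emb (ω l)) : ∃ C : ℝ, 0 ≤ C ∧ ∀ e : E, ∃ o : O, ‖e - emb o‖ ≤ C := by
  refine ⟨∑ l, ‖bas l‖, Finset.sum_nonneg fun _ _ => norm_nonneg _, fun e => ?_⟩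
  refine ⟨∑ l, (⌊bas.repr e l⌋ : ℤ) • ω l, ?_⟩
  have h1 : emb (∑ l, (⌊bas.repr e l⌋ : ℤ) • ω l) = ∑ l, ((⌊bas.repr e l⌋ : ℤ) : ℝ) • bas l := by
    rw [map_sum]
    refine Finset.sum_congr rfl fun l _ => ?_
    rw [map_zsmul, hbas, Int.cast_smul_eq_zsmul]
  have h2 : e - emb (∑ l, (⌊bas.repr e l⌋ : ℤ) • ω l) = ∑ l, (Int.fract (bas.repr e l)) • bas l := by
    rw [h1]
    nth_rewrite 1 [← bas.sum_repr e]
    rw [← Finset.sum_sub_distrib]
    refine Finset.sum_congr rfl fun l _ => ?_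
    rw [← sub_smul]
    rfl
  rw [h2]
  refine (norm_sum_le _ _).trans (Finset.sum_le_sum fun l _ => ?_)
  rw [norm_smul, Real.norm_eq_abs, abs_of_nonneg (Int.fract_nonneg _)]
  exact mul_le_of_le_one_left (norm_nonneg _) (Int.fract_lt_one _).le

/-- Small solutions. -/
theorem exists_small (emb : O →+* E) (ω : I → O) (bas : Module.Basis I ℝ E)
    (hbas : ∀ l, bas l = emb (ω l)) (a : ι → O)
    (hsurj : ∀ i (t : O), ∃ x : ι → O, x i = t ∧ ∑ j, a j * x j = 0)
    (hinv : ∀ i, ∃ j₀, j₀ ≠ i ∧ ∃ u : E, emb (a j₀) * u = 1) (ρ : ℝ)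
    (hz : ∀ i (t : E), ∃ z : ι → E, z i = t ∧ ∑ j, emb (a j) * z j = 0 ∧
      ∀ j, j ≠ i → ‖z j‖ ≤ ρ * ‖t‖) :
    ∃ C : ℝ, 0 ≤ C ∧ ∀ i (t : O), ∃ x ∈ HH a, x i = t ∧
      ∀ j, j ≠ i → ‖emb (x j)‖ ≤ ρ * ‖emb t‖ + C := by
  classical
  obtain ⟨C₀, hC₀, hround⟩ := exists_round emb ω bas hbas
  choose j₀ hj₀ u hu using hinv
  set S : ℝ := ∑ k, ‖emb (a k)‖ with hS
  have hS0 : 0 ≤ S := Finset.sum_nonneg fun _ _ => norm_nonneg _
  have hSk : ∀ k, ‖emb (a k)‖ ≤ S := fun k =>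
    Finset.single_le_sum (f := fun k => ‖emb (a k)‖) (fun _ _ => norm_nonneg _) (mem_univ k)
  set U : ℝ := ∑ i, ‖u i‖ with hU
  have hU0 : 0 ≤ U := Finset.sum_nonneg fun _ _ => norm_nonneg _
  have hUk : ∀ k, ‖u k‖ ≤ U := fun k =>
    Finset.single_le_sum (f := fun k => ‖u k‖) (fun _ _ => norm_nonneg _) (mem_univ k)
  refine ⟨C₀ * S + U * (S * (C₀ * S)), by positivity, fun i t => ?_⟩
  obtain ⟨x₀, hx₀i, hx₀⟩ := hsurj i t
  obtain ⟨z, hzi, hz0, hzn⟩ := hz i (emb t)
  choose l hl using fun k => hround ((z k - emb (x₀ k)) * u i)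
  set F₀ := (univ.erase i).erase (j₀ i) with hF₀
  have hF₀mem : ∀ k ∈ F₀, k ≠ i ∧ k ≠ j₀ i := by
    intro k hk
    rw [hF₀, Finset.mem_erase, Finset.mem_erase] at hk
    exact ⟨hk.2.1, hk.1⟩
  set y : ι → O := ∑ k ∈ F₀, (Pi.single k (l k * a (j₀ i)) - Pi.single (j₀ i) (l k * a k)) with hy
  have hyH : y ∈ HHi a i := by
    refine AddSubgroup.sum_mem _ fun k hk => single_mem a (hj₀ i) (hF₀mem k hk).1 (l k)
  have hyval : ∀ m ∈ F₀, y m = l m * a (j₀ i) := by
    intro m hm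
    rw [hy, Finset.sum_apply, Finset.sum_eq_single m]
    · rw [Pi.sub_apply, Pi.single_eq_same, Pi.single_eq_of_ne (hF₀mem m hm).2, sub_zero]
    · intro k _ hk
      rw [Pi.sub_apply, Pi.single_eq_of_ne (Ne.symm hk), Pi.single_eq_of_ne (hF₀mem m hm).2,
        sub_zero]
    · intro h; exact absurd hm h
  have hxH : x₀ + y ∈ HH a := (HH a).add_mem hx₀ hyH.2
  refine ⟨x₀ + y, hxH, ?_, ?_⟩
  · rw [Pi.add_apply, hx₀i, hyH.1, add_zero]
  -- the differences
  set δ : ι → E := fun m => emb ((x₀ + y) m) - z m with hδ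
  have hδi : δ i = 0 := by
    rw [hδ]; simp only
    rw [Pi.add_apply, hx₀i, hyH.1, add_zero, hzi, sub_self]
  have hδF : ∀ m ∈ F₀, ‖δ m‖ ≤ C₀ * S := by
    intro m hm
    have h1 : δ m = -(((z m - emb (x₀ m)) * u i - emb (l m)) * emb (a (j₀ i))) := by
      rw [hδ]; simp only
      rw [Pi.add_apply, hyval m hm, map_add, map_mul]
      have h2 := hu i
      linear_combination (z m - emb (x₀ m)) * h2
    rw [h1, norm_neg]
    exact (norm_mul_le _ _).trans (mul_le_mul (hl m) (hSk _) (norm_nonneg _) hC₀)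
  have hδsum : ∑ j, emb (a j) * δ j = 0 := by
    have h1 : ∑ j, emb (a j) * emb ((x₀ + y) j) = 0 := by
      have h2 := congrArg emb (mem_HH.1 hxH)
      rw [map_sum, map_zero] at h2
      rw [← h2]
      exact Finset.sum_congr rfl fun j _ => (map_mul emb _ _).symm
    rw [hδ]
    simp only [mul_sub, Finset.sum_sub_distrib]
    rw [h1, hz0, sub_zero]
  have hδj : ‖δ (j₀ i)‖ ≤ U * (S * (C₀ * S)) := by
    rw [sum_split i (j₀ i) (hj₀ i), hδi, mul_zero, zero_add] at hδsum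
    have h2 : δ (j₀ i) = -(u i * ∑ k ∈ (univ.erase i).erase (j₀ i), emb (a k) * δ k) := by
      have h3 := hu i
      linear_combination u i * hδsum - δ (j₀ i) * h3
    rw [h2, norm_neg]
    refine (norm_mul_le _ _).trans (mul_le_mul (hUk i) ?_ (norm_nonneg _) hU0)
    refine (norm_sum_le _ _).trans ?_
    calc ∑ k ∈ F₀, ‖emb (a k) * δ k‖ ≤ ∑ k ∈ F₀, ‖emb (a k)‖ * (C₀ * S) :=
          Finset.sum_le_sum fun k hk => (norm_mul_le _ _).trans
            (mul_le_mul_of_nonneg_left (hδF k hk) (norm_nonneg _))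
      _ = (∑ k ∈ F₀, ‖emb (a k)‖) * (C₀ * S) := by rw [Finset.sum_mul]
      _ ≤ S * (C₀ * S) := by
          apply mul_le_mul_of_nonneg_right _ (by positivity)
          exact Finset.sum_le_sum_of_subset_of_nonneg (Finset.subset_univ _)
            fun _ _ _ => norm_nonneg _
  intro m hm
  have h4 : emb ((x₀ + y) m) = z m + δ m := by rw [hδ]; simp only; ring
  rw [h4]
  refine (norm_add_le _ _).trans (add_le_add (hzn m hm) ?_)
  have h5 : 0 ≤ C₀ * S := by positivity
  have h6 : 0 ≤ U * (S * (C₀ * S)) := by positivity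
  by_cases hmj : m = j₀ i
  · rw [hmj]; linarith
  · have := hδF m (Finset.mem_erase.2 ⟨hmj, Finset.mem_erase.2 ⟨hm, mem_univ _⟩⟩)
    linarith

end

end Pool.Agent.K4H16.Smyth
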