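import Mathlib

/-!
# Growth of dual solutions and the averaging argument
-/

set_option autoImplicit false
set_option linter.unusedSectionVars false

namespace Pool.Agent.K4H16.Smyth

open Finset Filter Topology

section

variable {ι O H : Type*} [Fintype ι] [DecidableEq ι]

theorem growth (c : ι → H → O) (ht : O → ℝ) (T ρ : ℝ) (hρ0 : 0 < ρ) (hρ : ρ < 1)
    (hT : 1 ≤ ρ * T) (hfin : ∀ r, {t | ht t ≤ r}.Finite)
    (hsh : ∀ i t, T < ht t → ∃ h, c i h = t ∧ ∀ j, j ≠ i → ht (c j h) ≤ ρ * ht t)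
    (g : ι → O → ℝ) (hg0 : ∀ t, ∑ i, g i t = 0) (hg : ∀ h, 0 ≤ ∑ i, g i (c i h)) :
    ∃ (A : ℕ) (B : ℝ), 0 ≤ B ∧ ∀ i t, |g i t| ≤ B * (max 1 (ht t)) ^ A := by
  classical
  set n : ℝ := (Fintype.card ι : ℝ) with hn
  obtain ⟨A, hA⟩ : ∃ A : ℕ, n ^ 2 * ρ ^ A ≤ 1 := by
    obtain ⟨A, hA⟩ := exists_pow_lt_of_lt_one (show (0 : ℝ) < 1 / (n ^ 2 + 1) by positivity) hρ
    refine ⟨A, ?_⟩
    have h1 : n ^ 2 * ρ ^ A ≤ n ^ 2 * (1 / (n ^ 2 + 1)) :=
      mul_le_mul_of_nonneg_left hA.le (by positivity)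
    refine h1.trans ?_
    rw [mul_one_div, div_le_one (by positivity)]
    linarith
  set F := (hfin T).toFinset with hF
  set B : ℝ := ∑ i, ∑ t ∈ F, |g i t| with hB
  have hB0 : 0 ≤ B := Finset.sum_nonneg fun i _ => Finset.sum_nonneg fun t _ => abs_nonneg _
  refine ⟨A, B, hB0, ?_⟩
  have hTpos : 0 < T := by
    by_contra h
    push Not at h
    have : ρ * T ≤ 0 := mul_nonpos_of_nonneg_of_nonpos hρ0.le h
    linarith
  suffices key : ∀ (k : ℕ) (t : O), (hfin (ht t)).toFinset.card = k → ∀ i,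
      |g i t| ≤ B * (max 1 (ht t)) ^ A from fun i t => key _ t rfl i
  intro k
  induction k using Nat.strong_induction_on with
  | _ k ih =>
  intro t hk i
  by_cases hle : ht t ≤ T
  · have h1 : |g i t| ≤ B := by
      have h2 : |g i t| ≤ ∑ t ∈ F, |g i t| :=
        Finset.single_le_sum (f := fun t => |g i t|) (fun _ _ => abs_nonneg _)
          ((hfin T).mem_toFinset.2 hle)
      refine h2.trans ?_
      exact Finset.single_le_sum (f := fun i => ∑ t ∈ F, |g i t|)
        (fun _ _ => Finset.sum_nonneg fun _ _ => abs_nonneg _) (Finset.mem_univ i)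
    refine h1.trans (le_mul_of_one_le_right hB0 ?_)
    exact one_le_pow₀ (le_max_left _ _)
  push Not at hle
  have ht1 : 1 ≤ ρ * ht t := hT.trans (mul_le_mul_of_nonneg_left hle.le hρ0.le)
  have htpos : 0 < ht t := hTpos.trans hle
  have hlt : ρ * ht t < ht t := by nlinarith
  set b : ℝ := B * (ρ * ht t) ^ A with hb
  have hb0 : 0 ≤ b := by positivity
  have hsmall : ∀ s, ht s ≤ ρ * ht t → ∀ j, |g j s| ≤ b := by
    intro s hs j
    have hcard : (hfin (ht s)).toFinset.card < k := by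
      rw [← hk]
      apply Finset.card_lt_card
      rw [Finset.ssubset_iff_of_subset]
      · refine ⟨t, (hfin (ht t)).mem_toFinset.2 (le_refl (ht t)), fun h => ?_⟩
        have h1 : ht t ≤ ht s := (hfin (ht s)).mem_toFinset.1 h
        linarith
      · intro x hx
        have h1 : ht x ≤ ht s := (hfin (ht s)).mem_toFinset.1 hx
        exact (hfin (ht t)).mem_toFinset.2 (show ht x ≤ ht t by linarith)
    have h2 := ih _ hcard s rfl j
    refine h2.trans ?_
    rw [hb]
    apply mul_le_mul_of_nonneg_left _ hB0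
    apply pow_le_pow_left₀ (le_max_of_le_left zero_le_one)
    exact max_le ht1 hs
  have hlow : ∀ k, -(n * b) ≤ g k t := by
    intro k
    obtain ⟨h, hh1, hh2⟩ := hsh k t hle
    have h3 := hg h
    rw [← Finset.add_sum_erase _ _ (Finset.mem_univ k), hh1] at h3
    have h4 : ∑ j ∈ Finset.univ.erase k, g j (c j h) ≤ n * b := by
      calc ∑ j ∈ Finset.univ.erase k, g j (c j h) ≤ ∑ j ∈ Finset.univ.erase k, b :=
            Finset.sum_le_sum fun j hj => (le_abs_self _).trans
              (hsmall _ (hh2 j (Finset.ne_of_mem_erase hj)) j)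
        _ ≤ ∑ j : ι, b := Finset.sum_le_sum_of_subset_of_nonneg (Finset.subset_univ _)
            fun _ _ _ => hb0
        _ = n * b := by rw [Finset.sum_const, nsmul_eq_mul, Finset.card_univ]
    linarith
  have hn1 : 1 ≤ n := by
    have : 0 < Fintype.card ι := Fintype.card_pos_iff.2 ⟨i⟩
    rw [hn]; exact_mod_cast this
  have hup : g i t ≤ n * (n * b) := by
    have h3 := hg0 t
    rw [← Finset.add_sum_erase _ _ (Finset.mem_univ i)] at h3
    have h4 : -(n * (n * b)) ≤ ∑ j ∈ Finset.univ.erase i, g j t := by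
      calc -(n * (n * b)) = ∑ j : ι, -(n * b) := by
            rw [Finset.sum_const, nsmul_eq_mul, Finset.card_univ]; ring
        _ ≤ ∑ j ∈ Finset.univ.erase i, -(n * b) :=
            Finset.sum_le_sum_of_subset_of_nonpos' (Finset.subset_univ _) (fun _ _ _ => by
              have : 0 ≤ n * b := by positivity
              linarith)
        _ ≤ ∑ j ∈ Finset.univ.erase i, g j t := Finset.sum_le_sum fun j _ => hlow j
    linarith
  have h5 : n * b ≤ n * (n * b) := le_mul_of_one_le_left (by positivity) hn1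
  have h6 : |g i t| ≤ n * (n * b) := by
    rw [abs_le]
    exact ⟨by linarith [hlow i], hup⟩
  refine h6.trans ?_
  have h7 : n * (n * b) = (n ^ 2 * ρ ^ A) * (B * ht t ^ A) := by
    rw [hb, mul_pow]; ring
  rw [h7]
  have h8 : (n ^ 2 * ρ ^ A) * (B * ht t ^ A) ≤ B * ht t ^ A :=
    mul_le_of_le_one_left (by positivity) hA
  refine h8.trans (mul_le_mul_of_nonneg_left ?_ hB0)
  exact pow_le_pow_left₀ htpos.le (le_max_right _ _) _

theorem average (c : ι → H → O) (ht : O → ℝ) (w : ℕ → H → ℝ) (φ : ℕ → O → ℝ) (κ ε : ℕ → ℝ)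
    (hw0 : ∀ N h, 0 ≤ w N h) (hφ0 : ∀ N t, 0 ≤ φ N t) (hκ0 : ∀ N, 0 ≤ κ N) (hε0 : ∀ N, 0 ≤ ε N)
    (hw1 : ∀ h, Tendsto (fun N => w N h) atTop (𝓝 1))
    (hfs : ∀ N i t, Summable fun h : {h // c i h = t} => w N h)
    (hfb : ∀ N i t, |(∑' h : {h // c i h = t}, w N h) - κ N * φ N t| ≤ ε N * κ N * φ N t)
    (hsφ : ∀ (A : ℕ) N, Summable fun t => (max 1 (ht t)) ^ A * φ N t)
    (hlim : ∀ A : ℕ, Tendsto (fun N => ε N * κ N * ∑' t, (max 1 (ht t)) ^ A * φ N t) atTop (𝓝 0))
    (g : ι → O → ℝ) (hg0 : ∀ t, ∑ i, g i t = 0) (hg : ∀ h, 0 ≤ ∑ i, g i (c i h))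
    (A : ℕ) (B : ℝ) (hB : 0 ≤ B) (hgr : ∀ i t, |g i t| ≤ B * (max 1 (ht t)) ^ A) (h₀ : H) :
    ∑ i, g i (c i h₀) = 0 := by
  classical
  set M : ℕ → ι → O → ℝ := fun N i t => ∑' h : {h // c i h = t}, w N h with hM
  have hM0 : ∀ N i t, 0 ≤ M N i t := fun N i t => tsum_nonneg fun h => hw0 N h
  have hMle : ∀ N i t, M N i t ≤ (1 + ε N) * κ N * φ N t := by
    intro N i t
    have := (abs_le.1 (hfb N i t)).2
    change M N i t - κ N * φ N t ≤ _ at this
    linarith
  have hmax0 : ∀ t, 0 ≤ max 1 (ht t) := fun t => le_max_of_le_left zero_le_one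
  -- sums of `g i`
  have hS : ∀ N i, Summable (fun t => g i t * M N i t) ∧
      HasSum (fun h => w N h * g i (c i h)) (∑' t, g i t * M N i t) := by
    intro N i
    have hs1 : Summable fun t => |g i t| * M N i t := by
      refine Summable.of_nonneg_of_le (fun t => mul_nonneg (abs_nonneg _) (hM0 N i t)) (fun t => ?_)
        ((hsφ A N).mul_left (B * ((1 + ε N) * κ N)))
      calc |g i t| * M N i t ≤ (B * (max 1 (ht t)) ^ A) * ((1 + ε N) * κ N * φ N t) :=
            mul_le_mul (hgr i t) (hMle N i t) (hM0 N i t)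
              (mul_nonneg hB (pow_nonneg (hmax0 t) _))
        _ = B * ((1 + ε N) * κ N) * (max 1 (ht t) ^ A * φ N t) := by ring
    have hs2 : Summable fun t => g i t * M N i t := by
      refine Summable.of_norm ?_
      refine hs1.congr fun t => ?_
      rw [Real.norm_eq_abs, abs_mul, abs_of_nonneg (hM0 N i t)]
    refine ⟨hs2, ?_⟩
    let e : (Σ t, {h // c i h = t}) ≃ H := Equiv.sigmaFiberEquiv (c i)
    have hc : ∀ x : Σ t, {h // c i h = t}, c i (e x) = x.1 := fun x => x.2.2
    have he : ∀ x : Σ t, {h // c i h = t}, e x = x.2.1 := fun x => rfl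
    have hsm : Summable fun x : (Σ t, {h // c i h = t}) => w N (e x) * g i (c i (e x)) := by
      refine Summable.of_norm ?_
      have h1 : (fun x : (Σ t, {h // c i h = t}) => ‖w N (e x) * g i (c i (e x))‖) =
          fun x => w N x.2.1 * |g i x.1| := by
        funext x
        rw [Real.norm_eq_abs, abs_mul, abs_of_nonneg (hw0 _ _), hc, he]
      rw [h1]
      refine (summable_sigma_of_nonneg fun x => mul_nonneg (hw0 _ _) (abs_nonneg _)).2
        ⟨fun t => (hfs N i t).mul_right |g i t|, ?_⟩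
      refine hs1.congr fun t => ?_
      change |g i t| * M N i t = ∑' (y : { h // c i h = t }), w N y * |g i t|
      rw [tsum_mul_right, mul_comm]
    have h2 := hsm.hasSum
    have h3 : ∑' x : (Σ t, {h // c i h = t}), w N (e x) * g i (c i (e x)) =
        ∑' t, g i t * M N i t := by
      rw [hsm.tsum_sigma]
      refine tsum_congr fun t => ?_
      have h4 : ∀ x : {h // c i h = t}, w N (e ⟨t, x⟩) * g i (c i (e ⟨t, x⟩)) =
          w N x.1 * g i t := fun x => by rw [hc, he]
      rw [tsum_congr h4, tsum_mul_right, mul_comm]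
    rw [h3] at h2
    exact (Equiv.hasSum_iff e).1 h2
  have hbound : ∀ N, w N h₀ * ∑ i, g i (c i h₀) ≤
      (Fintype.card ι : ℝ) * B * (ε N * κ N * ∑' t, (max 1 (ht t)) ^ A * φ N t) := by
    intro N
    have h1 : HasSum (fun h => w N h * ∑ i, g i (c i h)) (∑ i, ∑' t, g i t * M N i t) := by
      have h2 := hasSum_sum (s := Finset.univ) fun i _ => (hS N i).2
      refine h2.congr_fun fun h => ?_
      rw [Finset.mul_sum]
    have h3 : w N h₀ * ∑ i, g i (c i h₀) ≤ ∑ i, ∑' t, g i t * M N i t :=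
      le_hasSum h1 h₀ fun h _ => mul_nonneg (hw0 N h) (hg h)
    refine h3.trans ?_
    have hk : ∀ i, Summable fun t => g i t * (κ N * φ N t) := by
      intro i
      refine Summable.of_norm ?_
      refine Summable.of_nonneg_of_le (fun t => norm_nonneg _) (fun t => ?_)
        ((hsφ A N).mul_left (B * κ N))
      rw [Real.norm_eq_abs, abs_mul, abs_of_nonneg (mul_nonneg (hκ0 N) (hφ0 N t))]
      calc |g i t| * (κ N * φ N t) ≤ (B * (max 1 (ht t)) ^ A) * (κ N * φ N t) :=
            mul_le_mul_of_nonneg_right (hgr i t) (mul_nonneg (hκ0 N) (hφ0 N t))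
        _ = _ := by ring
    have h4 : ∑ i, ∑' t, g i t * (κ N * φ N t) = 0 := by
      rw [← Summable.tsum_finsetSum fun i _ => hk i]
      have : ∀ t, ∑ i, g i t * (κ N * φ N t) = 0 := fun t => by
        rw [← Finset.sum_mul, hg0, zero_mul]
      simp only [this, tsum_zero]
    have h5 : ∑ i, ∑' t, g i t * M N i t = ∑ i, ∑' t, g i t * (M N i t - κ N * φ N t) := by
      rw [← sub_zero (∑ i, ∑' t, g i t * M N i t), ← h4, ← Finset.sum_sub_distrib]
      refine Finset.sum_congr rfl fun i _ => ?_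
      rw [← Summable.tsum_sub (hS N i).1 (hk i)]
      refine tsum_congr fun t => ?_
      ring
    rw [h5]
    have h6 : ∀ i, ∑' t, g i t * (M N i t - κ N * φ N t) ≤
        B * (ε N * κ N * ∑' t, (max 1 (ht t)) ^ A * φ N t) := by
      intro i
      rw [← tsum_mul_left, ← tsum_mul_left]
      have hs : Summable fun t => g i t * (M N i t - κ N * φ N t) := by
        refine ((hS N i).1.sub (hk i)).congr fun t => ?_
        ring
      refine Summable.tsum_le_tsum (fun t => ?_) hs
        (((hsφ A N).mul_left (ε N * κ N)).mul_left B)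
      calc g i t * (M N i t - κ N * φ N t) ≤ |g i t * (M N i t - κ N * φ N t)| := le_abs_self _
        _ = |g i t| * |M N i t - κ N * φ N t| := abs_mul _ _
        _ ≤ (B * (max 1 (ht t)) ^ A) * (ε N * κ N * φ N t) :=
            mul_le_mul (hgr i t) (hfb N i t) (abs_nonneg _)
              (mul_nonneg hB (pow_nonneg (hmax0 t) _))
        _ = _ := by ring
    calc ∑ i, ∑' t, g i t * (M N i t - κ N * φ N t) ≤
          ∑ i : ι, B * (ε N * κ N * ∑' t, (max 1 (ht t)) ^ A * φ N t) :=
            Finset.sum_le_sum fun i _ => h6 i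
      _ = _ := by rw [Finset.sum_const, nsmul_eq_mul, Finset.card_univ]; ring
  have hlim1 : Tendsto (fun N => w N h₀ * ∑ i, g i (c i h₀)) atTop
      (𝓝 (1 * ∑ i, g i (c i h₀))) := (hw1 h₀).mul_const _
  have hlim2 : Tendsto (fun N => (Fintype.card ι : ℝ) * B *
      (ε N * κ N * ∑' t, (max 1 (ht t)) ^ A * φ N t)) atTop
      (𝓝 ((Fintype.card ι : ℝ) * B * 0)) := (hlim A).const_mul _
  have h7 := le_of_tendsto_of_tendsto' hlim1 hlim2 hbound
  rw [one_mul, mul_zero] at h7
  exact le_antisymm h7 (hg h₀)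

end

end Pool.Agent.K4H16.Smyth
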