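import Mathlib

/-!
# Linear programming duality for measures with equal marginals

`H` is an index type of points, `c i h : O` the `i`-th coordinate of the point `h`.
-/

set_option autoImplicit false
set_option linter.unusedSectionVars false

namespace Pool.Agent.K4H16.Smyth

open Finset

/-- An order unit of a cone which spans a finite-dimensional space. -/
theorem exists_orderUnit {V : Type*} [AddCommGroup V] [Module ℝ V] (C : PointedCone ℝ V)
    (hfg : (Submodule.span ℝ (C : Set V)).FG) :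
    ∃ p ∈ C, ∀ u ∈ Submodule.span ℝ (C : Set V), ∃ l : ℝ, 0 ≤ l ∧ l • p + u ∈ C := by
  classical
  obtain ⟨S, hS, hspan⟩ := Submodule.fg_span_iff_fg_span_finset_subset (C : Set V) |>.1 hfg
  refine ⟨∑ s ∈ S, s, Submodule.sum_mem _ fun s hs => hS hs, fun u hu => ?_⟩
  rw [hspan, Submodule.mem_span_finset] at hu
  obtain ⟨f, -, rfl⟩ := hu
  refine ⟨∑ s ∈ S, |f s|, Finset.sum_nonneg fun _ _ => abs_nonneg _, ?_⟩
  rw [Finset.smul_sum, ← Finset.sum_add_distrib]
  refine Submodule.sum_mem _ fun s hs => ?_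
  rw [← add_smul]
  have h0 : 0 ≤ ∑ s ∈ S, |f s| + f s := by
    have h1 : |f s| ≤ ∑ s ∈ S, |f s| :=
      Finset.single_le_sum (f := fun s => |f s|) (fun _ _ => abs_nonneg _) hs
    have h2 := neg_abs_le (f s)
    linarith
  exact C.smul_mem h0 (hS hs)

section

variable {ι O H : Type*} [Fintype ι] [DecidableEq ι] [DecidableEq O]

/-- The vector of the marginals of the point mass at `h`. -/
noncomputable def ptv (c : ι → H → O) (h : H) : ι × O →₀ ℝ := ∑ i, Finsupp.single (i, c i h) 1

/-- The diagonal vector. -/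
noncomputable def dgv (ι : Type*) [Fintype ι] {O : Type*} (t : O) : ι × O →₀ ℝ :=
  ∑ i, Finsupp.single (i, t) 1

/-- The vector of the marginals. -/
noncomputable def mar (c : ι → H → O) : (H →₀ ℝ) →ₗ[ℝ] (ι × O →₀ ℝ) :=
  Finsupp.linearCombination ℝ (ptv c)

/-- The diagonal. -/
noncomputable def dg (ι : Type*) [Fintype ι] {O : Type*} : (O →₀ ℝ) →ₗ[ℝ] (ι × O →₀ ℝ) :=
  Finsupp.linearCombination ℝ (dgv ι)

/-- The cone of the marginals of nonnegative measures modulo the diagonal. -/
noncomputable def cone (c : ι → H → O) : PointedCone ℝ (ι × O →₀ ℝ) where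
  carrier := {w | ∃ (m : H →₀ ℝ) (f : O →₀ ℝ), (∀ h, 0 ≤ m h) ∧ w = mar c m + dg ι f}
  add_mem' := by
    rintro _ _ ⟨m, f, hm, rfl⟩ ⟨m', f', hm', rfl⟩
    refine ⟨m + m', f + f', fun h => ?_, ?_⟩
    · rw [Finsupp.add_apply]; exact add_nonneg (hm h) (hm' h)
    · rw [map_add, map_add]; abel
  zero_mem' := ⟨0, 0, fun h => le_rfl, by simp⟩
  smul_mem' := by
    rintro ⟨r, hr⟩ _ ⟨m, f, hm, rfl⟩
    refine ⟨r • m, r • f, fun h => ?_, ?_⟩
    · rw [Finsupp.smul_apply, smul_eq_mul]; exact mul_nonneg hr (hm h)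
    · rw [map_smul, map_smul, ← smul_add]
      rfl

theorem mem_cone {c : ι → H → O} {w : ι × O →₀ ℝ} :
    w ∈ cone c ↔ ∃ (m : H →₀ ℝ) (f : O →₀ ℝ), (∀ h, 0 ≤ m h) ∧ w = mar c m + dg ι f := Iff.rfl

theorem dg_mem (c : ι → H → O) (f : O →₀ ℝ) : dg ι f ∈ cone c :=
  mem_cone.2 ⟨0, f, fun _ => le_rfl, by simp⟩

theorem mar_mem (c : ι → H → O) {m : H →₀ ℝ} (hm : ∀ h, 0 ≤ m h) : mar c m ∈ cone c :=
  mem_cone.2 ⟨m, 0, hm, by simp⟩

theorem smul_mem_cone {c : ι → H → O} {w : ι × O →₀ ℝ} (hw : w ∈ cone c) {r : ℝ} (hr : 0 ≤ r) :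
    r • w ∈ cone c := (cone c).smul_mem hr hw

theorem ptv_apply (c : ι → H → O) (h : H) (i : ι) (t : O) :
    ptv c h (i, t) = if c i h = t then 1 else 0 := by
  classical
  unfold ptv
  rw [Finsupp.finsetSum_apply]
  simp only [Finsupp.single_apply, Prod.mk.injEq]
  rw [Finset.sum_eq_single i]
  · simp
  · intro j _ hj
    simp [hj]
  · intro h; exact absurd (Finset.mem_univ i) h

theorem dgv_apply (i : ι) (s t : O) : dgv ι s (i, t) = if s = t then (1 : ℝ) else 0 := by
  classical
  unfold dgv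
  rw [Finsupp.finsetSum_apply]
  simp only [Finsupp.single_apply, Prod.mk.injEq]
  rw [Finset.sum_eq_single i]
  · simp
  · intro j _ hj
    simp [hj]
  · intro h; exact absurd (Finset.mem_univ i) h

/-- Reduction: modulo the cone every vector is supported on elements of small height. -/
theorem reduce (c : ι → H → O) (ht : O → ℝ) (T : ℝ)
    (hsh : ∀ i t, T < ht t → ∃ h, c i h = t ∧ ∀ j, j ≠ i → ht (c j h) < ht t) (A : Finset O) :
    (∀ t ∈ A, ∀ s, T < ht s → ht s < ht t → s ∈ A) →
    ∀ y : ι × O →₀ ℝ, (∀ i t, y (i, t) ≠ 0 → t ∈ A ∨ ht t ≤ T) →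
      ∃ p ∈ cone c, ∀ i t, (y + p) (i, t) ≠ 0 → ht t ≤ T := by
  classical
  induction hA : A.card using Nat.strong_induction_on generalizing A with
  | _ k ih =>
  intro hcl y hy
  rcases A.eq_empty_or_nonempty with rfl | hne
  · refine ⟨0, Submodule.zero_mem _, fun i t hit => ?_⟩
    rw [add_zero] at hit
    rcases hy i t hit with h | h
    · simp at h
    · exact h
  obtain ⟨t, htA, hmax⟩ := A.exists_max_image ht hne
  have hcard : (A.erase t).card < k := by
    rw [← hA]; exact Finset.card_erase_lt_of_mem htA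
  have hcl' : ∀ t' ∈ A.erase t, ∀ s, T < ht s → ht s < ht t' → s ∈ A.erase t := by
    intro t' ht' s hs hst
    rw [Finset.mem_erase] at ht' ⊢
    refine ⟨?_, hcl t' ht'.2 s hs hst⟩
    rintro rfl
    exact absurd (hmax t' ht'.2) (not_le.2 hst)
  by_cases hT : ht t ≤ T
  · refine ih _ hcard (A.erase t) rfl hcl' y fun i s his => ?_
    rcases hy i s his with h | h
    · by_cases hs : s = t
      · subst hs; exact Or.inr hT
      · exact Or.inl (Finset.mem_erase.2 ⟨hs, h⟩)
    · exact Or.inr h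
  push Not at hT
  choose h hh1 hh2 using fun i => hsh i t hT
  set M : ℝ := ∑ i, |y (i, t)| with hM
  have hMi : ∀ i, 0 ≤ M - y (i, t) := fun i => by
    have h1 : |y (i, t)| ≤ M :=
      Finset.single_le_sum (f := fun i => |y (i, t)|) (fun _ _ => abs_nonneg _) (Finset.mem_univ i)
    have h2 := le_abs_self (y (i, t))
    linarith
  set m : H →₀ ℝ := ∑ i, Finsupp.single (h i) (M - y (i, t)) with hm
  have hm0 : ∀ x, 0 ≤ m x := by
    intro x
    rw [hm, Finsupp.finsetSum_apply]
    refine Finset.sum_nonneg fun i _ => ?_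
    rw [Finsupp.single_apply]
    split_ifs
    · exact hMi i
    · exact le_rfl
  set p₁ : ι × O →₀ ℝ := mar c m + dg ι (Finsupp.single t (-M)) with hp₁
  have hp₁mem : p₁ ∈ cone c := mem_cone.2 ⟨m, _, hm0, rfl⟩
  have hval : ∀ i s, p₁ (i, s) =
      (∑ k, (M - y (k, t)) * (if c i (h k) = s then 1 else 0)) + (-M) * (if t = s then 1 else 0) := by
    intro i s
    rw [hp₁, Finsupp.add_apply, hm, map_sum, Finsupp.finsetSum_apply]
    congr 1
    · refine Finset.sum_congr rfl fun k _ => ?_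
      unfold mar
      rw [Finsupp.linearCombination_single, Finsupp.smul_apply, ptv_apply, smul_eq_mul]
    · unfold dg
      rw [Finsupp.linearCombination_single, Finsupp.smul_apply, dgv_apply, smul_eq_mul]
  have hy' : ∀ i s, (y + p₁) (i, s) ≠ 0 → s ∈ A.erase t ∨ ht s ≤ T := by
    intro i s his
    rw [Finsupp.add_apply, hval] at his
    by_cases hs : s = t
    · exfalso
      subst hs
      apply his
      have h1 : ∀ k, (M - y (k, s)) * (if c i (h k) = s then 1 else 0) =
          if k = i then M - y (i, s) else 0 := by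
        intro k
        by_cases hk : k = i
        · subst hk
          rw [if_pos (hh1 k), if_pos rfl, mul_one]
        · rw [if_neg hk, if_neg, mul_zero]
          intro h2
          have h3 := hh2 k i (Ne.symm hk)
          rw [h2] at h3
          exact lt_irrefl _ h3
      simp only [h1]
      rw [Finset.sum_ite_eq' Finset.univ i]
      simp only [Finset.mem_univ, if_true, mul_one]
      ring
    · by_cases hyz : y (i, s) = 0
      · rw [hyz, if_neg (Ne.symm hs), mul_zero, add_zero, zero_add] at his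
        obtain ⟨k, -, hk⟩ := Finset.exists_ne_zero_of_sum_ne_zero his
        have hcs : c i (h k) = s := by
          by_contra hne'
          rw [if_neg hne', mul_zero] at hk
          exact hk rfl
        have hki : i ≠ k := by
          rintro rfl
          rw [hh1] at hcs
          exact hs hcs.symm
        have h4 := hh2 k i hki
        rw [hcs] at h4
        by_cases hsT : ht s ≤ T
        · exact Or.inr hsT
        · exact Or.inl (Finset.mem_erase.2 ⟨hs, hcl t htA s (not_le.1 hsT) h4⟩)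
      · rcases hy i s hyz with h1 | h1
        · exact Or.inl (Finset.mem_erase.2 ⟨hs, h1⟩)
        · exact Or.inr h1
  obtain ⟨p₂, hp₂, hp₂'⟩ := ih _ hcard (A.erase t) rfl hcl' (y + p₁) hy'
  refine ⟨p₁ + p₂, Submodule.add_mem _ hp₁mem hp₂, fun i s his => hp₂' i s ?_⟩
  rwa [add_assoc]

theorem reduce' (c : ι → H → O) (ht : O → ℝ) (T : ℝ) (hfin : ∀ r, {t | ht t ≤ r}.Finite)
    (hsh : ∀ i t, T < ht t → ∃ h, c i h = t ∧ ∀ j, j ≠ i → ht (c j h) < ht t)
    (y : ι × O →₀ ℝ) : ∃ p ∈ cone c, ∀ i t, (y + p) (i, t) ≠ 0 → ht t ≤ T := by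
  classical
  obtain ⟨r, hr⟩ : ∃ r : ℝ, ∀ x ∈ y.support, ht x.2 ≤ r := by
    obtain ⟨r, hr⟩ := (y.support.image fun x => ht x.2).bddAbove
    exact ⟨r, fun x hx => hr (Finset.mem_coe.2 (Finset.mem_image_of_mem _ hx))⟩
  refine reduce c ht T hsh (hfin r).toFinset ?_ y ?_
  · intro t htA s _ hst
    rw [Set.Finite.mem_toFinset, Set.mem_ofPred_eq] at htA ⊢
    exact hst.le.trans htA
  · intro i t hit
    left
    rw [Set.Finite.mem_toFinset, Set.mem_ofPred_eq]
    exact hr (i, t) (Finsupp.mem_support_iff.2 hit)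

/-- **Duality.** If all dual solutions are trivial then there is a nonnegative measure with equal
marginals. -/
theorem exists_measure (c : ι → H → O) (ht : O → ℝ) (T : ℝ) (hfin : ∀ r, {t | ht t ≤ r}.Finite)
    (hsh : ∀ i t, T < ht t → ∃ h, c i h = t ∧ ∀ j, j ≠ i → ht (c j h) < ht t)
    (hav : ∀ g : ι → O → ℝ, (∀ t, ∑ i, g i t = 0) → (∀ h, 0 ≤ ∑ i, g i (c i h)) →
      ∀ h, ∑ i, g i (c i h) = 0) (h₀ : H) :
    ∃ m : H →₀ ℝ, (∀ h, 0 ≤ m h) ∧ m h₀ ≠ 0 ∧
      ∀ i j t, (m.sum fun h r => if c i h = t then r else 0) =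
        m.sum fun h r => if c j h = t then r else 0 := by
  classical
  -- the finite-dimensional space
  set W₀ : Submodule ℝ (ι × O →₀ ℝ) := Finsupp.supported ℝ ℝ {x : ι × O | ht x.2 ≤ T} with hW₀
  have hfinW : {x : ι × O | ht x.2 ≤ T}.Finite := by
    refine ((Set.finite_univ (α := ι)).prod (hfin T)).subset fun x hx => ?_
    exact ⟨Set.mem_univ _, hx⟩
  have hW₀mem : ∀ w : ι × O →₀ ℝ, (∀ i t, w (i, t) ≠ 0 → ht t ≤ T) → w ∈ W₀ := by
    intro w hw
    rw [hW₀, Finsupp.mem_supported]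
    intro x hx
    exact hw x.1 x.2 (Finsupp.mem_support_iff.1 hx)
  have hred : ∀ y : ι × O →₀ ℝ, ∃ p ∈ cone c, y + p ∈ W₀ := by
    intro y
    obtain ⟨p, hp, hp'⟩ := reduce' c ht T hfin hsh y
    exact ⟨p, hp, hW₀mem _ hp'⟩
  set C₀ : PointedCone ℝ (ι × O →₀ ℝ) := cone c ⊓ W₀.restrictScalars {r : ℝ // 0 ≤ r} with hC₀
  have hC₀mem : ∀ w, w ∈ C₀ ↔ w ∈ cone c ∧ w ∈ W₀ := fun w => Iff.rfl
  have hW₀fg : FiniteDimensional ℝ W₀ := by
    have : Finite {x : ι × O | ht x.2 ≤ T} := hfinW
    exact (Finsupp.supportedEquivFinsupp (M := ℝ) (R := ℝ)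
      {x : ι × O | ht x.2 ≤ T}).symm.finiteDimensional
  have hspanle : Submodule.span ℝ (C₀ : Set (ι × O →₀ ℝ)) ≤ W₀ :=
    Submodule.span_le.2 fun w hw => ((hC₀mem w).1 hw).2
  have hfg : (Submodule.span ℝ (C₀ : Set (ι × O →₀ ℝ))).FG := by
    have : FiniteDimensional ℝ (Submodule.span ℝ (C₀ : Set (ι × O →₀ ℝ))) :=
      Submodule.finiteDimensional_of_le hspanle
    exact Module.Finite.iff_fg.1 inferInstance
  obtain ⟨p₀, hp₀, hunit⟩ := exists_orderUnit C₀ hfg
  -- the element with a point mass at `h₀`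
  obtain ⟨p₁, hp₁, hp₁W⟩ := hred (mar c (Finsupp.single h₀ 1))
  have hsing : ∀ h, 0 ≤ (Finsupp.single h₀ (1 : ℝ)) h := fun h => by
    rw [Finsupp.single_apply]; split_ifs <;> norm_num
  have hq : mar c (Finsupp.single h₀ 1) + p₁ ∈ C₀ :=
    (hC₀mem _).2 ⟨Submodule.add_mem _ (mar_mem c hsing) hp₁, hp₁W⟩
  set p := p₀ + (mar c (Finsupp.single h₀ 1) + p₁) with hp
  have hpC : p ∈ C₀ := Submodule.add_mem _ hp₀ hq
  have hpc : p ∈ cone c := ((hC₀mem _).1 hpC).1
  have hunit' : ∀ u ∈ Submodule.span ℝ (C₀ : Set (ι × O →₀ ℝ)), ∃ l : ℝ, l • p + u ∈ cone c := by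
    intro u hu
    obtain ⟨l, hl, hlu⟩ := hunit u hu
    refine ⟨l, ?_⟩
    have h1 : l • p + u = (l • p₀ + u) + l • (mar c (Finsupp.single h₀ 1) + p₁) := by
      rw [hp, smul_add]; abel
    rw [h1]
    exact Submodule.add_mem _ ((hC₀mem _).1 hlu).1 (smul_mem_cone ((hC₀mem _).1 hq).1 hl)
  -- the main claim
  have hneg : -p ∈ cone c := by
    by_contra hnot
    have hp0 : p ≠ 0 := by
      intro h0
      apply hnot
      rw [h0, neg_zero]
      exact Submodule.zero_mem _
    set E := Submodule.span ℝ ((cone c : PointedCone ℝ (ι × O →₀ ℝ)) : Set (ι × O →₀ ℝ)) with hE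
    have hcE : ∀ w ∈ cone c, w ∈ E := fun w hw => Submodule.subset_span hw
    -- elements of E are differences
    have hdiff : ∀ y ∈ E, ∃ a ∈ cone c, ∃ b ∈ cone c, y = a - b := by
      intro y hy
      refine Submodule.span_induction (p := fun y _ => ∃ a ∈ cone c, ∃ b ∈ cone c, y = a - b)
        ?_ ?_ ?_ ?_ hy
      · intro x hx
        exact ⟨x, hx, 0, Submodule.zero_mem _, by simp⟩
      · exact ⟨0, Submodule.zero_mem _, 0, Submodule.zero_mem _, by simp⟩
      · rintro x y _ _ ⟨a, ha, b, hb, rfl⟩ ⟨a', ha', b', hb', rfl⟩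
        exact ⟨a + a', Submodule.add_mem _ ha ha', b + b', Submodule.add_mem _ hb hb', by abel⟩
      · rintro r x _ ⟨a, ha, b, hb, rfl⟩
        rcases le_total 0 r with hr | hr
        · exact ⟨r • a, smul_mem_cone ha hr, r • b, smul_mem_cone hb hr, smul_sub _ _ _⟩
        · refine ⟨(-r) • b, smul_mem_cone hb (by linarith), (-r) • a,
            smul_mem_cone ha (by linarith), ?_⟩
          rw [smul_sub, neg_smul, neg_smul]; abel
    have hWE : ∀ u, u ∈ E → u ∈ W₀ → u ∈ Submodule.span ℝ (C₀ : Set (ι × O →₀ ℝ)) := by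
      intro u hu huW
      obtain ⟨a, ha, b, hb, rfl⟩ := hdiff u hu
      obtain ⟨p', hp', hbp⟩ := hred b
      have h1 : b + p' ∈ C₀ := (hC₀mem _).2 ⟨Submodule.add_mem _ hb hp', hbp⟩
      have h2 : a + p' ∈ C₀ := by
        refine (hC₀mem _).2 ⟨Submodule.add_mem _ ha hp', ?_⟩
        have : a + p' = (a - b) + (b + p') := by abel
        rw [this]
        exact Submodule.add_mem _ huW hbp
      have h3 : a - b = (a + p') - (b + p') := by abel
      rw [h3]
      exact Submodule.sub_mem _ (Submodule.subset_span h2) (Submodule.subset_span h1)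
    set pE : E := ⟨p, hcE p hpc⟩ with hpE
    have hpE0 : pE ≠ 0 := by
      intro h
      exact hp0 (congrArg Subtype.val h)
    set sE : PointedCone ℝ E := (cone c).comap E.subtype with hsE
    have hsEmem : ∀ x : E, x ∈ sE ↔ (x : ι × O →₀ ℝ) ∈ cone c := fun x => Iff.rfl
    let f : E →ₗ.[ℝ] ℝ := LinearPMap.mkSpanSingleton pE (1 : ℝ) hpE0
    have hfval : ∀ x : f.domain, ∃ l : ℝ, (x : E) = l • pE ∧ f x = l := by
      intro x
      obtain ⟨l, hl⟩ := Submodule.mem_span_singleton.1 x.2
      refine ⟨l, hl.symm, ?_⟩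
      have h1 : x = ⟨l • pE, Submodule.mem_span_singleton.2 ⟨l, rfl⟩⟩ := Subtype.ext hl.symm
      rw [h1]
      change LinearPMap.mkSpanSingleton pE (1 : ℝ) hpE0 _ = l
      rw [LinearPMap.mkSpanSingleton'_apply, RingHom.id_apply, smul_eq_mul, mul_one]
    obtain ⟨g, hg1, hg2⟩ := riesz_extension sE f (by
      intro x hx
      obtain ⟨l, hl, hfl⟩ := hfval x
      rw [hfl]
      by_contra hneg
      push Not at hneg
      apply hnot
      have h1 : (x : E).1 ∈ cone c := hx
      rw [hl] at h1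
      have h2 : ((-l)⁻¹) • (l • p) ∈ cone c := smul_mem_cone h1 (by
        rw [inv_nonneg]; linarith)
      rw [smul_smul] at h2
      have h3 : (-l)⁻¹ * l = -1 := by
        rw [inv_neg, neg_mul, inv_mul_cancel₀ (ne_of_lt hneg)]
      rw [h3, neg_one_smul] at h2
      exact h2) (by
      intro y
      obtain ⟨p', hp', hyp⟩ := hred (-(y : ι × O →₀ ℝ))
      have h1 : -(y : ι × O →₀ ℝ) + p' ∈ E :=
        Submodule.add_mem _ (Submodule.neg_mem _ y.2) (hcE p' hp')
      have h2 := hWE _ h1 hyp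
      obtain ⟨l, hl⟩ := hunit' _ (Submodule.neg_mem _ h2)
      refine ⟨⟨l • pE, Submodule.mem_span_singleton.2 ⟨l, rfl⟩⟩, ?_⟩
      rw [hsEmem]
      change l • p + (y : ι × O →₀ ℝ) ∈ cone c
      have h3 : l • p + (y : ι × O →₀ ℝ) =
          (l • p + -(-(y : ι × O →₀ ℝ) + p')) + p' := by abel
      rw [h3]
      exact Submodule.add_mem _ hl hp')
    obtain ⟨g', hg'⟩ := LinearMap.exists_extend g
    have hg'c : ∀ w ∈ cone c, 0 ≤ g' w := by
      intro w hw
      have h1 : g' w = g ⟨w, hcE w hw⟩ := by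
        rw [← hg']; rfl
      rw [h1]
      exact hg2 _ hw
    have hg'p : g' p = 1 := by
      have h1 : g' p = g pE := by
        rw [← hg']; rfl
      rw [h1]
      have h2 := hg1 ⟨pE, Submodule.mem_span_singleton.2 ⟨1, one_smul _ _⟩⟩
      change g pE = _ at h2
      rw [h2]
      obtain ⟨l, hl, hfl⟩ := hfval ⟨pE, Submodule.mem_span_singleton.2 ⟨1, one_smul _ _⟩⟩
      change f _ = 1
      rw [hfl]
      change pE = l • pE at hl
      obtain ⟨x, hx⟩ := Finsupp.ne_iff.1 hp0
      have h3 : p x = l * p x := by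
        have h4 := congrArg (fun w : E => (w : ι × O →₀ ℝ) x) hl
        exact h4
      have h5 : (l - 1) * p x = 0 := by linarith
      rcases mul_eq_zero.1 h5 with h6 | h6
      · linarith
      · exact absurd h6 hx
    set G : ι → O → ℝ := fun i t => g' (Finsupp.single (i, t) 1) with hG
    have hdgv : ∀ t, g' (dgv ι t) = ∑ i, G i t := by
      intro t
      unfold dgv
      rw [map_sum]
    have hptv : ∀ h, g' (ptv c h) = ∑ i, G i (c i h) := by
      intro h
      unfold ptv
      rw [map_sum]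
    have hdg1 : ∀ (t : O) (r : ℝ), dg ι (Finsupp.single t r) = r • dgv ι t := by
      intro t r
      unfold dg
      rw [Finsupp.linearCombination_single]
    have hmar1 : ∀ (h : H) (r : ℝ), mar c (Finsupp.single h r) = r • ptv c h := by
      intro h r
      unfold mar
      rw [Finsupp.linearCombination_single]
    have hG0 : ∀ t, ∑ i, G i t = 0 := by
      intro t
      apply le_antisymm
      · have h1 := hg'c _ (dg_mem c (Finsupp.single t (-1)))
        rw [hdg1, map_smul, hdgv, smul_eq_mul] at h1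
        linarith
      · have h1 := hg'c _ (dg_mem c (Finsupp.single t 1))
        rw [hdg1, map_smul, hdgv, smul_eq_mul] at h1
        linarith
    have hGp : ∀ h, 0 ≤ ∑ i, G i (c i h) := by
      intro h
      have h1 := hg'c _ (mar_mem c (m := Finsupp.single h 1) (fun x => by
        rw [Finsupp.single_apply]; split_ifs <;> norm_num))
      rw [hmar1, map_smul, hptv, smul_eq_mul, one_mul] at h1
      exact h1
    have hGz := hav G hG0 hGp
    have hz1 : ∀ m : H →₀ ℝ, g' (mar c m) = 0 := by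
      intro m
      unfold mar
      rw [Finsupp.linearCombination_apply, Finsupp.sum, map_sum]
      refine Finset.sum_eq_zero fun h _ => ?_
      rw [map_smul, hptv, hGz, smul_zero]
    have hz2 : ∀ f : O →₀ ℝ, g' (dg ι f) = 0 := by
      intro f
      unfold dg
      rw [Finsupp.linearCombination_apply, Finsupp.sum, map_sum]
      refine Finset.sum_eq_zero fun h _ => ?_
      rw [map_smul, hdgv, hG0, smul_zero]
    obtain ⟨m, f', -, hmf⟩ := mem_cone.1 hpc
    rw [hmf, map_add, hz1, hz2, add_zero] at hg'p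
    exact zero_ne_one hg'p
  obtain ⟨m, f, hm, hmf⟩ := mem_cone.1 hneg
  obtain ⟨m₁, f₁, hm₁, hmf₁⟩ := mem_cone.1 (Submodule.add_mem _ ((hC₀mem _).1 hp₀).1 hp₁)
  have hsum : mar c (m + m₁ + Finsupp.single h₀ 1) + dg ι (f + f₁) = 0 := by
    have h1 : p = (p₀ + p₁) + mar c (Finsupp.single h₀ 1) := by rw [hp]; abel
    rw [hmf₁] at h1
    have h2 : -p + p = 0 := neg_add_cancel p
    rw [hmf, h1] at h2
    rw [map_add, map_add, map_add, ← h2]
    abel
  refine ⟨m + m₁ + Finsupp.single h₀ 1, fun h => ?_, ?_, ?_⟩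
  · rw [Finsupp.add_apply, Finsupp.add_apply]
    exact add_nonneg (add_nonneg (hm h) (hm₁ h)) (hsing h)
  · rw [Finsupp.add_apply, Finsupp.add_apply, Finsupp.single_eq_same]
    have := hm h₀
    have := hm₁ h₀
    intro h
    linarith
  · have key : ∀ i t, ((m + m₁ + Finsupp.single h₀ 1).sum fun h r => if c i h = t then r else 0) =
        -(f + f₁) t := by
      intro i t
      have h1 := congrArg (fun w : ι × O →₀ ℝ => w (i, t)) hsum
      simp only [Finsupp.add_apply, Finsupp.zero_apply] at h1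
      have h2 : mar c (m + m₁ + Finsupp.single h₀ 1) (i, t) =
          (m + m₁ + Finsupp.single h₀ 1).sum fun h r => if c i h = t then r else 0 := by
        unfold mar
        rw [Finsupp.linearCombination_apply, Finsupp.sum_apply]
        refine Finsupp.sum_congr fun h _ => ?_
        rw [Finsupp.smul_apply, ptv_apply, smul_eq_mul]
        split_ifs <;> simp
      have h3 : dg ι (f + f₁) (i, t) = (f + f₁) t := by
        unfold dg
        rw [Finsupp.linearCombination_apply, Finsupp.sum_apply, Finsupp.sum]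
        rw [Finset.sum_eq_single t]
        · rw [Finsupp.smul_apply, dgv_apply, if_pos rfl, smul_eq_mul, mul_one]
        · intro s _ hs
          rw [Finsupp.smul_apply, dgv_apply, if_neg hs, smul_zero]
        · intro ht'
          rw [Finsupp.notMem_support_iff.1 ht', zero_smul, Finsupp.zero_apply]
      rw [h2, h3] at h1
      linarith
    intro i j t
    rw [key, key]

end

end Pool.Agent.K4H16.Smyth
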