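import Mathlib
import Pool.Agent.K4H16.Smyth.Abs1
import Pool.Agent.K4H16.Smyth.LP
import Pool.Agent.K4H16.Smyth.Avg

/-!
# Measures with equal marginals on the lattice of solutions
-/

set_option autoImplicit false
set_option linter.unusedSectionVars false

namespace Pool.Agent.K4H16.Smyth

open Finset Filter Topology Real

section

variable {O E ι I : Type*} [CommRing O] [NormedCommRing E] [NormedAlgebra ℝ E]
  [Fintype ι] [DecidableEq ι] [Fintype I]

/-- The fibre of a coordinate is a coset. -/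
def fibEquiv (a : ι → O) (i : ι) (t : O) (x₀ : ι → O) (hx₀ : x₀ ∈ HH a) (hx₀i : x₀ i = t) :
    HHi a i ≃ {h : HH a // h.1 i = t} where
  toFun := fun y => ⟨⟨x₀ + y.1, (HH a).add_mem hx₀ y.2.2⟩, by
    change x₀ i + y.1 i = t
    rw [hx₀i, y.2.1, add_zero]⟩
  invFun := fun h => ⟨h.1.1 - x₀, by
    refine ⟨?_, (HH a).sub_mem h.1.2 hx₀⟩
    rw [Pi.sub_apply, h.2, hx₀i, sub_self]⟩
  left_inv := fun y => Subtype.ext (by simp)
  right_inv := fun h => Subtype.ext (Subtype.ext (by simp))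

variable (emb : O →+* E) (B : LinearMap.BilinForm ℝ (ι → E)) (β : E → ℝ) (v : ι → E → (ι → E))

theorem jj_sum (a : ι → O) (h : HH a) : ∑ j, emb (a j) * jj emb (HH a) h j = 0 := by
  have h2 := congrArg emb (mem_HH.1 h.2)
  rw [map_sum, map_zero] at h2
  rw [← h2]
  exact Finset.sum_congr rfl fun j _ => (map_mul emb _ _).symm

theorem fib_sum (a : ι → O) (i : ι) (t : O) (x₀ : ι → O) (hx₀ : x₀ ∈ HH a) (hx₀i : x₀ i = t)
    (hB : ∀ i (x : ι → E), ∑ j, emb (a j) * x j = 0 →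
      B x x = β (x i) + B (x - v i (x i)) (x - v i (x i))) (x : ℝ) :
    ∑' h : {h : HH a // h.1 i = t}, ENNReal.ofReal (gau B x (jj emb (HH a) h.1)) =
      ENNReal.ofReal (rexp (-π * x * β (emb t))) *
        Th B (jj emb (HHi a i)) x ((fun k => emb (x₀ k)) - v i (emb t)) := by
  rw [← (fibEquiv a i t x₀ hx₀ hx₀i).tsum_eq]
  unfold Th
  rw [← ENNReal.tsum_mul_left]
  refine tsum_congr fun y => ?_
  rw [← ENNReal.ofReal_mul (Real.exp_pos _).le]
  congr 1
  set h := (fibEquiv a i t x₀ hx₀ hx₀i y).1 with hh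
  have h1 : jj emb (HH a) h i = emb t := by
    rw [jj_apply, (fibEquiv a i t x₀ hx₀ hx₀i y).2]
  have h2 := hB i _ (jj_sum emb a h)
  rw [h1] at h2
  have h3 : jj emb (HHi a i) y + ((fun k => emb (x₀ k)) - v i (emb t)) =
      jj emb (HH a) h - v i (emb t) := by
    have h4 : jj emb (HH a) h = jj emb (HHi a i) y + (fun k => emb (x₀ k)) := by
      funext k
      rw [Pi.add_apply, jj_apply, jj_apply]
      change emb (x₀ k + y.1 k) = _
      rw [map_add, add_comm]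
    rw [h4]
    abel
  unfold gau
  rw [h3, h2, ← Real.exp_add]
  congr 1
  ring

theorem Th_compare (hsymm : ∀ x y, B x y = B y x) (hpos : ∀ x, x ≠ 0 → 0 < B x x) (a : ι → O)
    (i : ι) {K : Type*} [DecidableEq K] (b : K → HHi a i) (F : Finset K)
    (hb : ∀ k ∈ F, jj emb _ (b k) ≠ 0)
    (hsp : ∀ s : ι → E, s i = 0 → ∑ j, emb (a j) * s j = 0 →
        ∃ τ : K → ℝ, s = ∑ k ∈ F, τ k • jj emb _ (b k)) {x : ℝ} (hx : 0 < x)
    (he : ∀ k ∈ F, eta (x * B (jj emb _ (b k)) (jj emb _ (b k))) < 1)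
    (s : ι → E) (hs1 : s i = 0) (hs2 : ∑ j, emb (a j) * s j = 0) :
    Th B (jj emb (HHi a i)) x s ≤
        ENNReal.ofReal (∏ k ∈ F, dd (x * B (jj emb _ (b k)) (jj emb _ (b k)))) *
          Th B (jj emb (HHi a i)) x 0 ∧
      Th B (jj emb (HHi a i)) x 0 ≤
        ENNReal.ofReal (∏ k ∈ F, dd (x * B (jj emb _ (b k)) (jj emb _ (b k)))) *
          Th B (jj emb (HHi a i)) x s := by
  obtain ⟨τ, hτ⟩ := hsp s hs1 hs2
  constructor
  · have h := Th_shift_sum hsymm (jj emb (HHi a i)) hx F b (fun k hk => hpos _ (hb k hk)) he τ 0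
    rw [zero_add, ← hτ] at h
    exact h
  · have h := Th_shift_sum hsymm (jj emb (HHi a i)) hx F b (fun k hk => hpos _ (hb k hk)) he
      (fun k => -τ k) s
    have h1 : s + ∑ k ∈ F, (-τ k) • jj emb (HHi a i) (b k) = 0 := by
      simp only [neg_smul, Finset.sum_neg_distrib]
      rw [← hτ, add_neg_cancel]
    rw [h1] at h
    exact h

/-- Comparison of the marginals. -/
theorem marginal_bound {O : Type*} (D κi T Z : ℝ) (hD : 1 ≤ D) (hκi : 0 ≤ κi) (hZ : 0 < Z)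
    (m φ : O → ℝ) (hφ : ∀ t, 0 ≤ φ t) (h1 : ∀ t, m t ≤ D * (φ t * κi))
    (h2 : ∀ t, φ t * κi ≤ D * m t) (hT : HasSum m T) (hφs : HasSum φ Z) (t : O) :
    |m t - T / Z * φ t| ≤ (D ^ 2 - 1) * (T / Z) * φ t := by
  have h3 : T ≤ D * (Z * κi) := hasSum_le h1 hT ((hφs.mul_right κi).mul_left D)
  have h4 : Z * κi ≤ D * T := hasSum_le h2 (hφs.mul_right κi) (hT.mul_left D)
  set κ := T / Z with hκ
  have hT' : T = κ * Z := by rw [hκ]; field_simp
  have h5 : κ ≤ D * κi := by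
    rw [hκ, div_le_iff₀ hZ]; linarith
  have h6 : κi ≤ D * κ := by
    rw [hκ, ← mul_div_assoc, le_div_iff₀ hZ]; linarith
  have hφt := hφ t
  have hκ0 : 0 ≤ κ := by
    by_contra h
    push Not at h
    nlinarith
  rw [abs_le]
  have hm1 : m t ≤ D ^ 2 * κ * φ t := by
    calc m t ≤ D * (φ t * κi) := h1 t
      _ ≤ D * (φ t * (D * κ)) := by
          apply mul_le_mul_of_nonneg_left _ (by linarith)
          exact mul_le_mul_of_nonneg_left h6 hφt
      _ = _ := by ring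
  have hm2 : κ * φ t ≤ D ^ 2 * m t := by
    calc κ * φ t ≤ (D * κi) * φ t := mul_le_mul_of_nonneg_right h5 hφt
      _ = D * (φ t * κi) := by ring
      _ ≤ D * (D * m t) := mul_le_mul_of_nonneg_left (h2 t) (by linarith)
      _ = _ := by ring
  have hκφ : 0 ≤ κ * φ t := mul_nonneg hκ0 hφt
  have hD2 : 1 ≤ D ^ 2 := one_le_pow₀ hD
  constructor
  · -- lower bound
    have h7 : (2 - D ^ 2) * (κ * φ t) ≤ m t := by
      have h8 : (2 - D ^ 2) * D ^ 2 ≤ 1 := by nlinarith [sq_nonneg (D ^ 2 - 1)]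
      have h9 : D ^ 2 * ((2 - D ^ 2) * (κ * φ t)) ≤ D ^ 2 * m t := by
        calc D ^ 2 * ((2 - D ^ 2) * (κ * φ t)) = ((2 - D ^ 2) * D ^ 2) * (κ * φ t) := by ring
          _ ≤ 1 * (κ * φ t) := mul_le_mul_of_nonneg_right h8 hκφ
          _ ≤ D ^ 2 * m t := by rw [one_mul]; exact hm2
      exact le_of_mul_le_mul_left h9 (by linarith)
    nlinarith
  · nlinarith

end

end Pool.Agent.K4H16.Smyth
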