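import Mathlib
import Pool.Agent.K4H16.Smyth.Abs2

/-!
# Measures with equal marginals: the abstract theorem
-/

set_option autoImplicit false
set_option linter.unusedSectionVars false

namespace Pool.Agent.K4H16.Smyth

open Finset Filter Topology Real

theorem neg_sum {K : Type*} (F : Finset K) (f : K → ℕ → ℝ)
    (hf : ∀ k ∈ F, Neg (f k)) : Neg (fun N => ∑ k ∈ F, f k N) := by
  classical
  induction F using Finset.induction_on with
  | empty => simpa using negl_zero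
  | @insert a F ha ih =>
    have h1 := hf a (Finset.mem_insert_self _ _)
    have h2 := ih fun k hk => hf k (Finset.mem_insert_of_mem hk)
    have h4 : (fun N => ∑ k ∈ insert a F, f k N) = fun N => f a N + ∑ k ∈ F, f k N := by
      funext N
      rw [Finset.sum_insert ha]
    rw [h4]
    exact h1.add h2

theorem hasSum_fiber {H O : Type*} (f : H → ℝ) (hf : Summable f) (c : H → O) :
    HasSum (fun t => ∑' h : {h // c h = t}, f h) (∑' h, f h) := by
  have h1 : HasSum (f ∘ (Equiv.sigmaFiberEquiv c)) (∑' h, f h) :=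
    ((Equiv.sigmaFiberEquiv c).hasSum_iff).2 hf.hasSum
  refine HasSum.sigma h1 fun t => ?_
  exact (hf.comp_injective (i := fun h : {h // c h = t} => h.1) Subtype.val_injective).hasSum

section

variable {O E ι I : Type*} [CommRing O] [NormedCommRing E] [NormedAlgebra ℝ E]
  [Fintype ι] [DecidableEq ι] [Fintype I] [DecidableEq O]

theorem span_pi (bas : Module.Basis I ℝ E) (f : ι → E)
    (hf : ∀ k, f k ∈ Submodule.span ℤ (Set.range bas)) :
    f ∈ Submodule.span ℤ (Set.range (Pi.basis fun _ : ι => bas)) := by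
  have h1 : f = ∑ k, Pi.single k (f k) := by
    funext m
    rw [Finset.sum_apply, Finset.sum_eq_single m]
    · rw [Pi.single_eq_same]
    · intro k _ hk; rw [Pi.single_eq_of_ne (Ne.symm hk)]
    · intro h; exact absurd (mem_univ _) h
  rw [h1]
  refine Submodule.sum_mem _ fun k _ => ?_
  have h2 : Submodule.map (LinearMap.single ℤ (fun _ : ι => E) k)
      (Submodule.span ℤ (Set.range bas)) ≤
      Submodule.span ℤ (Set.range (Pi.basis fun _ : ι => bas)) := by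
    rw [Submodule.map_span, Submodule.span_le]
    rintro x ⟨y, ⟨l, rfl⟩, rfl⟩
    apply Submodule.subset_span
    refine ⟨⟨k, l⟩, ?_⟩
    rw [Pi.basis_apply]
    rfl
  exact h2 ⟨f k, hf k, rfl⟩

theorem marg_aux (emb : O →+* E) (a : ι → O)
    (hsurj : ∀ i (t : O), ∃ x : ι → O, x i = t ∧ ∑ j, a j * x j = 0)
    (B : LinearMap.BilinForm ℝ (ι → E)) (hsymm : ∀ x y, B x y = B y x)
    (hpos : ∀ x, x ≠ 0 → 0 < B x x) (β : E → ℝ) (v : ι → E → (ι → E))
    (hv1 : ∀ i t, v i t i = t) (hv2 : ∀ i t, ∑ j, emb (a j) * v i t j = 0)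
    (hB : ∀ i (x : ι → E), ∑ j, emb (a j) * x j = 0 →
      B x x = β (x i) + B (x - v i (x i)) (x - v i (x i)))
    (i : ι) {K : Type*} [DecidableEq K] (b : K → HHi a i) (F : Finset K)
    (hb : ∀ k ∈ F, jj emb _ (b k) ≠ 0)
    (hsp : ∀ s : ι → E, s i = 0 → ∑ j, emb (a j) * s j = 0 →
        ∃ τ : K → ℝ, s = ∑ k ∈ F, τ k • jj emb _ (b k)) {x : ℝ} (hx : 0 < x)
    (he : ∀ k ∈ F, eta (x * B (jj emb _ (b k)) (jj emb _ (b k))) < 1)
    (w : HH a → ℝ) (hw : ∀ h, w h = gau B x (jj emb (HH a) h)) (hws : Summable w) (t : O) :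
    ∃ Ts : ENNReal,
        ENNReal.ofReal (∑' h : {h : HH a // h.1 i = t}, w h.1) =
          ENNReal.ofReal (rexp (-π * x * β (emb t))) * Ts ∧
          Ts ≤ ENNReal.ofReal (∏ k ∈ F, dd (x * B (jj emb _ (b k)) (jj emb _ (b k)))) *
            Th B (jj emb (HHi a i)) x 0 ∧
          Th B (jj emb (HHi a i)) x 0 ≤
            ENNReal.ofReal (∏ k ∈ F, dd (x * B (jj emb _ (b k)) (jj emb _ (b k)))) * Ts := by
  obtain ⟨x₀, hx₀i, hx₀⟩ := hsurj i t
  refine ⟨Th B (jj emb (HHi a i)) x ((fun k => emb (x₀ k)) - v i (emb t)), ?_, ?_⟩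
  · have h0 : ∀ h : {h : HH a // h.1 i = t}, 0 ≤ w h.1 := fun h => by
      rw [hw]; exact (gau_pos B _ _).le
    have h1 : Summable fun h : {h : HH a // h.1 i = t} => w h.1 :=
      hws.comp_injective Subtype.val_injective
    rw [ENNReal.ofReal_tsum_of_nonneg h0 h1,
      ← fib_sum emb B β v a i t x₀ hx₀ hx₀i hB x]
    refine tsum_congr fun h => ?_
    rw [hw]
  · refine Th_compare emb B hsymm hpos a i b F hb hsp hx he _ ?_ ?_
    · rw [Pi.sub_apply, hx₀i, hv1, sub_self]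
    · simp only [Pi.sub_apply, mul_sub, Finset.sum_sub_distrib]
      rw [hv2, sub_zero]
      exact jj_sum emb a ⟨x₀, hx₀⟩

theorem marg_real {O : Type*} (m φ : O → ℝ) (Θ : ENNReal) (Di D T Z : ℝ) (hDi : 1 ≤ Di) (hDiD : Di ≤ D)
    (hm : ∀ t, 0 ≤ m t) (hφ : ∀ t, 0 < φ t) (t₀ : O)
    (hcmp : ∀ t, ∃ Ts : ENNReal, ENNReal.ofReal (m t) = ENNReal.ofReal (φ t) * Ts ∧
      Ts ≤ ENNReal.ofReal Di * Θ ∧ Θ ≤ ENNReal.ofReal Di * Ts)
    (hT : HasSum m T) (hZ : HasSum φ Z) (hZ0 : 0 < Z) (t : O) :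
    |m t - T / Z * φ t| ≤ (D ^ 2 - 1) * (T / Z) * φ t := by
  have hΘfin : Θ ≠ ⊤ := by
    obtain ⟨Ts, h1, h2, h3⟩ := hcmp t₀
    have h4 : Ts ≠ ⊤ := by
      rintro rfl
      rw [ENNReal.mul_top (ENNReal.ofReal_pos.2 (hφ t₀)).ne'] at h1
      exact ENNReal.ofReal_ne_top h1
    exact ne_top_of_le_ne_top (ENNReal.mul_ne_top ENNReal.ofReal_ne_top h4) h3
  set κi : ℝ := Θ.toReal with hκi
  have hΘe : Θ = ENNReal.ofReal κi := (ENNReal.ofReal_toReal hΘfin).symm
  have hκi0 : 0 ≤ κi := ENNReal.toReal_nonneg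
  have hD0 : 0 ≤ D := by linarith
  have hDi0 : 0 ≤ Di := by linarith
  refine marginal_bound D κi T Z (hDi.trans hDiD) hκi0 hZ0 m φ (fun t => (hφ t).le) ?_ ?_ hT hZ t
  · intro t
    obtain ⟨Ts, h1, h2, h3⟩ := hcmp t
    have h4 : ENNReal.ofReal (m t) ≤ ENNReal.ofReal (φ t * (Di * κi)) := by
      rw [h1, ENNReal.ofReal_mul (hφ t).le, ENNReal.ofReal_mul hDi0, ← hΘe]
      exact mul_le_mul_right h2 _
    have h5 := (ENNReal.ofReal_le_ofReal_iff
      (mul_nonneg (hφ t).le (mul_nonneg hDi0 hκi0))).1 h4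
    refine h5.trans ?_
    have h6 : 0 ≤ φ t * κi := mul_nonneg (hφ t).le hκi0
    calc φ t * (Di * κi) = Di * (φ t * κi) := by ring
      _ ≤ D * (φ t * κi) := mul_le_mul_of_nonneg_right hDiD h6
  · intro t
    obtain ⟨Ts, h1, h2, h3⟩ := hcmp t
    have h4 : ENNReal.ofReal (φ t * κi) ≤ ENNReal.ofReal (Di * m t) := by
      rw [ENNReal.ofReal_mul (hφ t).le, ENNReal.ofReal_mul hDi0, h1, ← hΘe, mul_left_comm]
      exact mul_le_mul_right h3 _
    have h5 := (ENNReal.ofReal_le_ofReal_iff (mul_nonneg hDi0 (hm t))).1 h4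
    exact h5.trans (mul_le_mul_of_nonneg_right hDiD (hm t))

/-- The abstract theorem. -/
theorem abs_measure [FiniteDimensional ℝ E] [Nonempty ι] (emb : O →+* E)
    (hemb : Function.Injective emb) (ω : I → O) (bas : Module.Basis I ℝ E)
    (hbas : ∀ l, bas l = emb (ω l)) (hspan : ∀ t, emb t ∈ Submodule.span ℤ (Set.range bas))
    (a : ι → O)
    (hsurj : ∀ i (t : O), ∃ x : ι → O, x i = t ∧ ∑ j, a j * x j = 0)
    (hinv : ∀ i, ∃ j₀, j₀ ≠ i ∧ ∃ u : E, emb (a j₀) * u = 1) (ρ : ℝ) (hρ0 : 0 < ρ) (hρ : ρ < 1)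
    (hz : ∀ i (t : E), ∃ z : ι → E, z i = t ∧ ∑ j, emb (a j) * z j = 0 ∧
      ∀ j, j ≠ i → ‖z j‖ ≤ ρ * ‖t‖)
    (B : LinearMap.BilinForm ℝ (ι → E)) (hsymm : ∀ x y, B x y = B y x)
    (hpos : ∀ x, x ≠ 0 → 0 < B x x) (β : E → ℝ) (v : ι → E → (ι → E))
    (hv1 : ∀ i t, v i t i = t) (hv2 : ∀ i t, ∑ j, emb (a j) * v i t j = 0)
    (hB : ∀ i (x : ι → E), ∑ j, emb (a j) * x j = 0 →
      B x x = β (x i) + B (x - v i (x i)) (x - v i (x i))) (h₀ : HH a) :
    ∃ m : HH a →₀ ℝ, (∀ h, 0 ≤ m h) ∧ m h₀ ≠ 0 ∧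
      ∀ i j t, (m.sum fun h r => if h.1 i = t then r else 0) =
        m.sum fun h r => if h.1 j = t then r else 0 := by
  classical
  obtain ⟨i₀⟩ := (inferInstance : Nonempty ι)
  obtain ⟨c, hc, hcB⟩ := exists_lower B hpos
  -- facts on `β`
  have hβ : ∀ i t, β t = B (v i t) (v i t) := by
    intro i t
    have h1 := hB i (v i t) (hv2 i t)
    rw [hv1, sub_self] at h1
    simp only [map_zero, add_zero] at h1
    exact h1.symm
  have hβ0 : β 0 = 0 := by
    have h1 := hB i₀ 0 (by simp)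
    simp only [Pi.zero_apply, zero_sub, map_neg, LinearMap.neg_apply, neg_neg, map_zero,
      LinearMap.zero_apply] at h1
    have h2 := hβ i₀ 0
    linarith
  have hβlow : ∀ t, c * ‖t‖ ^ 2 ≤ β t := by
    intro t
    rw [hβ i₀ t]
    refine le_trans ?_ (hcB _)
    apply mul_le_mul_of_nonneg_left _ hc.le
    apply pow_le_pow_left₀ (norm_nonneg _)
    have := norm_le_pi_norm (v i₀ t) i₀
    rw [hv1] at this
    exact this
  set ht : O → ℝ := fun t => ‖emb t‖ with hht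
  have hht0 : ∀ t, 0 ≤ ht t := fun t => norm_nonneg _
  obtain ⟨R₁, hR₁⟩ := summable_lattice bas emb hemb hspan
  have hjinj : Function.Injective (jj emb (HH a)) := by
    intro x y h
    refine Subtype.ext (funext fun k => hemb ?_)
    exact congrFun h k
  obtain ⟨R₂, hR₂⟩ := summable_lattice (Pi.basis fun _ : ι => bas) (jj emb (HH a)) hjinj
    (fun x => span_pi bas _ fun k => hspan _)
  -- weights
  set w : ℕ → HH a → ℝ := fun N h => gau B (xx N) (jj emb (HH a) h) with hw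
  set φ : ℕ → O → ℝ := fun N t => rexp (-π * xx N * β (emb t)) with hφ
  have hw0 : ∀ N h, 0 < w N h := fun N h => gau_pos B _ _
  have hφ0 : ∀ N t, 0 < φ N t := fun N t => Real.exp_pos _
  have hπc : 0 < π * c := mul_pos Real.pi_pos hc
  have hφle : ∀ N t, φ N t ≤ rexp (-(π * c) * (1 / ((N : ℝ) + 1) ^ 2) * ht t ^ 2) := by
    intro N t
    apply Real.exp_le_exp.2
    have h1 := hβlow (emb t)
    have h2 := xx_pos N
    have h3 : 0 < π * xx N := mul_pos Real.pi_pos h2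
    have h4 := mul_le_mul_of_nonneg_left h1 h3.le
    change -π * xx N * β (emb t) ≤ -(π * c) * xx N * ‖emb t‖ ^ 2
    nlinarith
  have hwle : ∀ N h, w N h ≤
      rexp (-(π * c) * (1 / ((N : ℝ) + 1) ^ 2) * ‖jj emb (HH a) h‖ ^ 2) := by
    intro N h
    apply Real.exp_le_exp.2
    have h1 := hcB (jj emb (HH a) h)
    have h2 := xx_pos N
    have h3 : 0 < π * xx N := mul_pos Real.pi_pos h2
    have h4 := mul_le_mul_of_nonneg_left h1 h3.le
    change -π * xx N * B (jj emb (HH a) h) (jj emb (HH a) h) ≤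
      -(π * c) * xx N * ‖jj emb (HH a) h‖ ^ 2
    nlinarith
  -- summability of `w`
  obtain ⟨C₂, k₂, hC₂, hpb₂⟩ := poly_bound (fun h : HH a => ‖jj emb (HH a) h‖) R₂ hR₂
    (fun _ => norm_nonneg _) (π * c) hπc 0
  simp only [pow_zero, one_mul] at hpb₂
  have hws : ∀ N, Summable (w N) := fun N =>
    Summable.of_nonneg_of_le (fun h => (hw0 N h).le) (hwle N) (hpb₂ N).1
  set T : ℕ → ℝ := fun N => ∑' h, w N h with hT
  have hTle : ∀ N, T N ≤ C₂ * ((N : ℝ) + 1) ^ k₂ := fun N =>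
    ((hws N).tsum_le_tsum (hwle N) (hpb₂ N).1).trans (hpb₂ N).2
  have hT0 : ∀ N, 0 ≤ T N := fun N => tsum_nonneg fun h => (hw0 N h).le
  -- summability of `φ`
  have hφs : ∀ A : ℕ, ∃ (C : ℝ) (k : ℕ), 0 ≤ C ∧ ∀ N : ℕ,
      (Summable fun t => (max 1 (ht t)) ^ A * φ N t) ∧
      ∑' t, (max 1 (ht t)) ^ A * φ N t ≤ C * ((N : ℝ) + 1) ^ k := by
    intro A
    obtain ⟨C, k, hC, hpb⟩ := poly_bound ht R₁ hR₁ hht0 (π * c) hπc A
    refine ⟨C, k, hC, fun N => ?_⟩
    have hmax : ∀ t, 0 ≤ (max 1 (ht t)) ^ A := fun t =>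
      pow_nonneg (le_max_of_le_left zero_le_one) _
    have h1 : ∀ t, (max 1 (ht t)) ^ A * φ N t ≤
        (max 1 (ht t)) ^ A * rexp (-(π * c) * (1 / ((N : ℝ) + 1) ^ 2) * ht t ^ 2) := fun t =>
      mul_le_mul_of_nonneg_left (hφle N t) (hmax t)
    have h2 : Summable fun t => (max 1 (ht t)) ^ A * φ N t :=
      Summable.of_nonneg_of_le (fun t => mul_nonneg (hmax t) (hφ0 N t).le) h1 (hpb N).1
    exact ⟨h2, (h2.tsum_le_tsum h1 (hpb N).1).trans (hpb N).2⟩
  have hφsum : ∀ N, Summable (φ N) := by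
    intro N
    obtain ⟨C, k, hC, h⟩ := hφs 0
    refine (h N).1.congr fun t => ?_
    rw [pow_zero, one_mul]
  set Z : ℕ → ℝ := fun N => ∑' t, φ N t with hZ
  have hZ1 : ∀ N, 1 ≤ Z N := by
    intro N
    have h1 : φ N 0 ≤ Z N := (hφsum N).le_tsum 0 fun t _ => (hφ0 N t).le
    have h2 : φ N 0 = 1 := by
      simp only [hφ, map_zero, hβ0, mul_zero, Real.exp_zero]
    linarith
  set κ : ℕ → ℝ := fun N => T N / Z N with hκ
  have hκ0 : ∀ N, 0 ≤ κ N := fun N => div_nonneg (hT0 N) (by linarith [hZ1 N])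
  have hκle : ∀ N, κ N ≤ T N := fun N => div_le_self (hT0 N) (hZ1 N)
  -- families
  choose j₀ hj₀ u hu using hinv
  choose b F hbF hsp using fun i => exists_family emb ω bas hbas a i (j₀ i) (hj₀ i) (u i) (hu i)
  set q : ι → ι × I → ℝ := fun i k =>
    B (jj emb (HHi a i) (b i k)) (jj emb (HHi a i) (b i k)) with hq
  have hqpos : ∀ i, ∀ k ∈ F i, 0 < q i k := fun i k hk => hpos _ (hbF i k hk)
  set Di : ι → ℕ → ℝ := fun i N => ∏ k ∈ F i, dd (xx N * q i k) with hDi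
  have hDineg : ∀ i, Neg (fun N => Di i N - 1) := fun i =>
    neg_prod (F i) (fun k N => dd (xx N * q i k)) fun k hk => neg_dd _ (hqpos i k hk)
  set D : ℕ → ℝ := fun N => 1 + ∑ i, (Di i N - 1) with hD
  have hDneg : Neg (fun N => D N - 1) := by
    have h1 : (fun N => D N - 1) = fun N => ∑ i, (Di i N - 1) := by
      funext N; rw [hD]; ring
    rw [h1]
    exact neg_sum univ (fun i N => Di i N - 1) fun i _ => hDineg i
  have hεneg : Neg (fun N => D N ^ 2 - 1) := by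
    have h1 : (fun N => D N ^ 2 - 1) = fun N => (D N - 1) + (D N - 1) + (D N - 1) * (D N - 1) := by
      funext N; ring
    rw [h1]
    exact (hDneg.add hDneg).add (hDneg.mul hDneg)
  have hev : ∀ᶠ N in atTop, ∀ i, ∀ k ∈ F i, eta (xx N * q i k) ≤ 1 / 2 := by
    rw [eventually_all]
    intro i
    rw [Filter.eventually_all_finset]
    intro k hk
    exact eventually_eta_le _ (hqpos i k hk)
  obtain ⟨N₀, hN₀⟩ := Filter.eventually_atTop.1 hev
  have hDi1 : ∀ N, N₀ ≤ N → ∀ i, 1 ≤ Di i N := by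
    intro N hN i
    have h1 : ∀ k ∈ F i, 1 ≤ dd (xx N * q i k) := fun k hk =>
      one_le_dd (mul_pos (xx_pos N) (hqpos i k hk)) (hN₀ N hN i k hk)
    rw [hDi]
    calc (1 : ℝ) = ∏ k ∈ F i, 1 := by rw [Finset.prod_const_one]
      _ ≤ _ := Finset.prod_le_prod (fun _ _ => zero_le_one) h1
  have hDiD : ∀ N, N₀ ≤ N → ∀ i, Di i N ≤ D N := by
    intro N hN i
    have h1 := Finset.single_le_sum (f := fun i => Di i N - 1)
      (fun j _ => sub_nonneg.2 (hDi1 N hN j)) (mem_univ i)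
    have h2 : D N = 1 + ∑ i, (Di i N - 1) := rfl
    rw [h2]
    have h3 : Di i N - 1 ≤ ∑ i, (Di i N - 1) := h1
    linarith
  have hD1 : ∀ N, N₀ ≤ N → 1 ≤ D N := fun N hN => (hDi1 N hN i₀).trans (hDiD N hN i₀)
  -- the marginals
  have hmarg : ∀ N, N₀ ≤ N → ∀ i t,
      |(∑' h : {h : HH a // h.1 i = t}, w N h.1) - κ N * φ N t| ≤
        (D N ^ 2 - 1) * κ N * φ N t := by
    intro N hN i t
    refine marg_real (fun t => ∑' h : {h : HH a // h.1 i = t}, w N h.1) (φ N)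
      (Th B (jj emb (HHi a i)) (xx N) 0) (Di i N) (D N) (T N) (Z N) (hDi1 N hN i) (hDiD N hN i)
      (fun t => tsum_nonneg fun h => (hw0 N h.1).le) (hφ0 N) 0 (fun t => ?_)
      (hasSum_fiber (w N) (hws N) fun h : HH a => h.1 i) (hφsum N).hasSum
      (by linarith [hZ1 N]) t
    exact marg_aux emb a hsurj B hsymm hpos β v hv1 hv2 hB i (b i) (F i) (hbF i) (hsp i) (xx_pos N)
      (fun k hk => lt_of_le_of_lt (hN₀ N hN i k hk) (by norm_num)) (w N) (fun h => rfl) (hws N) t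
  -- growth
  obtain ⟨C₃, hC₃, hsmall⟩ := exists_small emb ω bas hbas a hsurj
    (fun i => ⟨j₀ i, hj₀ i, u i, hu i⟩) ρ hz
  set ρ' : ℝ := (1 + ρ) / 2 with hρ'
  have hρ'0 : 0 < ρ' := by rw [hρ']; linarith
  have hρ'1 : ρ' < 1 := by rw [hρ']; linarith
  have hρρ' : 0 < ρ' - ρ := by rw [hρ']; linarith
  set T₀ : ℝ := max (C₃ / (ρ' - ρ)) (1 / ρ') with hT₀
  have hT₀1 : 1 ≤ ρ' * T₀ := by
    have h1 : 1 / ρ' ≤ T₀ := le_max_right _ _
    rw [div_le_iff₀ hρ'0] at h1
    linarith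
  have hT₀pos : 0 < T₀ := lt_of_lt_of_le (by positivity) (le_max_right _ _)
  have hfin : ∀ r, {t | ht t ≤ r}.Finite := finite_of_summable ht R₁ hR₁
  have hsh : ∀ i t, T₀ < ht t → ∃ h : HH a, h.1 i = t ∧ ∀ j, j ≠ i → ht (h.1 j) ≤ ρ' * ht t := by
    intro i t hlt
    obtain ⟨x, hx, hxi, hxj⟩ := hsmall i t
    refine ⟨⟨x, hx⟩, hxi, fun j hj => (hxj j hj).trans ?_⟩
    have h1 : C₃ / (ρ' - ρ) ≤ ‖emb t‖ := (le_max_left _ _).trans hlt.le
    rw [div_le_iff₀ hρρ'] at h1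
    change ρ * ‖emb t‖ + C₃ ≤ ρ' * ‖emb t‖
    linarith
  refine exists_measure (fun i (h : HH a) => h.1 i) ht T₀ hfin ?_ ?_ h₀
  · intro i t hlt
    obtain ⟨h, h1, h2⟩ := hsh i t hlt
    refine ⟨h, h1, fun j hj => lt_of_le_of_lt (h2 j hj) ?_⟩
    have h3 : 0 < ht t := hT₀pos.trans hlt
    nlinarith
  · intro g hg0 hg h₁
    obtain ⟨A, B₀, hB₀, hgr⟩ := growth (fun i (h : HH a) => h.1 i) ht T₀ ρ' hρ'0 hρ'1 hT₀1 hfin hsh
      g hg0 hg
    refine average (fun i (h : HH a) => h.1 i) ht (fun N => w (N + N₀)) (fun N => φ (N + N₀))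
      (fun N => κ (N + N₀)) (fun N => D (N + N₀) ^ 2 - 1) (fun N h => (hw0 _ h).le)
      (fun N t => (hφ0 _ t).le) (fun N => hκ0 _) ?_ ?_ ?_ ?_ ?_ ?_ g hg0 hg A B₀ hB₀ hgr h₁
    · intro N
      have := hD1 (N + N₀) (Nat.le_add_left _ _)
      nlinarith
    · intro h
      have h1 : Tendsto (fun N => w N h) atTop (𝓝 1) := by
        have h2 : Tendsto (fun N : ℕ => -π * xx N * B (jj emb (HH a) h) (jj emb (HH a) h)) atTop
            (𝓝 (-π * 0 * B (jj emb (HH a) h) (jj emb (HH a) h))) := by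
          refine (Tendsto.const_mul _ ?_).mul_const _
          have h3 : Tendsto (fun n : ℕ => (1 / ((n : ℝ) + 1)) ^ 2) atTop (𝓝 (0 ^ 2)) :=
            tendsto_one_div_add_atTop_nhds_zero_nat.pow 2
          rw [zero_pow two_ne_zero] at h3
          refine h3.congr fun N => ?_
          unfold xx
          rw [div_pow, one_pow]
        rw [mul_zero, zero_mul] at h2
        have h4 := (Real.continuous_exp.tendsto 0).comp h2
        rw [Real.exp_zero] at h4
        exact h4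
      exact (tendsto_add_atTop_iff_nat N₀).2 h1
    · intro N i t
      exact (hws (N + N₀)).comp_injective (i := fun h : {h : HH a // h.1 i = t} => h.1)
            Subtype.val_injective
    · intro N i t
      exact hmarg (N + N₀) (Nat.le_add_left _ _) i t
    · intro A' N
      obtain ⟨C, k, hC, h⟩ := hφs A'
      exact (h (N + N₀)).1
    · intro A'
      obtain ⟨C, k, hC, h⟩ := hφs A'
      have h1 : Tendsto (fun N => (D N ^ 2 - 1) * κ N * ∑' t, (max 1 (ht t)) ^ A' * φ N t) atTop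
          (𝓝 0) := by
        have h2 : Tendsto (fun N : ℕ => (C₂ * C) * (((N : ℝ) + 1) ^ (k₂ + k) * (D N ^ 2 - 1)))
            atTop (𝓝 0) := by
          have := (hεneg (k₂ + k)).const_mul (C₂ * C)
          rwa [mul_zero] at this
        refine squeeze_zero' ?_ ?_ h2
        · filter_upwards [eventually_ge_atTop N₀] with N hN
          have h3 := hD1 N hN
          have h4 : 0 ≤ D N ^ 2 - 1 := by nlinarith
          have h5 : 0 ≤ ∑' t, (max 1 (ht t)) ^ A' * φ N t := tsum_nonneg fun t =>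
            mul_nonneg (pow_nonneg (le_max_of_le_left zero_le_one) _) (hφ0 N t).le
          exact mul_nonneg (mul_nonneg h4 (hκ0 N)) h5
        · filter_upwards [eventually_ge_atTop N₀] with N hN
          have h3 := hD1 N hN
          have h4 : 0 ≤ D N ^ 2 - 1 := by nlinarith
          have h5 : 0 ≤ ∑' t, (max 1 (ht t)) ^ A' * φ N t := tsum_nonneg fun t =>
            mul_nonneg (pow_nonneg (le_max_of_le_left zero_le_one) _) (hφ0 N t).le
          have hN1 : (0 : ℝ) < (N : ℝ) + 1 := by positivity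
          calc (D N ^ 2 - 1) * κ N * ∑' t, (max 1 (ht t)) ^ A' * φ N t
              ≤ (D N ^ 2 - 1) * (C₂ * ((N : ℝ) + 1) ^ k₂) * (C * ((N : ℝ) + 1) ^ k) := by
                apply mul_le_mul _ (h N).2 h5 (by positivity)
                exact mul_le_mul_of_nonneg_left ((hκle N).trans (hTle N)) h4
            _ = _ := by rw [pow_add]; ring
      exact (tendsto_add_atTop_iff_nat N₀).2 h1

end

end Pool.Agent.K4H16.Smyth
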