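import Mathlib

/-!
# Closed polygons with given side lengths
-/

set_option autoImplicit false
set_option linter.unusedSectionVars false

namespace Pool.Agent.K4H16.Smyth

open Finset Complex

/-- Greedy choice of signs. -/
theorem exists_signs {ι : Type*} [DecidableEq ι] (s : Finset ι) (r : ι → ℝ) (R : ℝ) (hR : 0 ≤ R)
    (h0 : ∀ i ∈ s, 0 ≤ r i) (h1 : ∀ i ∈ s, r i ≤ R) :
    ∃ σ : ι → ℝ, (∀ i, σ i = 1 ∨ σ i = -1) ∧ |∑ i ∈ s, r i * σ i| ≤ R := by
  induction s using Finset.induction_on with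
  | empty => exact ⟨fun _ => 1, fun _ => Or.inl rfl, by simpa using hR⟩
  | @insert a s ha ih =>
    obtain ⟨σ, hσ, hs⟩ := ih (fun i hi => h0 i (Finset.mem_insert_of_mem hi))
      (fun i hi => h1 i (Finset.mem_insert_of_mem hi))
    have hra0 := h0 a (Finset.mem_insert_self _ _)
    have hra1 := h1 a (Finset.mem_insert_self _ _)
    have hsum : ∀ x : ℝ, ∑ i ∈ insert a s, r i * (Function.update σ a x) i =
        r a * x + ∑ i ∈ s, r i * σ i := by
      intro x
      rw [Finset.sum_insert ha, Function.update_self]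
      congr 1
      refine Finset.sum_congr rfl fun i hi => ?_
      rw [Function.update_of_ne]
      rintro rfl
      exact ha hi
    rw [abs_le] at hs
    rcases le_total 0 (∑ i ∈ s, r i * σ i) with h | h
    · refine ⟨Function.update σ a (-1), fun i => ?_, ?_⟩
      · by_cases hi : i = a
        · subst hi; rw [Function.update_self]; exact Or.inr rfl
        · rw [Function.update_of_ne hi]; exact hσ i
      · rw [hsum, abs_le]
        constructor <;> linarith [hs.1, hs.2]
    · refine ⟨Function.update σ a 1, fun i => ?_, ?_⟩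
      · by_cases hi : i = a
        · subst hi; rw [Function.update_self]; exact Or.inl rfl
        · rw [Function.update_of_ne hi]; exact hσ i
      · rw [hsum, abs_le]
        constructor <;> linarith [hs.1, hs.2]

/-- The polygon inequality is sufficient. -/
theorem exists_polygon {ι : Type*} [Fintype ι] [DecidableEq ι] (r : ι → ℝ) (h0 : ∀ i, 0 ≤ r i)
    (h1 : ∀ i, r i ≤ ∑ j ∈ univ.erase i, r j) :
    ∃ u : ι → ℂ, (∀ i, ‖u i‖ = 1) ∧ ∑ i, (r i : ℂ) * u i = 0 := by
  rcases isEmpty_or_nonempty ι with he | hne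
  · exact ⟨fun _ => 1, fun i => (he.false i).elim, by simp⟩
  obtain ⟨i₀, -, hmax⟩ := Finset.exists_max_image univ r univ_nonempty
  set J := univ.erase i₀ with hJ
  by_cases hr : r i₀ = 0
  · have hz : ∀ i, r i = 0 := fun i => le_antisymm ((hmax i (mem_univ i)).trans hr.le) (h0 i)
    exact ⟨fun _ => 1, fun i => by simp, by simp [hz]⟩
  have hr' : 0 < r i₀ := lt_of_le_of_ne (h0 i₀) (Ne.symm hr)
  set f : (ι → ℝ) → ℝ := fun θ => ‖∑ j ∈ J, (r j : ℂ) * exp (θ j * I)‖ with hf
  have hcont : Continuous f := by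
    rw [hf]
    fun_prop
  have hhigh : r i₀ ≤ f 0 := by
    have h2 : f 0 = ∑ j ∈ J, r j := by
      simp only [hf, Pi.zero_apply, ofReal_zero, zero_mul, exp_zero, mul_one]
      rw [← ofReal_sum, norm_real, Real.norm_eq_abs, abs_of_nonneg (Finset.sum_nonneg fun j _ => h0 j)]
    rw [h2]
    exact h1 i₀
  obtain ⟨σ, hσ, hσs⟩ := exists_signs J r (r i₀) (h0 i₀) (fun i _ => h0 i)
    (fun i _ => hmax i (mem_univ i))
  have hlow : f (fun j => if σ j = 1 then 0 else Real.pi) ≤ r i₀ := by
    have h2 : ∀ j, exp (((if σ j = 1 then 0 else Real.pi : ℝ) : ℂ) * I) = (σ j : ℂ) := by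
      intro j
      rcases hσ j with h | h
      · rw [if_pos h, h]; simp
      · rw [if_neg (by rw [h]; norm_num), h, exp_pi_mul_I]; simp
    have h3 : f (fun j => if σ j = 1 then 0 else Real.pi) = |∑ j ∈ J, r j * σ j| := by
      simp only [hf, h2]
      rw [← Real.norm_eq_abs, ← norm_real]
      push_cast
      rfl
    rw [h3]
    exact hσs
  obtain ⟨θ, hθ⟩ : r i₀ ∈ Set.range f :=
    mem_range_of_exists_le_of_exists_ge hcont ⟨_, hlow⟩ ⟨_, hhigh⟩
  set S : ℂ := ∑ j ∈ J, (r j : ℂ) * exp (θ j * I) with hS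
  have hSn : ‖S‖ = r i₀ := hθ
  refine ⟨fun i => if i = i₀ then -S / r i₀ else exp (θ i * I), fun i => ?_, ?_⟩
  · by_cases hi : i = i₀
    · simp only [hi, if_true]
      rw [norm_div, norm_neg, hSn, norm_real, Real.norm_eq_abs, abs_of_pos hr', div_self hr]
    · simp only [hi, if_false]
      exact norm_exp_ofReal_mul_I _
  · rw [← Finset.add_sum_erase _ _ (mem_univ i₀)]
    simp only [if_true]
    have h4 : ∑ x ∈ univ.erase i₀, (r x : ℂ) * (if x = i₀ then -S / r i₀ else exp (θ x * I)) = S := by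
      rw [hS]
      refine Finset.sum_congr rfl fun j hj => ?_
      rw [if_neg (Finset.ne_of_mem_erase hj)]
    rw [h4]
    have h5 : (r i₀ : ℂ) ≠ 0 := by exact_mod_cast hr
    field_simp
    ring

end Pool.Agent.K4H16.Smyth
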