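import Mathlib
import Pool.Agent.K4H16.Smyth.Poly

/-!
# The local Gaussian form
-/

set_option autoImplicit false
set_option linter.unusedSectionVars false

namespace Pool.Agent.K4H16.Smyth

open Finset Matrix

theorem exists_alpha_beta {𝕜 : Type*} [RCLike 𝕜] {ι : Type*} [Fintype ι] [DecidableEq ι]
    (a : ι → 𝕜) (d : ι → ℝ) (hd : ∀ i, 0 ≤ d i)
    (h : ∀ i, ‖a i‖ * √(d i) ≤ ∑ j ∈ univ.erase i, ‖a j‖ * √(d j)) :
    ∃ α β : ι → 𝕜, a ⬝ᵥ α = 0 ∧ a ⬝ᵥ β = 0 ∧ ∀ i, ‖α i‖ ^ 2 + ‖β i‖ ^ 2 = d i := by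
  obtain ⟨u, hu1, hu2⟩ := exists_polygon (fun i => ‖a i‖ * √(d i))
    (fun i => mul_nonneg (norm_nonneg _) (Real.sqrt_nonneg _)) h
  set s : ι → 𝕜 := fun i => (√(d i) : 𝕜) *
    (if a i = 0 then 1 else star (a i) / (‖a i‖ : 𝕜)) with hs
  have hsn : ∀ i, ‖s i‖ = √(d i) := by
    intro i
    rw [hs]
    simp only
    rw [norm_mul, RCLike.norm_ofReal, abs_of_nonneg (Real.sqrt_nonneg _)]
    split_ifs with h0
    · rw [norm_one, mul_one]
    · have h1 : ‖a i‖ ≠ 0 := norm_ne_zero_iff.2 h0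
      rw [norm_div, norm_star, RCLike.norm_ofReal, abs_of_nonneg (norm_nonneg _), div_self h1,
        mul_one]
  have has : ∀ i, a i * s i = ((‖a i‖ * √(d i) : ℝ) : 𝕜) := by
    intro i
    rw [hs]
    simp only
    split_ifs with h0
    · rw [h0]; simp
    · have h1 : (‖a i‖ : 𝕜) ≠ 0 := by
        rw [Ne, RCLike.ofReal_eq_zero]; exact norm_ne_zero_iff.2 h0
      have h2 : a i * star (a i) = (‖a i‖ : 𝕜) ^ 2 := RCLike.mul_conj (a i)
      rw [RCLike.ofReal_mul]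
      field_simp
      linear_combination (√(d i) : 𝕜) * h2
  refine ⟨fun i => s i * ((u i).re : 𝕜), fun i => s i * ((u i).im : 𝕜), ?_, ?_, fun i => ?_⟩
  · have h3 := congrArg Complex.re hu2
    rw [Complex.re_sum] at h3
    simp only [dotProduct, ← mul_assoc, has]
    simp only [Complex.re_ofReal_mul, Complex.zero_re] at h3
    rw [← RCLike.ofReal_zero, ← h3, RCLike.ofReal_sum]
    refine Finset.sum_congr rfl fun i _ => ?_
    rw [← RCLike.ofReal_mul]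
  · have h3 := congrArg Complex.im hu2
    rw [Complex.im_sum] at h3
    simp only [dotProduct, ← mul_assoc, has]
    simp only [Complex.im_ofReal_mul, Complex.zero_im] at h3
    rw [← RCLike.ofReal_zero, ← h3, RCLike.ofReal_sum]
    refine Finset.sum_congr rfl fun i _ => ?_
    rw [← RCLike.ofReal_mul]
  · change ‖s i * ((u i).re : 𝕜)‖ ^ 2 + ‖s i * ((u i).im : 𝕜)‖ ^ 2 = d i
    rw [norm_mul (s i), norm_mul (s i), hsn, RCLike.norm_ofReal, RCLike.norm_ofReal, mul_pow, mul_pow, sq_abs,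
      sq_abs, ← mul_add, Real.sq_sqrt (hd i)]
    have h4 : (u i).re ^ 2 + (u i).im ^ 2 = 1 := by
      have h5 := Complex.sq_norm (u i)
      rw [hu1, Complex.normSq_apply] at h5
      nlinarith
    rw [h4, mul_one]

/-- A uniform ratio `< 1` in the strict polygon inequalities. -/
theorem exists_ratio {ι : Type*} [Fintype ι] [DecidableEq ι] (r : ι → ℝ)
    (h : ∀ i, r i < ∑ j ∈ univ.erase i, r j) :
    ∃ l : ℝ, 0 < l ∧ l < 1 ∧ ∀ i, 0 ≤ ∑ j ∈ univ.erase i, r j → r i ≤ l * ∑ j ∈ univ.erase i, r j := by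
  have hloc : ∀ i, ∃ l : ℝ, 0 < l ∧ l < 1 ∧
      (0 ≤ ∑ j ∈ univ.erase i, r j → r i ≤ l * ∑ j ∈ univ.erase i, r j) := by
    intro i
    by_cases h0 : 0 < ∑ j ∈ univ.erase i, r j
    · refine ⟨max (1 / 2) (r i / ∑ j ∈ univ.erase i, r j), by positivity, ?_, fun _ => ?_⟩
      · rw [max_lt_iff]
        exact ⟨by norm_num, (div_lt_one h0).2 (h i)⟩
      · calc r i = (r i / ∑ j ∈ univ.erase i, r j) * ∑ j ∈ univ.erase i, r j := by
              field_simp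
          _ ≤ _ := mul_le_mul_of_nonneg_right (le_max_right _ _) h0.le
    · refine ⟨1 / 2, by norm_num, by norm_num, fun h1 => ?_⟩
      have h2 : ∑ j ∈ univ.erase i, r j = 0 := le_antisymm (not_lt.1 h0) h1
      rw [h2, mul_zero]
      have := h i
      rw [h2] at this
      exact this.le
  choose l hl0 hl1 hl2 using hloc
  rcases isEmpty_or_nonempty ι with he | hne
  · exact ⟨1 / 2, by norm_num, by norm_num, fun i => (he.false i).elim⟩
  obtain ⟨i₀, -, hmax⟩ := Finset.exists_max_image univ l univ_nonempty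
  refine ⟨l i₀, hl0 i₀, hl1 i₀, fun i h0 => ?_⟩
  exact (hl2 i h0).trans (mul_le_mul_of_nonneg_right (hmax i (mem_univ i)) h0)

theorem local_form {𝕜 : Type*} [RCLike 𝕜] {ι : Type*} [Fintype ι] [DecidableEq ι]
    (a : ι → 𝕜) (ha : ∀ i, ‖a i‖ < ∑ j ∈ univ.erase i, ‖a j‖) :
    ∃ (B : LinearMap.BilinForm ℝ (ι → 𝕜)) (v : ι → 𝕜 →ₗ[ℝ] (ι → 𝕜)),
      (∀ x y, B x y = B y x) ∧ (∀ x, x ≠ 0 → 0 < B x x) ∧
      (∀ i t, v i t i = t) ∧ (∀ i t, a ⬝ᵥ v i t = 0) ∧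
      (∀ i t x, a ⬝ᵥ x = 0 → B x (v i t) = RCLike.re (star (x i) * t)) := by
  classical
  rcases isEmpty_or_nonempty ι with he | hne
  · refine ⟨0, fun _ => 0, fun _ _ => rfl, fun x hx => (hx (Subsingleton.elim _ _)).elim,
      fun i => (he.false i).elim, fun i => (he.false i).elim, fun i => (he.false i).elim⟩
  obtain ⟨l, hl0, hl1, hl⟩ := exists_ratio (fun i => ‖a i‖) ha
  replace hl : ∀ i, ‖a i‖ ≤ l * ∑ j ∈ univ.erase i, ‖a j‖ := fun i =>
    hl i (Finset.sum_nonneg fun _ _ => norm_nonneg _)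
  set s2 : ℝ := ∑ i, ‖a i‖ ^ 2 with hs2
  have hs2pos : 0 < s2 := by
    obtain ⟨i⟩ := hne
    have h1 : 0 < ∑ j ∈ univ.erase i, ‖a j‖ := lt_of_le_of_lt (norm_nonneg _) (ha i)
    obtain ⟨j, -, hj⟩ := Finset.exists_ne_zero_of_sum_ne_zero h1.ne'
    refine Finset.sum_pos' (fun i _ => by positivity) ⟨j, mem_univ j, ?_⟩
    have : 0 < ‖a j‖ := lt_of_le_of_ne (norm_nonneg _) (Ne.symm hj)
    positivity
  set ε : ℝ := 1 - l ^ 2 with hε
  have hε0 : 0 < ε := by rw [hε]; nlinarith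
  have hε1 : ε ≤ 1 := by rw [hε]; nlinarith [sq_nonneg l]
  set d : ι → ℝ := fun i => 1 - ε * (1 - ‖a i‖ ^ 2 / s2) with hd
  have hale : ∀ i, ‖a i‖ ^ 2 / s2 ≤ 1 := fun i => by
    rw [div_le_one hs2pos]
    exact Finset.single_le_sum (f := fun i => ‖a i‖ ^ 2) (fun _ _ => by positivity) (mem_univ i)
  have hage : ∀ i, 0 ≤ ‖a i‖ ^ 2 / s2 := fun i => by positivity
  have hdl : ∀ i, l ^ 2 ≤ d i := fun i => by
    rw [hd]; simp only
    nlinarith [hage i, hale i]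
  have hdu : ∀ i, d i ≤ 1 := fun i => by
    rw [hd]; simp only
    nlinarith [hage i, hale i]
  have hd0 : ∀ i, 0 ≤ d i := fun i => (sq_nonneg l).trans (hdl i)
  obtain ⟨α, β, hα, hβ, hαβ⟩ := exists_alpha_beta a d hd0 (by
    intro i
    calc ‖a i‖ * √(d i) ≤ ‖a i‖ * 1 := by
          apply mul_le_mul_of_nonneg_left _ (norm_nonneg _)
          rw [Real.sqrt_le_one]; exact hdu i
      _ ≤ l * ∑ j ∈ univ.erase i, ‖a j‖ := by rw [mul_one]; exact hl i
      _ ≤ ∑ j ∈ univ.erase i, ‖a j‖ * √(d j) := by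
          rw [Finset.mul_sum]
          refine Finset.sum_le_sum fun j _ => ?_
          rw [mul_comm]
          apply mul_le_mul_of_nonneg_left _ (norm_nonneg _)
          rw [← Real.sqrt_sq hl0.le]
          exact Real.sqrt_le_sqrt (hdl j))
  -- the matrices
  set p : Matrix ι ι 𝕜 := ((s2⁻¹ : ℝ) : 𝕜) • vecMulVec (star a) a with hp
  set M₀ : Matrix ι ι 𝕜 := vecMulVec α (star α) + vecMulVec β (star β) with hM₀
  set G : Matrix ι ι 𝕜 := M₀ + (ε : 𝕜) • (1 - p) with hG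
  set G' : Matrix ι ι 𝕜 := G + p with hG'
  have hs2c : (s2 : 𝕜) ≠ 0 := by rw [Ne, RCLike.ofReal_eq_zero]; exact hs2pos.ne'
  have haa : a ⬝ᵥ star a = (s2 : 𝕜) := by
    rw [hs2, RCLike.ofReal_sum]
    unfold dotProduct
    refine Finset.sum_congr rfl fun i _ => ?_
    rw [RCLike.ofReal_pow]
    exact RCLike.mul_conj (a i)
  have hstar : ∀ x y : ι → 𝕜, star x ⬝ᵥ star y = star (y ⬝ᵥ x) := fun x y => by
    rw [Matrix.star_dotProduct_star]
  have hpp : p * p = p := by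
    rw [hp, smul_mul_smul_comm, vecMulVec_mul_vecMulVec, haa, vecMulVec_smul, smul_smul]
    congr 1
    rw [RCLike.ofReal_inv]
    field_simp
  have hMp : M₀ * p = 0 := by
    rw [hM₀, hp, mul_smul_comm, add_mul, vecMulVec_mul_vecMulVec, vecMulVec_mul_vecMulVec, hstar,
      hstar, hα, hβ, star_zero, zero_smul, vecMulVec_zero, vecMulVec_zero, add_zero, smul_zero]
  have hpM : p * M₀ = 0 := by
    rw [hM₀, hp, smul_mul_assoc, mul_add, vecMulVec_mul_vecMulVec, vecMulVec_mul_vecMulVec, hα, hβ,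
      zero_smul, zero_smul, vecMulVec_zero, add_zero, smul_zero]
  have hGp : G * p = 0 := by
    rw [hG, add_mul, hMp, smul_mul_assoc, sub_mul, one_mul, hpp, sub_self, smul_zero, add_zero]
  have hpG : p * G = 0 := by
    rw [hG, mul_add, hpM, mul_smul_comm, mul_sub, mul_one, hpp, sub_self, smul_zero, add_zero]
  have hG'p : G' * p = p := by rw [hG', add_mul, hGp, hpp, zero_add]
  have hherm : ∀ x y : ι → 𝕜, star (G' *ᵥ x) ⬝ᵥ y = star x ⬝ᵥ (G' *ᵥ y) := by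
    intro x y
    have hH : G'ᴴ = G' := by
      rw [hG', hG, hM₀, hp]
      simp only [conjTranspose_add, conjTranspose_smul, conjTranspose_sub, conjTranspose_one,
        conjTranspose_vecMulVec, star_star, RCLike.star_def, RCLike.conj_ofReal]
    rw [star_mulVec, hH, ← dotProduct_mulVec]
  have hquad : ∀ x : ι → 𝕜, ε * ∑ i, ‖x i‖ ^ 2 ≤ RCLike.re (star x ⬝ᵥ (G' *ᵥ x)) := by
    intro x
    have hv : ∀ u w : ι → 𝕜, star x ⬝ᵥ (vecMulVec u w *ᵥ x) = (star x ⬝ᵥ u) * (w ⬝ᵥ x) := by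
      intro u w
      rw [vecMulVec_mulVec]
      simp only [dotProduct_smul, op_smul_eq_smul, smul_eq_mul]
      ring
    have hn : ∀ z : 𝕜, RCLike.re (star z * z) = ‖z‖ ^ 2 := by
      intro z
      have : star z * z = ((‖z‖ ^ 2 : ℝ) : 𝕜) := by
        rw [RCLike.ofReal_pow]; exact RCLike.conj_mul z
      rw [this, RCLike.ofReal_re]
    have h1 : RCLike.re (star x ⬝ᵥ (vecMulVec α (star α) *ᵥ x)) = ‖star α ⬝ᵥ x‖ ^ 2 := by
      rw [hv, ← hn]
      congr 2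
      rw [← hstar, star_star, dotProduct_comm]
    have h2 : RCLike.re (star x ⬝ᵥ (vecMulVec β (star β) *ᵥ x)) = ‖star β ⬝ᵥ x‖ ^ 2 := by
      rw [hv, ← hn]
      congr 2
      rw [← hstar, star_star, dotProduct_comm]
    have h3 : RCLike.re (star x ⬝ᵥ (p *ᵥ x)) = s2⁻¹ * ‖a ⬝ᵥ x‖ ^ 2 := by
      rw [hp, smul_mulVec, dotProduct_smul, hv, smul_eq_mul, RCLike.re_ofReal_mul, ← hn]
      congr 3
      rw [hstar]
    have h4 : RCLike.re (star x ⬝ᵥ x) = ∑ i, ‖x i‖ ^ 2 := by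
      unfold dotProduct
      rw [map_sum]
      exact Finset.sum_congr rfl fun i _ => hn (x i)
    have h5 : star x ⬝ᵥ (G' *ᵥ x) = star x ⬝ᵥ (vecMulVec α (star α) *ᵥ x) +
        star x ⬝ᵥ (vecMulVec β (star β) *ᵥ x) +
        (ε : 𝕜) * (star x ⬝ᵥ x - star x ⬝ᵥ (p *ᵥ x)) + star x ⬝ᵥ (p *ᵥ x) := by
      rw [hG', hG, hM₀]
      simp only [add_mulVec, smul_mulVec, sub_mulVec, one_mulVec, dotProduct_add, dotProduct_smul,
        dotProduct_sub, smul_eq_mul]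
    rw [h5, map_add, map_add, map_add, RCLike.re_ofReal_mul, map_sub, h1, h2, h3, h4]
    have h6 : 0 ≤ s2⁻¹ * ‖a ⬝ᵥ x‖ ^ 2 := by positivity
    nlinarith [sq_nonneg ‖star α ⬝ᵥ x‖, sq_nonneg ‖star β ⬝ᵥ x‖]
  have hpos : ∀ x : ι → 𝕜, x ≠ 0 → 0 < RCLike.re (star x ⬝ᵥ (G' *ᵥ x)) := by
    intro x hx
    refine lt_of_lt_of_le (mul_pos hε0 ?_) (hquad x)
    obtain ⟨i, hi⟩ := Function.ne_iff.1 hx
    refine Finset.sum_pos' (fun i _ => by positivity) ⟨i, mem_univ i, ?_⟩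
    have : 0 < ‖x i‖ := norm_pos_iff.2 hi
    positivity
  have hunit : IsUnit G' := by
    rw [← Matrix.mulVec_injective_iff_isUnit]
    intro x y hxy
    by_contra hne'
    have h1 := hpos (x - y) (sub_ne_zero.2 hne')
    have hxy' : G' *ᵥ x = G' *ᵥ y := hxy
    rw [mulVec_sub, hxy', sub_self, dotProduct_zero, map_zero] at h1
    exact lt_irrefl _ h1
  have hdet : IsUnit G'.det := (Matrix.isUnit_iff_isUnit_det _).1 hunit
  have hinv1 : G' * G'⁻¹ = 1 := Matrix.mul_nonsing_inv _ hdet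
  have hinv2 : G'⁻¹ * G' = 1 := Matrix.nonsing_inv_mul _ hdet
  have hinvp : G'⁻¹ * p = p := by
    calc G'⁻¹ * p = G'⁻¹ * (G' * p) := by rw [hG'p]
      _ = p := by rw [← mul_assoc, hinv2, one_mul]
  have hinvG : G'⁻¹ * G = 1 - p := by
    have h1 : G = G' - p := by rw [hG']; abel
    rw [h1, mul_sub, hinv2, hinvp]
  let B : LinearMap.BilinForm ℝ (ι → 𝕜) := LinearMap.mk₂ ℝ
    (fun x y => RCLike.re (star x ⬝ᵥ (G'⁻¹ *ᵥ y)))
    (fun x x' y => by simp only [star_add, add_dotProduct, map_add])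
    (fun r x y => by
      simp only [star_smul, smul_dotProduct, star_trivial, RCLike.smul_re, smul_eq_mul])
    (fun x y y' => by simp only [mulVec_add, dotProduct_add, map_add])
    (fun r x y => by
      simp only [mulVec_smul, dotProduct_smul, RCLike.smul_re, smul_eq_mul])
  have hB : ∀ x y, B x y = RCLike.re (star x ⬝ᵥ (G'⁻¹ *ᵥ y)) := fun x y => rfl
  have hsurj : ∀ x : ι → 𝕜, G' *ᵥ (G'⁻¹ *ᵥ x) = x := fun x => by
    rw [mulVec_mulVec, hinv1, one_mulVec]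
  let v : ι → 𝕜 →ₗ[ℝ] (ι → 𝕜) := fun i =>
    { toFun := fun t => G *ᵥ Pi.single i t
      map_add' := fun s t => by rw [Pi.single_add, mulVec_add]
      map_smul' := fun r t => by
        rw [Pi.single_smul, RingHom.id_apply]
        rw [mulVec_smul] }
  have hv : ∀ i t, v i t = G *ᵥ Pi.single i t := fun i t => rfl
  refine ⟨B, v, fun x y => ?_, fun x hx => ?_, fun i t => ?_, fun i t => ?_, fun i t x hx => ?_⟩
  · -- symmetry
    rw [hB, hB]
    have h1 : star x ⬝ᵥ (G'⁻¹ *ᵥ y) = star (star y ⬝ᵥ (G'⁻¹ *ᵥ x)) := by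
      calc star x ⬝ᵥ (G'⁻¹ *ᵥ y) = star (G' *ᵥ (G'⁻¹ *ᵥ x)) ⬝ᵥ (G'⁻¹ *ᵥ y) := by rw [hsurj]
        _ = star (G'⁻¹ *ᵥ x) ⬝ᵥ (G' *ᵥ (G'⁻¹ *ᵥ y)) := hherm _ _
        _ = star (G'⁻¹ *ᵥ x) ⬝ᵥ y := by rw [hsurj]
        _ = star (star y ⬝ᵥ (G'⁻¹ *ᵥ x)) := by rw [← hstar, star_star]
    rw [h1]
    exact RCLike.conj_re _
  · -- positivity
    rw [hB]
    have h1 : star x ⬝ᵥ (G'⁻¹ *ᵥ x) = star (G'⁻¹ *ᵥ x) ⬝ᵥ (G' *ᵥ (G'⁻¹ *ᵥ x)) := by
      calc star x ⬝ᵥ (G'⁻¹ *ᵥ x) = star (G' *ᵥ (G'⁻¹ *ᵥ x)) ⬝ᵥ (G'⁻¹ *ᵥ x) := by rw [hsurj]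
        _ = _ := hherm _ _
    rw [h1]
    apply hpos
    intro h0
    apply hx
    rw [← hsurj x, h0, mulVec_zero]
  · rw [hv]
    rw [mulVec_single]
    simp only [col_apply, Pi.smul_apply, op_smul_eq_smul, smul_eq_mul]
    have h1 : G i i = 1 := by
      rw [hG, hM₀, hp]
      simp only [Matrix.add_apply, Matrix.smul_apply, Matrix.sub_apply, vecMulVec_apply,
        one_apply_eq, Pi.star_apply, smul_eq_mul]
      have h2 : α i * star (α i) = ((‖α i‖ ^ 2 : ℝ) : 𝕜) := by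
        rw [RCLike.ofReal_pow]; exact RCLike.mul_conj _
      have h3 : β i * star (β i) = ((‖β i‖ ^ 2 : ℝ) : 𝕜) := by
        rw [RCLike.ofReal_pow]; exact RCLike.mul_conj _
      have h4 : star (a i) * a i = ((‖a i‖ ^ 2 : ℝ) : 𝕜) := by
        rw [RCLike.ofReal_pow]; exact RCLike.conj_mul _
      rw [h2, h3, h4, ← RCLike.ofReal_mul, ← RCLike.ofReal_one, ← RCLike.ofReal_sub,
        ← RCLike.ofReal_mul, ← RCLike.ofReal_add, ← RCLike.ofReal_add, hαβ, hd]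
      congr 1
      simp only
      field_simp
      ring
    rw [h1]
    simp
  · rw [hv]
    have h1 : p *ᵥ (G *ᵥ Pi.single i t) = 0 := by
      rw [mulVec_mulVec, hpG, zero_mulVec]
    have h2 : ∀ y : ι → 𝕜, p *ᵥ y = 0 → a ⬝ᵥ y = 0 := by
      intro y hy
      have h3 : a ⬝ᵥ (p *ᵥ y) = a ⬝ᵥ y := by
        rw [hp, smul_mulVec, vecMulVec_mulVec]
        simp only [dotProduct_smul, op_smul_eq_smul, smul_eq_mul]
        rw [haa, RCLike.ofReal_inv]
        field_simp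
      rw [hy, dotProduct_zero] at h3
      exact h3.symm
    exact h2 _ h1
  · rw [hB, hv, mulVec_mulVec, hinvG, sub_mulVec, one_mulVec, dotProduct_sub]
    have h1 : star x ⬝ᵥ (p *ᵥ Pi.single i t) = 0 := by
      rw [hp, smul_mulVec, vecMulVec_mulVec]
      simp only [dotProduct_smul, op_smul_eq_smul, smul_eq_mul]
      rw [hstar, hx, star_zero]
      simp
    rw [h1, sub_zero, dotProduct_single]
    rfl

end Pool.Agent.K4H16.Smyth
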