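import Mathlib
import Pool.Agent.K4H16.Smyth.Local

/-!
# Local data put together over all archimedean places
-/

set_option autoImplicit false
set_option linter.unusedSectionVars false

namespace Pool.Agent.K4H16.Smyth

open Finset Filter Topology

section

variable {ι : Type*} [Fintype ι] [DecidableEq ι]

theorem local_z {𝕜 : Type*} [RCLike 𝕜] (a : ι → 𝕜) (l : ℝ)
    (h : ∀ i, ‖a i‖ ≤ l * ∑ j ∈ univ.erase i, ‖a j‖)
    (hpos : ∀ i, 0 < ∑ j ∈ univ.erase i, ‖a j‖) (i : ι) (t : 𝕜) :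
    ∃ z : ι → 𝕜, z i = t ∧ ∑ j, a j * z j = 0 ∧ ∀ j, j ≠ i → ‖z j‖ ≤ l * ‖t‖ := by
  set S : ℝ := ∑ j ∈ univ.erase i, ‖a j‖ with hS
  have hS0 : 0 < S := hpos i
  have hSc : (S : 𝕜) ≠ 0 := by rw [Ne, RCLike.ofReal_eq_zero]; exact hS0.ne'
  have hl0 : 0 ≤ l := by
    by_contra hneg
    push Not at hneg
    have h1 := h i
    have h2 : l * S < 0 := mul_neg_of_neg_of_pos hneg hS0
    linarith [norm_nonneg (a i)]
  refine ⟨fun j => if j = i then t else -(a i * t * star (a j)) / ((‖a j‖ : 𝕜) * (S : 𝕜)),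
    if_pos rfl, ?_, ?_⟩
  · rw [← Finset.add_sum_erase univ _ (mem_univ i)]
    simp only [if_true]
    have h1 : ∀ j ∈ univ.erase i, a j * (if j = i then t else
        -(a i * t * star (a j)) / ((‖a j‖ : 𝕜) * (S : 𝕜))) = -(a i * t) / (S : 𝕜) * (‖a j‖ : 𝕜) := by
      intro j hj
      rw [if_neg (Finset.ne_of_mem_erase hj)]
      by_cases hj0 : a j = 0
      · rw [hj0]; simp
      · have hn : (‖a j‖ : 𝕜) ≠ 0 := by
          rw [Ne, RCLike.ofReal_eq_zero, norm_eq_zero]; exact hj0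
        have h2 : a j * star (a j) = (‖a j‖ : 𝕜) ^ 2 := by
          rw [RCLike.star_def, RCLike.mul_conj]
        field_simp
        linear_combination -(a i * t) * h2
    rw [Finset.sum_congr rfl h1, ← Finset.mul_sum, ← RCLike.ofReal_sum]
    change a i * t + -(a i * t) / (S : 𝕜) * (S : 𝕜) = 0
    field_simp
    ring
  · intro j hj
    simp only [if_neg hj]
    by_cases hj0 : a j = 0
    · rw [hj0]; simp; positivity
    · have hn : 0 < ‖a j‖ := norm_pos_iff.2 hj0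
      rw [norm_div, norm_neg, norm_mul, norm_mul, norm_star, norm_mul, RCLike.norm_ofReal,
        RCLike.norm_ofReal, abs_of_pos hS0, abs_of_pos hn, div_le_iff₀ (by positivity)]
      have h3 := h i
      change ‖a i‖ ≤ l * S at h3
      calc ‖a i‖ * ‖t‖ * ‖a j‖ ≤ (l * S) * ‖t‖ * ‖a j‖ := by
            apply mul_le_mul_of_nonneg_right _ hn.le
            exact mul_le_mul_of_nonneg_right h3 (norm_nonneg _)
        _ = _ := by ring

theorem exists_rho {P : Type*} [Finite P] (l : P → ℝ) (hl : ∀ p, l p < 1) :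
    ∃ ρ : ℝ, 0 < ρ ∧ ρ < 1 ∧ ∀ p, l p ≤ ρ := by
  have h1 : ∀ᶠ ρ in 𝓝[<] (1 : ℝ), ∀ p, l p ≤ ρ := by
    rw [eventually_all]
    intro p
    have : Set.Ioo (l p) 1 ∈ 𝓝[<] (1 : ℝ) := Ioo_mem_nhdsLT (hl p)
    filter_upwards [this] with x hx using hx.1.le
  have h2 : ∀ᶠ ρ in 𝓝[<] (1 : ℝ), 0 < ρ ∧ ρ < 1 := by
    have : Set.Ioo (0 : ℝ) 1 ∈ 𝓝[<] (1 : ℝ) := Ioo_mem_nhdsLT one_pos
    filter_upwards [this] with x hx using ⟨hx.1, hx.2⟩
  obtain ⟨ρ, h3, h4⟩ := (h1.and h2).exists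
  exact ⟨ρ, h4.1, h4.2, h3⟩

variable {R C : Type*} [Fintype R] [Fintype C]

theorem mixed_z (a : ι → (R → ℝ) × (C → ℂ))
    (h1 : ∀ r i, ‖(a i).1 r‖ < ∑ j ∈ univ.erase i, ‖(a j).1 r‖)
    (h2 : ∀ c i, ‖(a i).2 c‖ < ∑ j ∈ univ.erase i, ‖(a j).2 c‖) :
    ∃ ρ : ℝ, 0 < ρ ∧ ρ < 1 ∧ ∀ i (t : (R → ℝ) × (C → ℂ)), ∃ z : ι → (R → ℝ) × (C → ℂ),
      z i = t ∧ ∑ j, a j * z j = 0 ∧ ∀ j, j ≠ i → ‖z j‖ ≤ ρ * ‖t‖ := by
  choose l₁ hl₁0 hl₁1 hl₁ using fun r => exists_ratio (fun i => ‖(a i).1 r‖) (h1 r)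
  choose l₂ hl₂0 hl₂1 hl₂ using fun c => exists_ratio (fun i => ‖(a i).2 c‖) (h2 c)
  obtain ⟨ρ, hρ0, hρ1, hρ⟩ := exists_rho (Sum.elim l₁ l₂) (by
    rintro (r | c)
    · exact hl₁1 r
    · exact hl₂1 c)
  refine ⟨ρ, hρ0, hρ1, fun i t => ?_⟩
  have hp1 : ∀ r i, 0 < ∑ j ∈ univ.erase i, ‖(a j).1 r‖ := fun r i =>
    lt_of_le_of_lt (norm_nonneg _) (h1 r i)
  have hp2 : ∀ c i, 0 < ∑ j ∈ univ.erase i, ‖(a j).2 c‖ := fun c i =>
    lt_of_le_of_lt (norm_nonneg _) (h2 c i)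
  choose z₁ hz₁ hz₁' hz₁'' using fun r => local_z (fun i => (a i).1 r) ρ
    (fun i => (hl₁ r i (hp1 r i).le).trans
      (mul_le_mul_of_nonneg_right (hρ (Sum.inl r)) (hp1 r i).le)) (hp1 r) i (t.1 r)
  choose z₂ hz₂ hz₂' hz₂'' using fun c => local_z (fun i => (a i).2 c) ρ
    (fun i => (hl₂ c i (hp2 c i).le).trans
      (mul_le_mul_of_nonneg_right (hρ (Sum.inr c)) (hp2 c i).le)) (hp2 c) i (t.2 c)
  refine ⟨fun j => (fun r => z₁ r j, fun c => z₂ c j), ?_, ?_, ?_⟩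
  · refine Prod.ext (funext fun r => hz₁ r) (funext fun c => hz₂ c)
  · refine Prod.ext (funext fun r => ?_) (funext fun c => ?_)
    · have := hz₁' r
      rw [Prod.fst_sum, Finset.sum_apply]
      exact this
    · have := hz₂' c
      rw [Prod.snd_sum, Finset.sum_apply]
      exact this
  · intro j hj
    have hρt : 0 ≤ ρ * ‖t‖ := by positivity
    rw [Prod.norm_def]
    refine max_le ?_ ?_
    · rw [pi_norm_le_iff_of_nonneg hρt]
      intro r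
      refine (hz₁'' r j hj).trans (mul_le_mul_of_nonneg_left ?_ hρ0.le)
      exact (norm_le_pi_norm t.1 r).trans (norm_fst_le t)
    · rw [pi_norm_le_iff_of_nonneg hρt]
      intro c
      refine (hz₂'' c j hj).trans (mul_le_mul_of_nonneg_left ?_ hρ0.le)
      exact (norm_le_pi_norm t.2 c).trans (norm_snd_le t)

theorem local_form' {𝕜 : Type*} [RCLike 𝕜] 
    (a : ι → 𝕜) (ha : ∀ i, ‖a i‖ < ∑ j ∈ univ.erase i, ‖a j‖) :
    ∃ (B : LinearMap.BilinForm ℝ (ι → 𝕜)) (v : ι → 𝕜 → (ι → 𝕜)),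
      (∀ x y, B x y = B y x) ∧ (∀ x, x ≠ 0 → 0 < B x x) ∧
      (∀ i t, v i t i = t) ∧ (∀ i t, ∑ j, a j * v i t j = 0) ∧
      (∀ i x, ∑ j, a j * x j = 0 →
        B x x = ‖x i‖ ^ 2 + B (x - v i (x i)) (x - v i (x i))) := by
  obtain ⟨B, v, h1, h2, h3, h4, h5⟩ := local_form a ha
  refine ⟨B, fun i t => v i t, h1, h2, h3, h4, fun i x hx => ?_⟩
  have h6 := h5 i (x i) x hx
  have h7 := h5 i (x i) (v i (x i)) (h4 i (x i))
  rw [h3] at h7
  have h8 : RCLike.re (star (x i) * x i) = ‖x i‖ ^ 2 := by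
    rw [RCLike.star_def, RCLike.conj_mul, ← RCLike.ofReal_pow, RCLike.ofReal_re]
  rw [h8] at h6 h7
  simp only [map_sub, LinearMap.sub_apply]
  rw [h1 (v i (x i)) x, h6, h7]
  ring

/-- Coordinates at a place. -/
def cr (r : R) : (ι → (R → ℝ) × (C → ℂ)) →ₗ[ℝ] (ι → ℝ) where
  toFun := fun x i => (x i).1 r
  map_add' := fun _ _ => rfl
  map_smul' := fun _ _ => rfl

/-- Coordinates at a place. -/
def cc (c : C) : (ι → (R → ℝ) × (C → ℂ)) →ₗ[ℝ] (ι → ℂ) where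
  toFun := fun x i => (x i).2 c
  map_add' := fun _ _ => rfl
  map_smul' := fun _ _ => rfl

theorem mixed_form (a : ι → (R → ℝ) × (C → ℂ))
    (h1 : ∀ r i, ‖(a i).1 r‖ < ∑ j ∈ univ.erase i, ‖(a j).1 r‖)
    (h2 : ∀ c i, ‖(a i).2 c‖ < ∑ j ∈ univ.erase i, ‖(a j).2 c‖) :
    ∃ (B : LinearMap.BilinForm ℝ (ι → (R → ℝ) × (C → ℂ))) (β : (R → ℝ) × (C → ℂ) → ℝ)
      (v : ι → (R → ℝ) × (C → ℂ) → (ι → (R → ℝ) × (C → ℂ))),
      (∀ x y, B x y = B y x) ∧ (∀ x, x ≠ 0 → 0 < B x x) ∧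
      (∀ i t, v i t i = t) ∧ (∀ i t, ∑ j, a j * v i t j = 0) ∧
      (∀ i (x : ι → (R → ℝ) × (C → ℂ)), ∑ j, a j * x j = 0 →
        B x x = β (x i) + B (x - v i (x i)) (x - v i (x i))) := by
  choose B₁ v₁ hs₁ hp₁ hv₁ hv₁' hB₁ using fun r => local_form' (fun i => (a i).1 r) (h1 r)
  choose B₂ v₂ hs₂ hp₂ hv₂ hv₂' hB₂ using fun c => local_form' (fun i => (a i).2 c) (h2 c)
  let B : LinearMap.BilinForm ℝ (ι → (R → ℝ) × (C → ℂ)) :=
    ∑ r, (B₁ r).compl₁₂ (cr r) (cr r) + ∑ c, (B₂ c).compl₁₂ (cc c) (cc c)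
  have hBapp : ∀ x y, B x y = ∑ r, B₁ r (cr r x) (cr r y) + ∑ c, B₂ c (cc c x) (cc c y) := by
    intro x y
    simp only [B, LinearMap.add_apply, LinearMap.sum_apply, LinearMap.compl₁₂_apply]
  have hcr : ∀ r x i, cr (C := C) (ι := ι) (R := R) r x i = (x i).1 r := fun _ _ _ => rfl
  have hcc : ∀ c x i, cc (C := C) (ι := ι) (R := R) c x i = (x i).2 c := fun _ _ _ => rfl
  have hnn₁ : ∀ r x, 0 ≤ B₁ r x x := by
    intro r x
    by_cases hx : x = 0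
    · rw [hx, map_zero]
    · exact (hp₁ r x hx).le
  have hnn₂ : ∀ c x, 0 ≤ B₂ c x x := by
    intro c x
    by_cases hx : x = 0
    · rw [hx, map_zero]
    · exact (hp₂ c x hx).le
  refine ⟨B, fun t => ∑ r, ‖t.1 r‖ ^ 2 + ∑ c, ‖t.2 c‖ ^ 2,
    fun i t j => (fun r => v₁ r i (t.1 r) j, fun c => v₂ c i (t.2 c) j), ?_, ?_, ?_, ?_, ?_⟩
  · intro x y
    rw [hBapp, hBapp]
    congr 1
    · exact Finset.sum_congr rfl fun r _ => hs₁ r _ _
    · exact Finset.sum_congr rfl fun c _ => hs₂ c _ _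
  · intro x hx
    rw [hBapp]
    have hn1 : 0 ≤ ∑ r, B₁ r (cr r x) (cr r x) := Finset.sum_nonneg fun r _ => hnn₁ r _
    have hn2 : 0 ≤ ∑ c, B₂ c (cc c x) (cc c x) := Finset.sum_nonneg fun c _ => hnn₂ c _
    by_cases h3 : ∃ r, cr r x ≠ 0
    · obtain ⟨r, hr⟩ := h3
      have : 0 < ∑ r, B₁ r (cr r x) (cr r x) :=
        Finset.sum_pos' (fun r _ => hnn₁ r _) ⟨r, mem_univ r, hp₁ r _ hr⟩
      linarith
    · push Not at h3
      have h4 : ∃ c, cc c x ≠ 0 := by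
        by_contra h5
        push Not at h5
        apply hx
        funext i
        refine Prod.ext (funext fun r => ?_) (funext fun c => ?_)
        · exact congrFun (h3 r) i
        · exact congrFun (h5 c) i
      obtain ⟨c, hc⟩ := h4
      have : 0 < ∑ c, B₂ c (cc c x) (cc c x) :=
        Finset.sum_pos' (fun c _ => hnn₂ c _) ⟨c, mem_univ c, hp₂ c _ hc⟩
      linarith
  · intro i t
    exact Prod.ext (funext fun r => hv₁ r i _) (funext fun c => hv₂ c i _)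
  · intro i t
    refine Prod.ext (funext fun r => ?_) (funext fun c => ?_)
    · have := hv₁' r i (t.1 r)
      rw [Prod.fst_sum, Finset.sum_apply]
      exact this
    · have := hv₂' c i (t.2 c)
      rw [Prod.snd_sum, Finset.sum_apply]
      exact this
  · intro i x hx
    rw [hBapp, hBapp]
    have h3 : ∀ r, ∑ j, (a j).1 r * (x j).1 r = 0 := by
      intro r
      have := congrFun (congrArg Prod.fst hx) r
      rw [Prod.fst_sum, Finset.sum_apply] at this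
      exact this
    have h4 : ∀ c, ∑ j, (a j).2 c * (x j).2 c = 0 := by
      intro c
      have := congrFun (congrArg Prod.snd hx) c
      rw [Prod.snd_sum, Finset.sum_apply] at this
      exact this
    have h5 : ∀ r, B₁ r (cr r x) (cr r x) = ‖(x i).1 r‖ ^ 2 +
        B₁ r (cr r x - v₁ r i ((x i).1 r)) (cr r x - v₁ r i ((x i).1 r)) := fun r =>
      hB₁ r i (cr r x) (h3 r)
    have h6 : ∀ c, B₂ c (cc c x) (cc c x) = ‖(x i).2 c‖ ^ 2 +
        B₂ c (cc c x - v₂ c i ((x i).2 c)) (cc c x - v₂ c i ((x i).2 c)) := fun c =>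
      hB₂ c i (cc c x) (h4 c)
    rw [Finset.sum_congr rfl fun r _ => h5 r, Finset.sum_congr rfl fun c _ => h6 c,
      Finset.sum_add_distrib, Finset.sum_add_distrib]
    have h7 : ∀ r, cr r (x - fun j => (fun r => v₁ r i ((x i).1 r) j,
        fun c => v₂ c i ((x i).2 c) j)) = cr r x - v₁ r i ((x i).1 r) := fun r => rfl
    have h8 : ∀ c, cc c (x - fun j => (fun r => v₁ r i ((x i).1 r) j,
        fun c => v₂ c i ((x i).2 c) j)) = cc c x - v₂ c i ((x i).2 c) := fun c => rfl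
    simp only [h7, h8]
    ring

end

end Pool.Agent.K4H16.Smyth
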