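import Mathlib
import Pool.Agent.K4H16.Smyth.Abs3
import Pool.Agent.K4H16.Smyth.Mix

/-!
# Measures with equal marginals: number fields
-/

set_option autoImplicit false
set_option linter.unusedSectionVars false

namespace Pool.Agent.K4H16.Smyth

open Finset Filter Topology Real NumberField NumberField.InfinitePlace IsDedekindDomain
open scoped NumberField

section Surj

variable {R K : Type*} [CommRing R] [IsDedekindDomain R] [Field K] [Algebra R K]
  [IsFractionRing R K] {ι : Type*} [Fintype ι] [DecidableEq ι]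

/-- the ideal of the `i`-th coordinates of the solutions -/
def QQ (a : ι → R) (i : ι) : Ideal R where
  carrier := {y | ∃ x : ι → R, x i = y ∧ ∑ j, a j * x j = 0}
  zero_mem' := ⟨0, rfl, by simp⟩
  add_mem' := by
    rintro y z ⟨x, hx, hx'⟩ ⟨w, hw, hw'⟩
    refine ⟨x + w, by rw [Pi.add_apply, hx, hw], ?_⟩
    simp only [Pi.add_apply, mul_add, Finset.sum_add_distrib]
    rw [hx', hw', add_zero]
  smul_mem' := by
    rintro c y ⟨x, hx, hx'⟩
    refine ⟨c • x, by rw [Pi.smul_apply, hx], ?_⟩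
    have : ∑ j, a j * (c • x) j = c * ∑ j, a j * x j := by
      rw [Finset.mul_sum]
      refine Finset.sum_congr rfl fun j _ => ?_
      rw [Pi.smul_apply, smul_eq_mul]; ring
    rw [this, hx', mul_zero]

theorem two_term (a : ι → R) {i j : ι} (hj : j ≠ i) (d n : R) (h : a i * d = n * a j) :
    d ∈ QQ a i := by
  refine ⟨Pi.single i d - Pi.single j n, ?_, ?_⟩
  · rw [Pi.sub_apply, Pi.single_eq_same, Pi.single_eq_of_ne hj.symm, sub_zero]
  · simp only [Pi.sub_apply, mul_sub, Finset.sum_sub_distrib]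
    rw [Finset.sum_eq_single i, Finset.sum_eq_single j]
    · rw [Pi.single_eq_same, Pi.single_eq_same, h]; ring
    · intro m _ hm; rw [Pi.single_eq_of_ne hm, mul_zero]
    · intro h; exact absurd (mem_univ _) h
    · intro m _ hm; rw [Pi.single_eq_of_ne hm, mul_zero]
    · intro h; exact absurd (mem_univ _) h

theorem hsurj_of_valuation (a : ι → R)
    (hna : ∀ v : HeightOneSpectrum R, ∀ i, ∃ j, j ≠ i ∧
      v.valuation K (algebraMap R K (a i)) ≤ v.valuation K (algebraMap R K (a j)))
    (hex : ∀ i, ∃ j, j ≠ i ∧ a j ≠ 0) (i : ι) (t : R) :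
    ∃ x : ι → R, x i = t ∧ ∑ j, a j * x j = 0 := by
  have h0 : t ∈ QQ a i := by
    suffices h : QQ a i = ⊤ by rw [h]; trivial
    by_contra hne
    obtain ⟨P, hP, hQP⟩ := Ideal.exists_le_maximal _ hne
    obtain ⟨j₁, hj₁, haj₁⟩ := hex i
    have h1 : a j₁ ∈ QQ a i := two_term a hj₁ (a j₁) (a i) rfl
    have hPne : P ≠ ⊥ := by
      rintro rfl
      exact haj₁ (by simpa using hQP h1)
    let v : HeightOneSpectrum R := ⟨P, hP.isPrime, hPne⟩
    obtain ⟨j, hji, hv⟩ := hna v i
    by_cases haj : a j = 0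
    · rw [haj, map_zero, map_zero, le_zero_iff, map_eq_zero] at hv
      have hai : a i = 0 := (IsFractionRing.injective R K) (by rw [hv, map_zero])
      have h2 : (1 : R) ∈ QQ a i := two_term a hji 1 0 (by rw [hai]; ring)
      exact hP.ne_top ((Ideal.eq_top_iff_one _).2 (hQP h2))
    · have haj' : algebraMap R K (a j) ≠ 0 := by
        intro h; exact haj (IsFractionRing.injective R K (by rw [h, map_zero]))
      have hvj : v.valuation K (algebraMap R K (a j)) ≠ 0 := (Valuation.ne_zero_iff _).2 haj'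
      have hle : v.valuation K (algebraMap R K (a i) / algebraMap R K (a j)) ≤ 1 := by
        rw [map_div₀]
        exact div_le_one_of_le₀ hv zero_le'
      obtain ⟨n, d, hnd⟩ := v.exists_primeCompl_mul_eq_of_integer _ hle
      have h3 : a i * d = n * a j := by
        apply IsFractionRing.injective R K
        rw [map_mul, map_mul, ← hnd]
        field_simp
      exact d.2 (hQP (two_term a hji d n h3))
  exact h0

end Surj

variable {K : Type*} [Field K] [NumberField K] {ι : Type*} [Fintype ι] [DecidableEq ι]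

theorem norm_real (x : K) (w : {w : InfinitePlace K // IsReal w}) :
    ‖(mixedEmbedding K x).1 w‖ = w.1 x := by
  rw [← mixedEmbedding.normAtPlace_apply_of_isReal w.2, mixedEmbedding.normAtPlace_apply]

theorem norm_complex (x : K) (w : {w : InfinitePlace K // IsComplex w}) :
    ‖(mixedEmbedding K x).2 w‖ = w.1 x := by
  rw [← mixedEmbedding.normAtPlace_apply_of_isComplex w.2, mixedEmbedding.normAtPlace_apply]

theorem hex_of_arch (a : ι → 𝓞 K)
    (harch : ∀ v : InfinitePlace K, ∀ i, v (a i : K) < ∑ j ∈ univ.erase i, v (a j : K)) :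
    ∀ i, ∃ j, j ≠ i ∧ a j ≠ 0 := by
  intro i
  obtain ⟨v⟩ := (inferInstance : Nonempty (InfinitePlace K))
  have h1 : 0 < ∑ j ∈ univ.erase i, v (a j : K) := lt_of_le_of_lt (apply_nonneg _ _) (harch v i)
  obtain ⟨j, hj, hj'⟩ := Finset.exists_ne_zero_of_sum_ne_zero h1.ne'
  refine ⟨j, Finset.ne_of_mem_erase hj, fun h => hj' ?_⟩
  rw [h]
  simp

open Classical in
/-- Measures with equal marginals: number fields. -/
theorem nf_measure (a : ι → 𝓞 K)
    (harch : ∀ v : InfinitePlace K, ∀ i, v (a i : K) < ∑ j ∈ univ.erase i, v (a j : K))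
    (hna : ∀ v : HeightOneSpectrum (𝓞 K), ∀ i, ∃ j, j ≠ i ∧
      v.valuation K (a i : K) ≤ v.valuation K (a j : K)) (h₀ : HH a) :
    ∃ m : HH a →₀ ℝ, (∀ h, 0 ≤ m h) ∧ m h₀ ≠ 0 ∧
      ∀ i j t, (m.sum fun h r => if h.1 i = t then r else 0) =
        m.sum fun h r => if h.1 j = t then r else 0 := by
  rcases isEmpty_or_nonempty ι with he | hne
  · refine ⟨Finsupp.single h₀ 1, fun h => ?_, ?_, fun i => (he.false i).elim⟩
    · rw [Finsupp.single_apply]; split_ifs <;> norm_num
    · rw [Finsupp.single_eq_same]; exact one_ne_zero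
  have hex : ∀ i, ∃ j, j ≠ i ∧ a j ≠ 0 := hex_of_arch a harch
  set emb : 𝓞 K →+* mixedEmbedding.mixedSpace K := (mixedEmbedding K).comp (algebraMap (𝓞 K) K)
    with hemb
  have hinj : Function.Injective emb :=
    (mixedEmbedding_injective K).comp (FaithfulSMul.algebraMap_injective (𝓞 K) K)
  have h1 : ∀ (r : {w : InfinitePlace K // IsReal w}) (i : ι),
      ‖(emb (a i)).1 r‖ < ∑ j ∈ univ.erase i, ‖(emb (a j)).1 r‖ := by
    intro r i
    have := harch r.1 i
    simp only [hemb, RingHom.comp_apply, norm_real]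
    exact this
  have h2 : ∀ (r : {w : InfinitePlace K // IsComplex w}) (i : ι),
      ‖(emb (a i)).2 r‖ < ∑ j ∈ univ.erase i, ‖(emb (a j)).2 r‖ := by
    intro r i
    have := harch r.1 i
    simp only [hemb, RingHom.comp_apply, norm_complex]
    exact this
  obtain ⟨ρ, hρ0, hρ1, hz⟩ := mixed_z (fun i => emb (a i)) h1 h2
  obtain ⟨B, β, v, hs, hp, hv1, hv2, hB⟩ := mixed_form (fun i => emb (a i)) h1 h2
  refine abs_measure emb hinj
    (fun l : Module.Free.ChooseBasisIndex ℤ (𝓞 K) => RingOfIntegers.basis K l)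
    (mixedEmbedding.latticeBasis K) (fun l => ?_) (fun t => ?_) a
    (hsurj_of_valuation a hna hex) (fun i => ?_) ρ hρ0 hρ1 hz B hs hp β v hv1 hv2 hB h₀
  · rw [mixedEmbedding.latticeBasis_apply, integralBasis_apply]
    rfl
  · rw [mixedEmbedding.mem_span_latticeBasis]
    exact ⟨t, rfl⟩
  · obtain ⟨j, hj, haj⟩ := hex i
    refine ⟨j, hj, mixedEmbedding K ((algebraMap (𝓞 K) K (a j))⁻¹), ?_⟩
    rw [hemb, RingHom.comp_apply, ← map_mul, mul_inv_cancel₀, map_one]
    intro h
    exact haj ((FaithfulSMul.algebraMap_injective (𝓞 K) K) (by rw [h, map_zero]))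

end Pool.Agent.K4H16.Smyth
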