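import Mathlib

/-!
# Necessity
-/

set_option autoImplicit false
set_option linter.unusedSectionVars false

namespace Pool.Agent.K4H16.Smyth

open Finset NumberField IsDedekindDomain
open scoped NumberField

theorem triangle_eq {J : Type*} (s : Finset J) (z : J → ℂ) (r : J → ℝ) (w : ℂ) (hw : w ≠ 0)
    (hsum : ∑ j ∈ s, z j = w) (hz : ∀ j ∈ s, ‖z j‖ ≤ r j) (hr : ∑ j ∈ s, r j ≤ ‖w‖) :
    ∀ j ∈ s, z j = ((r j / ‖w‖ : ℝ) : ℂ) * w := by
  have hwn : 0 < ‖w‖ := norm_pos_iff.2 hw
  set u : ℂ := star w / (‖w‖ : ℂ) with hu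
  have hwc : (‖w‖ : ℂ) ≠ 0 := by exact_mod_cast hwn.ne'
  have huw : u * w = (‖w‖ : ℂ) := by
    have h1 : star w * w = (‖w‖ : ℂ) ^ 2 := by
      rw [RCLike.star_def, mul_comm, Complex.mul_conj, Complex.normSq_eq_norm_sq]
      push_cast
      rfl
    rw [hu, div_mul_eq_mul_div, h1]
    field_simp
  have hun : ‖u‖ = 1 := by
    rw [hu, norm_div, norm_star, Complex.norm_real, norm_norm, div_self hwn.ne']
  have hre : ∀ j ∈ s, (u * z j).re ≤ r j := by
    intro j hj
    refine (Complex.re_le_norm _).trans ?_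
    rw [norm_mul, hun, one_mul]
    exact hz j hj
  have hsumre : ∑ j ∈ s, (u * z j).re = ‖w‖ := by
    rw [← Complex.re_sum, ← Finset.mul_sum, hsum, huw, Complex.ofReal_re]
  have heq : ∀ j ∈ s, (u * z j).re = r j := by
    have h1 : ∑ j ∈ s, (u * z j).re = ∑ j ∈ s, r j :=
      le_antisymm (Finset.sum_le_sum hre) (by rw [hsumre]; exact hr)
    exact (Finset.sum_eq_sum_iff_of_le hre).1 h1
  intro j hj
  have h1 : u * z j = (r j : ℂ) := by
    have h2 : ‖u * z j‖ ≤ (u * z j).re := by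
      rw [heq j hj, norm_mul, hun, one_mul]; exact hz j hj
    have h3 := heq j hj
    have h4 : (u * z j).im = 0 := by
      have h5 : (u * z j).re ^ 2 + (u * z j).im ^ 2 = ‖u * z j‖ ^ 2 := by
        rw [← Complex.normSq_eq_norm_sq, Complex.normSq_apply]; ring
      have h6 : ‖u * z j‖ ^ 2 ≤ (u * z j).re ^ 2 := pow_le_pow_left₀ (norm_nonneg _) h2 2
      have h7 : (u * z j).im ^ 2 ≤ 0 := by linarith
      exact pow_eq_zero_iff (two_ne_zero) |>.1 (le_antisymm h7 (sq_nonneg _))
    apply Complex.ext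
    · rw [h3, Complex.ofReal_re]
    · rw [h4, Complex.ofReal_im]
  have hu0 : u ≠ 0 := by
    intro h
    rw [h, norm_zero] at hun
    exact zero_ne_one hun
  have h2 : z j = (r j : ℂ) / u := by
    rw [eq_div_iff hu0, mul_comm]; exact h1
  have h3 : w = (‖w‖ : ℂ) / u := by
    rw [eq_div_iff hu0, mul_comm]; exact huw
  have hwc' : (‖w‖ : ℂ) ≠ 0 := hwc
  calc z j = (r j : ℂ) / u := h2
    _ = ((r j / ‖w‖ : ℝ) : ℂ) * ((‖w‖ : ℂ) / u) := by push_cast; field_simp
    _ = _ := by rw [← h3]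

theorem root_of_finite {F : Type*} [Field F] (D : Set F) (hD : D.Finite) (d : F) (hd : d ∈ D)
    (h0 : (0 : F) ∉ D) (ε : F) (h : ∀ x ∈ D, ε * x ∈ D) : ∃ m : ℕ, 0 < m ∧ ε ^ m = 1 := by
  have h1 : ∀ k : ℕ, ε ^ k * d ∈ D := by
    intro k
    induction k with
    | zero => simpa using hd
    | succ k ih =>
      have := h _ ih
      rw [pow_succ']
      rwa [mul_assoc]
  have hd0 : d ≠ 0 := fun h => h0 (h ▸ hd)
  have hε : ε ≠ 0 := by
    rintro rfl
    have := h d hd
    rw [zero_mul] at this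
    exact h0 this
  have hfin : Finite D := hD
  obtain ⟨k, l, hkl, he⟩ := Finite.exists_ne_map_eq_of_infinite
    (fun k : ℕ => (⟨ε ^ k * d, h1 k⟩ : D))
  have he' : ε ^ k * d = ε ^ l * d := congrArg Subtype.val he
  have he'' : ε ^ k = ε ^ l := mul_right_cancel₀ hd0 he'
  rcases lt_or_gt_of_ne hkl with hlt | hlt
  · refine ⟨l - k, by omega, ?_⟩
    rw [pow_sub₀ _ hε hlt.le, ← he'', mul_inv_cancel₀ (pow_ne_zero _ hε)]
  · refine ⟨k - l, by omega, ?_⟩
    rw [pow_sub₀ _ hε hlt.le, he'', mul_inv_cancel₀ (pow_ne_zero _ hε)]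

universe u

variable {K : Type u} [Field K]

section conj

variable (K)

theorem finite_conj [CharZero K] (x : AlgebraicClosure K) :
    {y : AlgebraicClosure K | minpoly K y = minpoly K x}.Finite := by
  have hx : IsIntegral K x := Algebra.IsIntegral.isIntegral x
  refine ((minpoly K x).rootSet_finite (AlgebraicClosure K)).subset fun y hy => ?_
  have hy' : minpoly K y = minpoly K x := hy
  rw [Polynomial.mem_rootSet]
  refine ⟨minpoly.ne_zero hx, ?_⟩
  rw [← hy', minpoly.aeval]

theorem exists_conj [CharZero K] (x y : AlgebraicClosure K) (h : minpoly K x = minpoly K y) :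
    ∃ σ : AlgebraicClosure K ≃ₐ[K] AlgebraicClosure K, σ x = y := by
  have h1 := (Normal.minpoly_eq_iff_mem_orbit (E := AlgebraicClosure K) (F := K)
    (x := y) (y := x)).1 h.symm
  obtain ⟨σ, hσ⟩ := h1
  exact ⟨σ, hσ⟩

end conj

theorem arch_necessity [NumberField K] {ι : Type*} [Fintype ι] [DecidableEq ι] (a : ι → K)
    (α : ι → AlgebraicClosure K) (hα : ∀ i, α i ≠ 0)
    (hmin : ∀ i j, minpoly K (α i) = minpoly K (α j))
    (hsum : ∑ i, algebraMap K (AlgebraicClosure K) (a i) * α i = 0)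
    (v : InfinitePlace K) (i : ι) (hv : ∑ j ∈ univ.erase i, v (a j) ≤ v (a i)) :
    ∃ ω : ι → AlgebraicClosure K, (∀ i, ∃ m : ℕ, 0 < m ∧ ω i ^ m = 1) ∧
      ∑ i, algebraMap K (AlgebraicClosure K) (a i) * ω i = 0 := by
  classical
  by_cases hai : a i = 0
  · refine ⟨fun _ => 1, fun _ => ⟨1, one_pos, one_pow _⟩, ?_⟩
    have h1 : ∑ j ∈ univ.erase i, v (a j) = 0 := by
      apply le_antisymm
      · refine hv.trans ?_
        rw [hai, map_zero]
      · exact Finset.sum_nonneg fun _ _ => apply_nonneg _ _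
    have h2 := (Finset.sum_eq_zero_iff_of_nonneg fun _ _ => apply_nonneg _ _).1 h1
    refine Finset.sum_eq_zero fun j _ => ?_
    by_cases hj : j = i
    · rw [hj, hai, map_zero, zero_mul]
    · have h3 := h2 j (Finset.mem_erase.2 ⟨hj, mem_univ _⟩)
      rw [map_eq_zero] at h3
      rw [h3, map_zero, zero_mul]
  -- the embedding
  letI alg : Algebra K ℂ := v.embedding.toAlgebra
  let ψ : AlgebraicClosure K →ₐ[K] ℂ := IsAlgClosed.lift
  have hψ : ∀ x : K, ‖ψ (algebraMap K (AlgebraicClosure K) x)‖ = v x := by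
    intro x
    rw [ψ.commutes]
    exact InfinitePlace.norm_embedding_eq v x
  set C : Set (AlgebraicClosure K) := {y | minpoly K y = minpoly K (α i)} with hC
  have hCfin : C.Finite := finite_conj K (α i)
  have hCne : C.Nonempty := ⟨α i, rfl⟩
  obtain ⟨β₀, hβ₀, hmax⟩ := Set.exists_max_image C (fun y => ‖ψ y‖) hCfin hCne
  set M := ‖ψ β₀‖ with hM
  have hσC : ∀ (σ : AlgebraicClosure K ≃ₐ[K] AlgebraicClosure K) (j : ι), σ (α j) ∈ C := by
    intro σ j
    change minpoly K (σ (α j)) = _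
    rw [minpoly.algEquiv_eq]
    exact hmin j i
  have hMpos : 0 < M := by
    have h1 : ‖ψ (α i)‖ ≤ M := hmax (α i) rfl
    refine lt_of_lt_of_le ?_ h1
    rw [norm_pos_iff, Ne, map_eq_zero]
    exact hα i
  have hvi : 0 < v (a i) := by
    rw [← hψ, norm_pos_iff, Ne, map_eq_zero, map_eq_zero]
    exact hai
  -- the key relation
  have key : ∀ β ∈ C, ‖ψ β‖ = M → ∀ σ : AlgebraicClosure K ≃ₐ[K] AlgebraicClosure K,
      σ (α i) = β → ∀ j, j ≠ i → ψ (algebraMap K (AlgebraicClosure K) (a j)) * ψ (σ (α j)) =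
        ((v (a j) * M / (v (a i) * M) : ℝ) : ℂ) *
          (-(ψ (algebraMap K (AlgebraicClosure K) (a i)) * ψ β)) := by
    intro β hβ hβM σ hσ
    have h1 : ∑ j ∈ univ.erase i, ψ (algebraMap K (AlgebraicClosure K) (a j)) * ψ (σ (α j)) =
        -(ψ (algebraMap K (AlgebraicClosure K) (a i)) * ψ β) := by
      have h2 := congrArg ψ (congrArg σ hsum)
      simp only [map_sum, map_mul, map_zero, AlgEquiv.commutes] at h2
      rw [← Finset.add_sum_erase univ _ (mem_univ i), hσ] at h2
      exact (neg_eq_of_add_eq_zero_right h2).symm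
    have hwn : ‖-(ψ (algebraMap K (AlgebraicClosure K) (a i)) * ψ β)‖ = v (a i) * M := by
      rw [norm_neg, norm_mul, hψ, hβM]
    have h3 := triangle_eq (univ.erase i)
      (fun j => ψ (algebraMap K (AlgebraicClosure K) (a j)) * ψ (σ (α j)))
      (fun j => v (a j) * M) _ (by
        intro h0
        rw [h0, norm_zero] at hwn
        have : 0 < v (a i) * M := mul_pos hvi hMpos
        linarith) h1 (fun j _ => by
          rw [norm_mul, hψ]
          exact mul_le_mul_of_nonneg_left (hmax _ (hσC σ j)) (apply_nonneg _ _)) (by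
          rw [hwn, ← Finset.sum_mul]
          exact mul_le_mul_of_nonneg_right hv hMpos.le)
    intro j hj
    have h4 := h3 j (Finset.mem_erase.2 ⟨hj, mem_univ _⟩)
    rw [hwn] at h4
    exact h4
  set D : Set ℂ := ψ '' {β | β ∈ C ∧ ‖ψ β‖ = M} with hD
  have hDfin : D.Finite := (hCfin.subset fun x hx => hx.1).image _
  have hD0 : (0 : ℂ) ∉ D := by
    rintro ⟨β, ⟨-, h1⟩, h2⟩
    rw [h2, norm_zero] at h1
    linarith
  obtain ⟨σ₀, hσ₀⟩ := exists_conj K (α i) β₀ hβ₀.symm
  have hβ₀0 : β₀ ≠ 0 := by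
    rintro rfl
    rw [hM, map_zero, norm_zero] at hMpos
    exact lt_irrefl _ hMpos
  refine ⟨fun j => if a j = 0 then 1 else σ₀ (α j) / β₀, fun j => ?_, ?_⟩
  · change ∃ m : ℕ, 0 < m ∧ (if a j = 0 then 1 else σ₀ (α j) / β₀) ^ m = 1
    by_cases haj : a j = 0
    · rw [if_pos haj]; exact ⟨1, one_pos, one_pow _⟩
    rw [if_neg haj]
    by_cases hji : j = i
    · rw [hji, hσ₀, div_self hβ₀0]; exact ⟨1, one_pos, one_pow _⟩
    have haj' : ψ (algebraMap K (AlgebraicClosure K) (a j)) ≠ 0 := by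
      rw [Ne, map_eq_zero, map_eq_zero]
      exact haj
    have hvj : 0 < v (a j) := by rw [← hψ, norm_pos_iff]; exact haj'
    set ε : ℂ := -((v (a j) * M / (v (a i) * M) : ℝ) : ℂ) *
      (ψ (algebraMap K (AlgebraicClosure K) (a i)) /
        ψ (algebraMap K (AlgebraicClosure K) (a j))) with hε
    have hε1 : ‖ε‖ = 1 := by
      rw [hε, norm_mul, norm_neg, Complex.norm_real, norm_div (ψ _), hψ, hψ, Real.norm_eq_abs,
        abs_of_pos (by positivity)]
      field_simp
    have hrel : ∀ β ∈ C, ‖ψ β‖ = M → ∀ σ : AlgebraicClosure K ≃ₐ[K] AlgebraicClosure K,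
        σ (α i) = β → ψ (σ (α j)) = ε * ψ β := by
      intro β hβ hβM σ hσ
      have h1 := key β hβ hβM σ hσ j hji
      rw [hε]
      field_simp
      field_simp at h1
      linear_combination h1
    have hεroot : ∃ m : ℕ, 0 < m ∧ ε ^ m = 1 := by
      refine root_of_finite D hDfin (ψ β₀) ⟨β₀, ⟨hβ₀, rfl⟩, rfl⟩ hD0 ε ?_
      rintro x ⟨β, ⟨h1, h2⟩, rfl⟩
      obtain ⟨σ, hσ⟩ := exists_conj K (α i) β h1.symm
      have h3 := hrel β h1 h2 σ hσ
      refine ⟨σ (α j), ⟨hσC σ j, ?_⟩, h3⟩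
      rw [h3, norm_mul, hε1, one_mul, h2]
    obtain ⟨m, hm, hm1⟩ := hεroot
    refine ⟨m, hm, ?_⟩
    apply RingHom.injective (ψ : AlgebraicClosure K →+* ℂ)
    change ψ ((σ₀ (α j) / β₀) ^ m) = ψ 1
    have h3 := hrel β₀ hβ₀ rfl σ₀ hσ₀
    have h4 : ψ (σ₀ (α j) / β₀) = ε := by
      rw [map_div₀, h3, mul_div_assoc, div_self, mul_one]
      rw [Ne, map_eq_zero]
      exact hβ₀0
    rw [map_pow, h4, hm1, map_one]
  · have h2 := congrArg σ₀ hsum
    simp only [map_sum, map_mul, map_zero, AlgEquiv.commutes] at h2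
    have h3 : ∀ j, algebraMap K (AlgebraicClosure K) (a j) *
        (if a j = 0 then 1 else σ₀ (α j) / β₀) =
        (algebraMap K (AlgebraicClosure K) (a j) * σ₀ (α j)) * β₀⁻¹ := by
      intro j
      split_ifs with h
      · rw [h, map_zero, zero_mul, zero_mul, zero_mul]
      · rw [div_eq_mul_inv, mul_assoc]
    rw [Finset.sum_congr rfl fun j _ => h3 j, ← Finset.sum_mul, h2, zero_mul]

theorem nonarch_necessity {R : Type*} [CommRing R] [IsDedekindDomain R] [Algebra R K]
    [IsFractionRing R K] [CharZero K] {ι : Type*} [Fintype ι] [DecidableEq ι] (a : ι → K)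
    (α : ι → AlgebraicClosure K) (hα : ∀ i, α i ≠ 0)
    (hmin : ∀ i j, minpoly K (α i) = minpoly K (α j))
    (hsum : ∑ i, algebraMap K (AlgebraicClosure K) (a i) * α i = 0)
    (v : HeightOneSpectrum R) (i : ι)
    (hv : ∀ j, j ≠ i → v.valuation K (a j) < v.valuation K (a i)) (hai : a i ≠ 0) : False := by
  classical
  set A := (v.valuation K).valuationSubring with hA
  have hmemA : ∀ x : K, x ∈ A ↔ v.valuation K x ≤ 1 := fun x => Iff.rfl
  letI modA : Module A (AlgebraicClosure K) := Module.compHom (AlgebraicClosure K) A.subtype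
  have hsmul : ∀ (c : A) (x : AlgebraicClosure K), c • x = (c : K) • x := fun _ _ => rfl
  set C : Set (AlgebraicClosure K) := {y | minpoly K y = minpoly K (α i)} with hC
  have hCfin : C.Finite := finite_conj K (α i)
  have hσC : ∀ (σ : AlgebraicClosure K ≃ₐ[K] AlgebraicClosure K) (j : ι), σ (α j) ∈ C := by
    intro σ j
    change minpoly K (σ (α j)) = _
    rw [minpoly.algEquiv_eq]
    exact hmin j i
  set N : Submodule A (AlgebraicClosure K) := Submodule.span A C with hN
  have hNfg : N.FG := ⟨hCfin.toFinset, by rw [hCfin.coe_toFinset]⟩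
  have hvi : v.valuation K (a i) ≠ 0 := (Valuation.ne_zero_iff _).2 hai
  have hclt : ∀ j, j ≠ i → v.valuation K (-(a j) / a i) < 1 := by
    intro j hj
    rw [map_div₀, Valuation.map_neg]
    exact (div_lt_one₀ (zero_lt_iff.2 hvi)).2 (hv j hj)
  have hle : N ≤ IsLocalRing.maximalIdeal A • N := by
    rw [hN, Submodule.span_le]
    intro β hβ
    obtain ⟨σ, hσ⟩ := exists_conj K (α i) β hβ.symm
    have h1 : β = ∑ j ∈ univ.erase i, (-(a j) / a i) • σ (α j) := by
      have h2 := congrArg σ hsum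
      simp only [map_sum, map_mul, map_zero, AlgEquiv.commutes] at h2
      rw [← Finset.add_sum_erase univ _ (mem_univ i), hσ] at h2
      have hai' : algebraMap K (AlgebraicClosure K) (a i) ≠ 0 := by
        rw [Ne, map_eq_zero]
        exact hai
      have h3 : ∀ j, (-(a j) / a i) • σ (α j) = -((algebraMap K (AlgebraicClosure K) (a i))⁻¹ *
          (algebraMap K (AlgebraicClosure K) (a j) * σ (α j))) := by
        intro j
        rw [Algebra.smul_def, map_div₀, map_neg]
        field_simp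
      rw [Finset.sum_congr rfl fun j _ => h3 j, Finset.sum_neg_distrib, ← Finset.mul_sum,
        eq_neg_of_add_eq_zero_right h2]
      field_simp
    rw [h1]
    refine Submodule.sum_mem _ fun j hj => ?_
    have hji := Finset.ne_of_mem_erase hj
    have hcA : -(a j) / a i ∈ A := (hmemA _).2 (hclt j hji).le
    have h4 : (⟨-(a j) / a i, hcA⟩ : A) ∈ IsLocalRing.maximalIdeal A := by
      rw [IsLocalRing.mem_maximalIdeal, mem_nonunits_iff]
      intro hunit
      obtain ⟨b, hb⟩ := hunit.exists_right_inv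
      have h5 : (-(a j) / a i) * (b : K) = 1 := congrArg Subtype.val hb
      have h6 : v.valuation K (-(a j) / a i) * v.valuation K (b : K) = 1 := by
        rw [← map_mul, h5, map_one]
      have h7 : v.valuation K (b : K) ≤ 1 := (hmemA _).1 b.2
      have h8 : v.valuation K (-(a j) / a i) * v.valuation K (b : K) < 1 :=
        mul_lt_one_of_lt_of_le (hclt j hji) h7
      exact h8.ne h6
    exact Submodule.smul_mem_smul h4 (Submodule.subset_span (hσC σ j))
  have hbot := Submodule.eq_bot_of_le_smul_of_le_jacobson_bot _ N hNfg hle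
    (by rw [IsLocalRing.jacobson_eq_maximalIdeal ⊥ bot_ne_top])
  have h1 : α i ∈ N := Submodule.subset_span rfl
  rw [hbot, Submodule.mem_bot] at h1
  exact hα i h1

/-- Roots of unity. -/
theorem roots_perms {ι : Type*} [Fintype ι] (a : ι → K)
    (ω : ι → AlgebraicClosure K) (hω : ∀ i, ∃ m : ℕ, 0 < m ∧ ω i ^ m = 1)
    (hsum : ∑ i, algebraMap K (AlgebraicClosure K) (a i) * ω i = 0) :
    ∃ (I : Type u) (_ : Fintype I) (s : I → K) (π : ι → Equiv.Perm I), (∃ k, s k ≠ 0) ∧
      ∀ k, ∑ i, a i * s (π i k) = 0 := by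
  classical
  choose m hm hm1 using hω
  set N : ℕ := ∏ i, m i with hN
  have hNpos : 0 < N := Finset.prod_pos fun i _ => hm i
  have hωN : ∀ i, ω i ^ N = 1 := by
    intro i
    obtain ⟨e, he⟩ := Finset.dvd_prod_of_mem m (mem_univ i)
    rw [hN, he, pow_mul, hm1, one_pow]
  haveI : NeZero N := ⟨hNpos.ne'⟩
  have hω0 : ∀ i, ω i ≠ 0 := by
    intro i h
    have := hωN i
    rw [h, zero_pow hNpos.ne'] at this
    exact zero_ne_one this
  let W : ι → rootsOfUnity N (AlgebraicClosure K) := fun i =>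
    ⟨Units.mk0 (ω i) (hω0 i), by
      rw [mem_rootsOfUnity]
      apply Units.ext
      rw [Units.val_pow_eq_pow_val, Units.val_mk0, hωN, Units.val_one]⟩
  obtain ⟨l, hl⟩ := LinearMap.exists_leftInverse_of_injective
    (Algebra.linearMap K (AlgebraicClosure K)) (by
      rw [LinearMap.ker_eq_bot]
      exact FaithfulSMul.algebraMap_injective K (AlgebraicClosure K))
  refine ⟨rootsOfUnity N (AlgebraicClosure K), Fintype.ofFinite _,
    fun u => l ((u : (AlgebraicClosure K)ˣ) : AlgebraicClosure K), fun i => Equiv.mulLeft (W i),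
    ⟨1, ?_⟩, fun k => ?_⟩
  · have h1 := congrArg (fun f => f 1) hl
    simp only [LinearMap.comp_apply, Algebra.linearMap_apply, map_one, LinearMap.id_apply] at h1
    simp only [OneMemClass.coe_one, Units.val_one]
    rw [h1]
    exact one_ne_zero
  · have h1 : ∀ i, a i * l (((W i * k : rootsOfUnity N (AlgebraicClosure K)) :
        (AlgebraicClosure K)ˣ) : AlgebraicClosure K) =
        l ((algebraMap K (AlgebraicClosure K) (a i) * ω i) *
          ((k : (AlgebraicClosure K)ˣ) : AlgebraicClosure K)) := by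
      intro i
      rw [← smul_eq_mul, ← map_smul, Algebra.smul_def]
      congr 1
      rw [mul_assoc]
      rfl
    change ∑ i, a i * l (((W i * k : rootsOfUnity N (AlgebraicClosure K)) :
        (AlgebraicClosure K)ˣ) : AlgebraicClosure K) = 0
    rw [Finset.sum_congr rfl fun i _ => h1 i, ← map_sum, ← Finset.sum_mul, hsum, zero_mul,
      map_zero]

end Pool.Agent.K4H16.Smyth
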