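import Mathlib
import Pool.Agent.K4H16.Smyth.NF

/-!
# From measures with equal marginals to permutations
-/

set_option autoImplicit false
set_option linter.unusedSectionVars false

namespace Pool.Agent.K4H16.Smyth

open Finset Filter Topology

/-- Rational functionals that are positive on given positive numbers. -/
theorem exists_rat_functional (S : Finset ℝ) (hS : ∀ x ∈ S, 0 < x) :
    ∃ f : ℝ →ₗ[ℚ] ℚ, ∀ x ∈ S, 0 < f x := by
  set V : Submodule ℚ ℝ := Submodule.span ℚ (S : Set ℝ) with hV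
  have hfin : FiniteDimensional ℚ V := FiniteDimensional.span_finset ℚ S
  set b := Module.finBasis ℚ V with hb
  set d := Module.finrank ℚ V with hd
  have hmem : ∀ x ∈ S, x ∈ V := fun x hx => Submodule.subset_span hx
  have hexp : ∀ x : V, (x : ℝ) = ∑ k, ((b.repr x k : ℚ) : ℝ) * (b k : ℝ) := by
    intro x
    have h1 := congrArg (V.subtype) (b.sum_repr x)
    rw [map_sum] at h1
    simp only [map_smul, Submodule.subtype_apply] at h1
    rw [← h1]
    refine Finset.sum_congr rfl fun k _ => ?_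
    rw [Rat.smul_def]
  -- the open set
  set U : Set (Fin d → ℝ) := {y | ∀ x : S, 0 < ∑ k, ((b.repr ⟨x.1, hmem x.1 x.2⟩ k : ℚ) : ℝ) * y k}
    with hU
  have hUo : IsOpen U := by
    have h1 : U = ⋂ x : S, {y | 0 < ∑ k, ((b.repr ⟨x.1, hmem x.1 x.2⟩ k : ℚ) : ℝ) * y k} := by
      ext y
      simp only [hU, Set.mem_iInter]
      rfl
    rw [h1]
    refine isOpen_iInter_of_finite fun x => ?_
    exact isOpen_lt continuous_const (by fun_prop)
  have hUne : U.Nonempty := by
    refine ⟨fun k => (b k : ℝ), fun x => ?_⟩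
    rw [← hexp ⟨x.1, hmem x.1 x.2⟩]
    exact hS x.1 x.2
  have hdense : DenseRange (fun r : Fin d → ℚ => fun k => ((r k : ℚ) : ℝ)) :=
    DenseRange.piMap fun _ => Rat.denseRange_cast
  obtain ⟨r, hr⟩ := hdense.exists_mem_open hUo hUne
  obtain ⟨f, hf⟩ := LinearMap.exists_extend (b.constr ℚ r : V →ₗ[ℚ] ℚ)
  refine ⟨f, fun x hx => ?_⟩
  have h1 : f x = b.constr ℚ r ⟨x, hmem x hx⟩ := by
    rw [← hf]; rfl
  have h2 := hr ⟨x, hx⟩
  rw [h1, Module.Basis.constr_apply_fintype]
  have h3 : ((∑ k, b.equivFun ⟨x, hmem x hx⟩ k • r k : ℚ) : ℝ) =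
      ∑ k, ((b.repr ⟨x, hmem x hx⟩ k : ℚ) : ℝ) * ((r k : ℚ) : ℝ) := by
    push_cast
    refine Finset.sum_congr rfl fun k _ => ?_
    rw [Module.Basis.equivFun_apply, smul_eq_mul]
    push_cast
    ring
  have h4 : (0 : ℝ) < ((∑ k, b.equivFun ⟨x, hmem x hx⟩ k • r k : ℚ) : ℝ) := by
    rw [h3]; exact h2
  exact_mod_cast h4

/-- Integral weights. -/
theorem exists_nat_weights {ι H O : Type*} [DecidableEq O] (c : ι → H → O) (m : H →₀ ℝ)
    (hm : ∀ h, 0 ≤ m h)
    (heq : ∀ i j t, (m.sum fun h r => if c i h = t then r else 0) =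
        m.sum fun h r => if c j h = t then r else 0) :
    ∃ n : H → ℕ, (∀ h, n h ≠ 0 ↔ m h ≠ 0) ∧
      ∀ i j t, (∑ h ∈ m.support, if c i h = t then n h else 0) =
        ∑ h ∈ m.support, if c j h = t then n h else 0 := by
  classical
  obtain ⟨f, hf⟩ := exists_rat_functional (m.support.image m) (by
    intro x hx
    obtain ⟨h, hh, rfl⟩ := Finset.mem_image.1 hx
    exact lt_of_le_of_ne (hm h) (Ne.symm (Finsupp.mem_support_iff.1 hh)))
  have hfpos : ∀ h, m h ≠ 0 → 0 < f (m h) := fun h hh =>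
    hf _ (Finset.mem_image_of_mem _ (Finsupp.mem_support_iff.2 hh))
  set N : ℕ := ∏ h ∈ m.support, (f (m h)).den with hN
  have hNpos : 0 < N := Finset.prod_pos fun h _ => (f (m h)).den_pos
  have hint : ∀ h, ∃ k : ℕ, (k : ℚ) = N * f (m h) := by
    intro h
    by_cases hh : m h = 0
    · exact ⟨0, by rw [hh, map_zero]; simp⟩
    · have h1 : (f (m h)).den ∣ N :=
        Finset.dvd_prod_of_mem (fun h => (f (m h)).den) (Finsupp.mem_support_iff.2 hh)
      obtain ⟨e, he⟩ := h1
      have h2 : 0 < (f (m h)).num := Rat.num_pos.2 (hfpos h hh)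
      refine ⟨e * (f (m h)).num.toNat, ?_⟩
      have h3 : (((f (m h)).num.toNat : ℕ) : ℚ) = ((f (m h)).num : ℚ) := by
        have h4 : (((f (m h)).num.toNat : ℕ) : ℤ) = (f (m h)).num := Int.toNat_of_nonneg h2.le
        exact_mod_cast h4
      rw [he]
      push_cast
      rw [h3]
      have h5 := Rat.den_mul_eq_num (f (m h))
      rw [← h5]
      ring
  choose n hn using hint
  refine ⟨n, fun h => ?_, fun i j t => ?_⟩
  · have hN' : (N : ℚ) ≠ 0 := by exact_mod_cast hNpos.ne'
    constructor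
    · intro h1 h2
      apply h1
      have := hn h
      rw [h2, map_zero, mul_zero] at this
      exact_mod_cast this
    · intro h1 h2
      have := hn h
      rw [h2, Nat.cast_zero] at this
      exact (mul_pos (by exact_mod_cast hNpos) (hfpos h h1)).ne this
  · have key : ∀ i, ((∑ h ∈ m.support, if c i h = t then n h else 0 : ℕ) : ℚ) =
        N * f (m.sum fun h r => if c i h = t then r else 0) := by
      intro i
      rw [Finsupp.sum, map_sum, Finset.mul_sum]
      push_cast
      refine Finset.sum_congr rfl fun h _ => ?_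
      split_ifs
      · exact hn h
      · rw [map_zero, mul_zero]
    have h1 := key i
    rw [heq i j t, ← key j] at h1
    exact_mod_cast h1

theorem exists_perm {I O : Type*} [Fintype I] [DecidableEq O] (X Y : I → O)
    (h : ∀ t, Fintype.card {x // X x = t} = Fintype.card {x // Y x = t}) :
    ∃ π : Equiv.Perm I, ∀ x, Y (π x) = X x := by
  have h1 : ∀ t, Nonempty ({x // X x = t} ≃ {x // Y x = t}) := fun t =>
    Fintype.card_eq.1 (h t)
  refine ⟨(Equiv.sigmaFiberEquiv X).symm.trans ((Equiv.sigmaCongrRight fun t => (h1 t).some).trans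
    (Equiv.sigmaFiberEquiv Y)), fun x => ?_⟩
  exact ((h1 (X x)).some ⟨x, rfl⟩).2

/-- From measures to permutations. -/
theorem exists_perms {ι H O : Type*} [DecidableEq O] (c : ι → H → O) (m : H →₀ ℝ)
    (hm : ∀ h, 0 ≤ m h) (i₀ : ι)
    (heq : ∀ i j t, (m.sum fun h r => if c i h = t then r else 0) =
        m.sum fun h r => if c j h = t then r else 0) (h₀ : H) (hh₀ : m h₀ ≠ 0) :
    ∃ (I : Type) (_ : Fintype I) (s : I → O) (π : ι → Equiv.Perm I),
      (∀ k, ∃ h, ∀ i, s (π i k) = c i h) ∧ ∃ k, ∀ i, s (π i k) = c i h₀ := by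
  classical
  obtain ⟨n, hn0, hn⟩ := exists_nat_weights c m hm heq
  set p := m.support.card with hp
  let e : m.support ≃ Fin p := m.support.equivFin
  let I := Σ k : Fin p, Fin (n (e.symm k).1)
  let X : ι → I → O := fun i x => c i (e.symm x.1).1
  have hcard : ∀ i t, Fintype.card {x // X i x = t} =
      ∑ h ∈ m.support, if c i h = t then n h else 0 := by
    intro i t
    rw [Fintype.card_subtype, Finset.card_filter]
    have h1 : ∑ x : I, (if X i x = t then 1 else 0) =
        ∑ k : Fin p, ∑ y : Fin (n (e.symm k).1), if c i (e.symm k).1 = t then 1 else 0 :=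
      Fintype.sum_sigma _
    rw [h1]
    have h2 : ∀ k : Fin p, (∑ y : Fin (n (e.symm k).1), if c i (e.symm k).1 = t then 1 else 0) =
        if c i (e.symm k).1 = t then n (e.symm k).1 else 0 := by
      intro k
      split_ifs <;> simp
    rw [Finset.sum_congr rfl fun k _ => h2 k,
      e.symm.sum_comp (fun x : m.support => if c i x.1 = t then n x.1 else 0),
      Finset.sum_coe_sort m.support (fun h => if c i h = t then n h else 0)]
  choose π hπ using fun i => exists_perm (X i) (X i₀) (fun t => by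
    rw [hcard, hcard]; exact hn i i₀ t)
  refine ⟨I, inferInstance, X i₀, π, fun k => ⟨(e.symm k.1).1, fun i => hπ i k⟩, ?_⟩
  have h3 : 0 < n h₀ := Nat.pos_of_ne_zero ((hn0 h₀).2 hh₀)
  let y : m.support := ⟨h₀, Finsupp.mem_support_iff.2 hh₀⟩
  have h4 : (e.symm (e y)) = y := e.symm_apply_apply y
  have h5 : 0 < n (e.symm (e y)).1 := by rw [h4]; exact h3
  refine ⟨⟨e y, ⟨0, h5⟩⟩, fun i => ?_⟩
  rw [hπ]
  change c i (e.symm (e y)).1 = c i h₀
  rw [h4]

end Pool.Agent.K4H16.Smyth
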