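import Mathlib
import Pool.Agent.H391R2.T4.Abl

/-!
# Realising weighted permutations by conjugate algebraic numbers
-/

set_option autoImplicit false
set_option linter.unusedSectionVars false

namespace Pool.Agent.K4H16.Smyth

open Finset

/-- Every large symmetric group is a Galois group over a number field. -/
theorem exists_sym (K : Type) [Field K] [NumberField K] : ∃ n₀ : ℕ, ∀ n ≥ n₀,
    ∃ (M : Type) (_ : Field M) (_ : Algebra K M) (_ : FiniteDimensional K M) (_ : IsGalois K M),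
      Nonempty ((M ≃ₐ[K] M) ≃* Equiv.Perm (Fin n)) := by
  have hw : Pool.Agent.H391R2.T4.WeakSol K K (K ≃ₐ[K] K) (MonoidHom.id _) :=
    Pool.Agent.H391R2.T4.weakSol_of_split K K (K ≃ₐ[K] K) (MonoidHom.id _) (MonoidHom.id _)
      (fun ρ => rfl)
  obtain ⟨n₀, hn₀⟩ := Pool.Agent.H391R2.T4.hil_all K K (K ≃ₐ[K] K) (MonoidHom.id _)
    (Pool.Agent.H391R2.T4.hilb_numberField K) hw
  refine ⟨n₀, fun n hn => ?_⟩
  obtain ⟨-, i, M, i1, i2, i3, ψ, -⟩ := hn₀ n hn
  have hf : Finite (M ≃ₐ[K] M) := Finite.of_equiv _ ψ.symm.toEquiv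
  have hfd : FiniteDimensional K M := IsGalois.finiteDimensional_of_finite K M
  exact ⟨M, i1, i2, hfd, i3, ⟨ψ⟩⟩

theorem realise_galois (K M : Type*) [Field K] [Field M] [Algebra K M] [FiniteDimensional K M]
    [IsGalois K M] {I : Type*} [Fintype I] [DecidableEq I] (ψ : (M ≃ₐ[K] M) ≃* Equiv.Perm I)
    {ι : Type*} [Fintype ι] (a : ι → K) (s : I → K) (hs : ∃ k, s k ≠ 0)
    (π : ι → Equiv.Perm I) (h : ∀ k, ∑ i, a i * s (π i k) = 0) :
    ∃ α : ι → M, (∀ i, α i ≠ 0) ∧ (∀ i j, minpoly K (α i) = minpoly K (α j)) ∧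
      ∑ i, algebraMap K M (a i) * α i = 0 := by
  classical
  obtain ⟨k₀, hk₀⟩ := hs
  set b := IsGalois.normalBasis K M with hb
  set γ : (M ≃ₐ[K] M) → M := fun g => ∑ f, s ((ψ g)⁻¹ (ψ f k₀)) • b f with hγ
  have hbapp : ∀ g f : M ≃ₐ[K] M, g (b f) = b (g * f) := by
    intro g f
    rw [hb, IsGalois.normalBasis_apply f, IsGalois.normalBasis_apply (g * f), AlgEquiv.mul_apply]
  have hγg : ∀ g : M ≃ₐ[K] M, g (γ 1) = γ g := by
    intro g
    simp only [hγ, map_sum, map_smul, map_one, inv_one, Equiv.Perm.one_apply]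
    rw [← Equiv.sum_comp (Equiv.mulLeft g) (fun f => s ((ψ g)⁻¹ (ψ f k₀)) • b f)]
    refine Finset.sum_congr rfl fun f _ => ?_
    have h9 : (ψ g)⁻¹ (ψ (Equiv.mulLeft g f) k₀) = ψ f k₀ := by
      change (ψ g)⁻¹ (ψ (g * f) k₀) = ψ f k₀
      rw [map_mul ψ, Equiv.Perm.mul_apply]
      exact Equiv.symm_apply_apply (ψ g) _
    rw [hbapp, h9]
    rfl
  have hγ1 : γ 1 ≠ 0 := by
    intro h0
    have h1 := congrArg (fun x => b.repr x 1) h0
    simp only [hγ, map_one, inv_one, Equiv.Perm.one_apply, map_zero, Finsupp.coe_zero,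
      Pi.zero_apply] at h1
    rw [b.repr_sum_self] at h1
    rw [map_one, Equiv.Perm.one_apply] at h1
    exact hk₀ h1
  set g : ι → (M ≃ₐ[K] M) := fun i => ψ.symm (π i)⁻¹ with hg
  have hψg : ∀ i, (ψ (g i))⁻¹ = π i := by
    intro i
    rw [hg]
    simp only [MulEquiv.apply_symm_apply, inv_inv]
  refine ⟨fun i => γ (g i), fun i => ?_, fun i j => ?_, ?_⟩
  · change γ (g i) ≠ 0
    rw [← hγg]
    intro h0
    exact hγ1 ((map_eq_zero_iff _ (g i).injective).1 h0)
  · change minpoly K (γ (g i)) = minpoly K (γ (g j))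
    rw [← hγg (g i), ← hγg (g j), minpoly.algEquiv_eq, minpoly.algEquiv_eq]
  · simp only [hγ, hψg, Finset.mul_sum]
    rw [Finset.sum_comm]
    refine Finset.sum_eq_zero fun f _ => ?_
    have h2 := h (ψ f k₀)
    have h3 : ∀ i, algebraMap K M (a i) * (s (π i (ψ f k₀)) • b f) =
        (a i * s (π i (ψ f k₀))) • b f := by
      intro i
      rw [mul_smul, Algebra.smul_def (a i)]
    rw [Finset.sum_congr rfl fun i _ => h3 i, ← Finset.sum_smul, h2, zero_smul]

theorem realise (K : Type) [Field K] [NumberField K] {ι : Type*} [Fintype ι] (a : ι → K)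
    {I : Type*} [Fintype I] (s : I → K) (hs : ∃ k, s k ≠ 0)
    (π : ι → Equiv.Perm I) (h : ∀ k, ∑ i, a i * s (π i k) = 0) :
    ∃ α : ι → AlgebraicClosure K, (∀ i, α i ≠ 0) ∧
      (∀ i j, minpoly K (α i) = minpoly K (α j)) ∧
      ∑ i, algebraMap K (AlgebraicClosure K) (a i) * α i = 0 := by
  classical
  obtain ⟨n₀, hn₀⟩ := exists_sym K
  obtain ⟨M, i1, i2, i3, i4, ⟨ψ⟩⟩ := hn₀ (Fintype.card I + n₀) (Nat.le_add_left _ _)
  let e : I ⊕ Fin n₀ ≃ Fin (Fintype.card I + n₀) :=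
    (Equiv.sumCongr (Fintype.equivFin I) (Equiv.refl _)).trans finSumFinEquiv
  obtain ⟨k₀, hk₀⟩ := hs
  let π' : ι → Equiv.Perm (Fin (Fintype.card I + n₀)) := fun i =>
    e.symm.trans ((Equiv.sumCongr (π i) (Equiv.refl _)).trans e)
  let s' : Fin (Fintype.card I + n₀) → K := fun k => Sum.elim s (fun _ => 0) (e.symm k)
  obtain ⟨α, h1, h2, h3⟩ := realise_galois K M ψ a s' ⟨e (Sum.inl k₀), by
    change Sum.elim s (fun _ => 0) (e.symm (e (Sum.inl k₀))) ≠ 0
    rw [Equiv.symm_apply_apply]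
    exact hk₀⟩ π' (by
    intro k
    obtain ⟨k, rfl⟩ := e.surjective k
    have h4 : ∀ i, s' (π' i (e k)) =
        Sum.elim s (fun _ => 0) (Equiv.sumCongr (π i) (Equiv.refl _) k) := by
      intro i
      change Sum.elim s (fun _ => 0) (e.symm (e (Equiv.sumCongr (π i) (Equiv.refl _)
        (e.symm (e k))))) = _
      rw [Equiv.symm_apply_apply, Equiv.symm_apply_apply]
    simp only [h4]
    rcases k with k | k
    · simpa using h k
    · simp)
  let φ : M →ₐ[K] AlgebraicClosure K := IsAlgClosed.lift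
  refine ⟨fun i => φ (α i), fun i => ?_, fun i j => ?_, ?_⟩
  · intro h0
    exact h1 i ((map_eq_zero_iff _ φ.injective).1 h0)
  · rw [minpoly.algHom_eq φ φ.injective, minpoly.algHom_eq φ φ.injective]
    exact h2 i j
  · have h5 := congrArg φ h3
    rw [map_sum, map_zero] at h5
    rw [← h5]
    refine Finset.sum_congr rfl fun i _ => ?_
    rw [map_mul, AlgHom.commutes]

end Pool.Agent.K4H16.Smyth
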